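import Pool.Agent.Helper22.HE.Spec

/-!
MP_143e28_ag, project HN, `p = 2`: the special genera `903 l` (elementary number theory).

`K = Q = 12642 + 2 N`, so `Q < 2 ^ K`.  `l` prime, `l = 7` modulo `2 ^ (K + 3)`, `l = 1` modulo `3 * 7 * 13 * 43`, `l` larger than `M` and `10000`: Chinese remainder
theorem and Dirichlet (`Nat.forall_exists_prime_gt_and_eq_mod`; see `inf_sp` in `Helper22/HE/Spec.lean` and `Dir_aux` in `Helper54/HZ/Dir.lean`).  Let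
`2 ^ e ∣ X = 2 * (903 * l) + 2 * n - 2 - v`, `v < n`.  `X = Y` modulo `2 ^ K` with `Y = 12642 + (2 n - 2 - v)`, `1 ≤ Y ≤ 12642 + 2 N = Q`.  `e ≥ K`: `2 ^ K ∣ Y`, no; `e < K`: `2 ^ e ∣ Y`,
so `2 ^ e ≤ Q`.
-/

set_option autoImplicit false

namespace Pool.Agent.Helper28.HN

theorem specialD2 (N M : ℕ) :
    ∃ l : ℕ, M < l ∧ Pool.Agent.Helper22.HE.Sp l ∧
      ∀ n : ℕ, 2 ≤ n → n ≤ N → ∀ e v : ℕ, v < n → 2 ^ e ∣ 2 * (903 * l) + 2 * n - 2 - v →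
        2 ^ e ≤ 12642 + 2 * N := by
  obtain ⟨K, hK⟩ : ∃ K, K = 12642 + 2 * N := ⟨_, rfl⟩
  have hc : (2 ^ (K + 3)).Coprime 11739 := Nat.Coprime.pow_left _ (by norm_num)
  obtain ⟨m, hm1, hm2⟩ := Nat.chineseRemainder hc 7 1
  have hm2' : m.Coprime 2 := by
    have h1 : m ≡ 7 [MOD 2] := hm1.of_dvd (dvd_pow_self 2 (by omega))
    have h3 := h1.gcd_eq
    unfold Nat.Coprime
    rw [h3]
    norm_num
  have hm3 : m.Coprime 11739 := by
    have h3 := hm2.gcd_eq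
    unfold Nat.Coprime
    rw [h3]
    norm_num
  have hq : NeZero (2 ^ (K + 3) * 11739) :=
    ⟨Nat.mul_ne_zero (pow_ne_zero _ (by norm_num)) (by norm_num)⟩
  have hu : IsUnit ((m : ℕ) : ZMod (2 ^ (K + 3) * 11739)) :=
    (ZMod.isUnit_iff_coprime m (2 ^ (K + 3) * 11739)).2 ((hm2'.pow_right (K + 3)).mul_right hm3)
  obtain ⟨l, hl1, hl2, hl3⟩ := Nat.forall_exists_prime_gt_and_eq_mod hu (max M 10000)
  have h4 : l ≡ m [MOD 2 ^ (K + 3) * 11739] := (ZMod.natCast_eq_natCast_iff l m _).1 hl3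
  have h5 : l ≡ 7 [MOD 2 ^ (K + 3)] := (h4.of_dvd (Dvd.intro _ rfl)).trans hm1
  have h6 : l ≡ 1 [MOD 11739] := (h4.of_dvd (Dvd.intro_left _ rfl)).trans hm2
  have hM : M < l := lt_of_le_of_lt (le_max_left _ _) hl1
  have hbig : 10000 < l := lt_of_le_of_lt (le_max_right _ _) hl1
  have h8 : l % 8 = 7 := by
    have h7 : l ≡ 7 [MOD 8] := h5.of_dvd (by
      have := pow_dvd_pow 2 (show 3 ≤ K + 3 by omega)
      norm_num at this
      exact this)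
    exact h7
  have g3 : l % 3 = 1 := h6.of_dvd (show 3 ∣ 11739 by norm_num)
  have g7 : l % 7 = 1 := h6.of_dvd (show 7 ∣ 11739 by norm_num)
  have g13 : l % 13 = 1 := h6.of_dvd (show 13 ∣ 11739 by norm_num)
  have g43 : l % 43 = 1 := h6.of_dvd (show 43 ∣ 11739 by norm_num)
  refine ⟨l, hM, ⟨hl2, h8, g3, g7, g13, g43, hbig⟩, ?_⟩
  clear h8 g3 g7 g13 g43 h6 h4 hl3 hl1 hu hq hm3 hm2'
  intro n hn2 hnN e v hv he
  obtain ⟨c, hc2⟩ : ∃ c, l = 7 + 2 ^ K * c := by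
    have h7 : 7 ≡ l [MOD 2 ^ K] := (h5.of_dvd (pow_dvd_pow 2 (by omega))).symm
    obtain ⟨c, hc⟩ := (Nat.modEq_iff_dvd' (by omega : 7 ≤ l)).1 h7
    exact ⟨c, by omega⟩
  have hX : 2 * (903 * l) + 2 * n - 2 - v = (12642 + 2 * n - 2 - v) + 2 ^ K * (1806 * c) := by
    rw [hc2]
    have e1 : 2 * (903 * (7 + 2 ^ K * c)) = 12642 + 2 ^ K * (1806 * c) := by ring
    rw [e1]
    omega
  rw [hX] at he
  have hY1 : 1 ≤ 12642 + 2 * n - 2 - v := by omega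
  have hY2 : 12642 + 2 * n - 2 - v ≤ K := by omega
  have hK2 : K < 2 ^ K := Nat.lt_two_pow_self
  rcases le_or_gt e K with heK | heK
  · have h1 : 2 ^ e ∣ 2 ^ K * (1806 * c) := Dvd.dvd.mul_right (pow_dvd_pow 2 heK) _
    have h2 : 2 ^ e ∣ 12642 + 2 * n - 2 - v := (Nat.dvd_add_left h1).1 he
    have h3 := Nat.le_of_dvd hY1 h2
    rw [← hK]
    exact h3.trans hY2
  · exfalso
    have h0 : 2 ^ K ∣ 12642 + 2 * n - 2 - v + 2 ^ K * (1806 * c) :=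
      (pow_dvd_pow 2 heK.le).trans he
    have h2 : 2 ^ K ∣ 12642 + 2 * n - 2 - v := (Nat.dvd_add_left (Dvd.intro _ rfl)).1 h0
    have h3 := Nat.le_of_dvd hY1 h2
    exact absurd (h3.trans hY2) (not_le.2 hK2)

end Pool.Agent.Helper28.HN
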