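import Pool.Agent.Helper28.HN.Places
import Pool.Agent.Helper54.HZ.TGen

/-!
MP_143e28_ag, project HN: the other points have `n` places above them (the analogue of `t_unram` in `Helper54/HZ/TGen.lean`, which treats `n = 3`: copy
and generalise).  `n ∣ ordP P f`: divide `y` by `rat e`: `y1 ^ n = u`, `ordP P u = 0`, residue `c ≠ 0`; `chi = Z ^ n - u` is irreducible
(`X_pow_sub_C_irreducible_iff_of_prime`; `y ∉ k(x)` and `k` contains the `n`-th roots of unity) with `n` different roots modulo `P`, the `n`-th roots of `c`.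
`d_places` with `S` = these roots, `ramD_of_ge` with `r = n`.
-/

set_option autoImplicit false

namespace Pool.Agent.Helper28.HN

open Polynomial Pool.Agent.Helper54.HY Pool.Agent.Helper54.HZ

variable {k F : Type*} [Field k] [Field F] [Algebra k F]

/-- the residue of a function of order zero -/
private theorem Unram_res (P : OnePoint k) {r : RatFunc k} (hr : r ≠ 0) (h : ordP P r = 0) :
    ∃ l : k, r - algebraMap k[X] (RatFunc k) (C l) = 0 ∨
      0 < ordP P (r - algebraMap k[X] (RatFunc k) (C l)) := by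
  have hn := RatFunc.num_ne_zero hr
  have hd := RatFunc.denom_ne_zero r
  have hd' : algebraMap k[X] (RatFunc k) r.denom ≠ 0 := RatFunc.algebraMap_ne_zero hd
  have key : ∀ l : k, r - algebraMap k[X] (RatFunc k) (C l) =
      algebraMap k[X] (RatFunc k) (r.num - C l * r.denom) /
        algebraMap k[X] (RatFunc k) r.denom := by
    intro l
    rw [map_sub, map_mul, sub_div, mul_div_cancel_right₀ _ hd', RatFunc.num_div_denom]
  induction P using OnePoint.rec with
  | infty =>
    rw [ordP_infty] at h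
    have hdeg : r.num.natDegree = r.denom.natDegree := by omega
    have hln : r.num.leadingCoeff ≠ 0 := leadingCoeff_ne_zero.2 hn
    have hld : r.denom.leadingCoeff ≠ 0 := leadingCoeff_ne_zero.2 hd
    refine ⟨r.num.leadingCoeff / r.denom.leadingCoeff, ?_⟩
    by_cases h0 : r.num - C (r.num.leadingCoeff / r.denom.leadingCoeff) * r.denom = 0
    · left
      rw [key, h0, map_zero, zero_div]
    · right
      rw [key, Ord_div _ h0 hd, Ord_v_infty, Ord_v_infty]
      have hc : r.num.leadingCoeff / r.denom.leadingCoeff ≠ 0 := div_ne_zero hln hld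
      have h1 : (r.num - C (r.num.leadingCoeff / r.denom.leadingCoeff) * r.denom).degree <
          r.num.degree := by
        apply degree_sub_lt_left
        · rw [degree_C_mul hc, degree_eq_natDegree hn, degree_eq_natDegree hd, hdeg]
        · exact hn
        · rw [leadingCoeff_mul, leadingCoeff_C, div_mul_cancel₀ _ hld]
      have h2 := natDegree_lt_natDegree h0 h1
      omega
  | coe a =>
    rw [ordP_coe] at h
    have hda : r.denom.eval a ≠ 0 := by
      intro h0
      have h1 : 0 < r.denom.rootMultiplicity a := (rootMultiplicity_pos hd).2 h0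
      have h2 : 0 < r.num.rootMultiplicity a := by omega
      have h3 : r.num.eval a = 0 := (rootMultiplicity_pos hn).1 h2
      obtain ⟨u, v, huv⟩ := RatFunc.isCoprime_num_denom r
      have h4 := congrArg (Polynomial.eval a) huv
      rw [eval_add, eval_mul, eval_mul, h0, h3, mul_zero, mul_zero, add_zero, eval_one] at h4
      exact zero_ne_one h4
    refine ⟨r.num.eval a / r.denom.eval a, ?_⟩
    by_cases h0 : r.num - C (r.num.eval a / r.denom.eval a) * r.denom = 0
    · left
      rw [key, h0, map_zero, zero_div]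
    · right
      rw [key, Ord_div _ h0 hd, Ord_v_coe, Ord_v_coe]
      have h1 : 0 < (r.num - C (r.num.eval a / r.denom.eval a) * r.denom).rootMultiplicity a := by
        rw [rootMultiplicity_pos h0, IsRoot.def, eval_sub, eval_mul, eval_C,
          div_mul_cancel₀ _ hda, sub_self]
      have h2 : r.denom.rootMultiplicity a = 0 := rootMultiplicity_eq_zero hda
      rw [h2]
      simpa using h1

private theorem Unram_neg (P : OnePoint k) {r : RatFunc k} (hr : r ≠ 0) : ordP P (-r) = ordP P r := by
  have h1 : (-r : RatFunc k) = algebraMap k[X] (RatFunc k) (C (-1)) * r := by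
    rw [map_neg, map_neg, C_1, map_one, neg_one_mul]
  have h2 : algebraMap k[X] (RatFunc k) (C (-1)) ≠ 0 :=
    RatFunc.algebraMap_ne_zero (C_ne_zero.2 (neg_ne_zero.2 one_ne_zero))
  rw [h1, ord_mul P h2 hr, ord_const, zero_add]

/-- a function with the order of `f` divided by `n` -/
private theorem Unram_e {n : ℕ} {f : k[X]} (hf : f ≠ 0) (P : OnePoint k) (hP : P ∉ BrN n f) :
    ∃ e : RatFunc k, e ≠ 0 ∧ ordP P (algebraMap k[X] (RatFunc k) f / e ^ n) = 0 := by
  have hf' : algebraMap k[X] (RatFunc k) f ≠ 0 := RatFunc.algebraMap_ne_zero hf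
  induction P using OnePoint.rec with
  | infty =>
    have h1 : n ∣ f.natDegree := by
      by_contra h
      exact hP (Or.inr ⟨h, rfl⟩)
    obtain ⟨d, hd⟩ := h1
    have hX : algebraMap k[X] (RatFunc k) X ≠ 0 := RatFunc.algebraMap_ne_zero X_ne_zero
    have hX' := pow_ne_zero d hX
    refine ⟨algebraMap k[X] (RatFunc k) X ^ d, hX', ?_⟩
    rw [div_eq_mul_inv, ord_mul _ hf' (inv_ne_zero (pow_ne_zero n hX')), ord_inv _ (pow_ne_zero n hX'),
      ord_pow _ hX', ord_pow _ hX, ord_poly_infty, ord_poly_infty, natDegree_X, hd]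
    push_cast
    ring
  | coe a =>
    refine ⟨1, one_ne_zero, ?_⟩
    rw [one_pow, div_one, ord_poly_coe]
    have h1 : f.eval a ≠ 0 := fun h => hP (Or.inl ⟨a, h, rfl⟩)
    rw [rootMultiplicity_eq_zero h1]
    rfl

theorem d_unram [IsAlgClosed k] {n : ℕ} (hn : n.Prime) (hnk : (n : k) ≠ 0) {x : F} (hx : Transcendental k x) {y : F} {f : k[X]}
    (hgen : IntermediateField.adjoin k {x, y} = ⊤) (hf : f ≠ 0) (hm : ∀ a : k, f.rootMultiplicity a < n)
    (hy : y ^ n = aeval x f) (hyx : y ∉ IntermediateField.adjoin k {x}) (P : OnePoint k) (hP : P ∉ BrN n f) :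
    ramD n hx P = 0 := by
  classical
  obtain ⟨e, he, hordu⟩ := Unram_e hf P hP
  have hf' : algebraMap k[X] (RatFunc k) f ≠ 0 := RatFunc.algebraMap_ne_zero hf
  obtain ⟨u, hu⟩ : ∃ u : RatFunc k, u = algebraMap k[X] (RatFunc k) f / e ^ n := ⟨_, rfl⟩
  have hu0 : u ≠ 0 := by rw [hu]; exact div_ne_zero hf' (pow_ne_zero n he)
  rw [← hu] at hordu
  obtain ⟨c, hc⟩ := Unram_res P hu0 hordu
  have hc0 : c ≠ 0 := by
    rintro rfl
    rw [C_0, map_zero, sub_zero] at hc
    rcases hc with h | h
    · exact hu0 h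
    · omega
  have hre : rat hx e ≠ 0 := fun h => he (rat_injective hx (by rw [h, map_zero]))
  obtain ⟨z, hz⟩ : ∃ z : F, z = y / rat hx e := ⟨_, rfl⟩
  have hz3 : z ^ n = rat hx u := by
    rw [hz, hu, div_pow, hy, map_div₀, map_pow, rat_poly]
  have hyz : y = rat hx e * z := by rw [hz, mul_div_cancel₀ _ hre]
  have hzx : ∀ r : RatFunc k, rat hx r ≠ z := by
    intro r hr
    apply hyx
    rw [mem_rat hx]
    exact ⟨e * r, by rw [map_mul, hr, ← hyz]⟩
  -- roots of unity
  obtain ⟨w, hw⟩ : ∃ w : k, IsPrimitiveRoot w n := by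
    have h0 : NeZero ((n : ℕ) : k) := ⟨hnk⟩
    have h1 : NeZero n := ⟨hn.ne_zero⟩
    exact HasEnoughRootsOfUnity.exists_primitiveRoot k n
  have hnc : ∀ b : RatFunc k, b ^ n ≠ u := by
    intro b hb
    have hb0 : b ≠ 0 := by
      rintro rfl
      exact hu0 (by rw [← hb, zero_pow hn.ne_zero])
    have hrb : rat hx b ≠ 0 := fun h => hb0 (rat_injective hx (by rw [h, map_zero]))
    have h1 : (z / rat hx b) ^ n = 1 := by
      rw [div_pow, hz3, ← hb, map_pow, div_self (pow_ne_zero n hrb)]
    have hwF : IsPrimitiveRoot (algebraMap k F w) n :=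
      hw.map_of_injective (algebraMap k F).injective
    have h2 : NeZero n := ⟨hn.ne_zero⟩
    obtain ⟨i, -, hi⟩ := hwF.eq_pow_of_pow_eq_one h1
    apply hzx (algebraMap k[X] (RatFunc k) (C (w ^ i)) * b)
    rw [map_mul, rat_poly, aeval_C, map_pow, hi, div_mul_cancel₀ _ hrb]
  obtain ⟨chi, hchi⟩ : ∃ chi : (RatFunc k)[X], chi = X ^ n - C u := ⟨_, rfl⟩
  have hirr : Irreducible chi := by
    rw [hchi]
    exact X_pow_sub_C_irreducible_of_prime hn hnc
  have hmon : chi.Monic := by
    rw [hchi]
    exact monic_X_pow_sub_C u hn.ne_zero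
  have hzr : chi.eval₂ (rat hx : RatFunc k →ₐ[k] F).toRingHom z = 0 := by
    rw [hchi, eval₂_sub, eval₂_pow, eval₂_X, eval₂_C, hz3]
    exact sub_self _
  have hint : ∀ i, chi.coeff i = 0 ∨ 0 ≤ ordP P (chi.coeff i) := by
    intro i
    rw [hchi, coeff_sub, coeff_X_pow, coeff_C]
    by_cases h1 : i = n
    · right
      rw [if_pos h1, if_neg (fun h => hn.ne_zero (h1 ▸ h)), sub_zero, ord_one]
    · by_cases h2 : i = 0
      · right
        rw [if_neg h1, if_pos h2, zero_sub, Unram_neg P hu0, hordu]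
      · left
        simp [h1, h2]
  obtain ⟨ρ, hρ⟩ : ∃ ρ : k, ρ ^ n = c := IsAlgClosed.exists_pow_nat_eq c hn.pos
  have hρ0 : ρ ≠ 0 := by
    rintro rfl
    exact hc0 (by rw [← hρ, zero_pow hn.ne_zero])
  have hroot : ∀ i : ℕ, chi.eval (algebraMap k[X] (RatFunc k) (C (ρ * w ^ i))) = 0 ∨
      1 ≤ ordP P (chi.eval (algebraMap k[X] (RatFunc k) (C (ρ * w ^ i)))) := by
    intro i
    have h1 : (ρ * w ^ i) ^ n = c := by
      rw [mul_pow, ← pow_mul, mul_comm i n, pow_mul, hw.pow_eq_one, one_pow, mul_one, hρ]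
    have h2 : chi.eval (algebraMap k[X] (RatFunc k) (C (ρ * w ^ i))) =
        -(u - algebraMap k[X] (RatFunc k) (C c)) := by
      rw [hchi, eval_sub, eval_pow, eval_X, eval_C, ← map_pow, ← map_pow, h1]
      ring
    rw [h2]
    rcases hc with h | h
    · left
      rw [h, neg_zero]
    · by_cases h4 : u - algebraMap k[X] (RatFunc k) (C c) = 0
      · left
        rw [h4, neg_zero]
      · right
        rw [Unram_neg P h4]
        omega
  have hinj : Set.InjOn (fun i : ℕ => ρ * w ^ i) (Finset.range n : Set ℕ) := by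
    intro i hi j hj hij
    rw [Finset.coe_range, Set.mem_Iio] at hi hj
    exact hw.pow_inj hi hj (mul_left_cancel₀ hρ0 hij)
  have hcard : ((Finset.range n).image (fun i : ℕ => ρ * w ^ i)).card = n := by
    rw [Finset.card_image_of_injOn hinj, Finset.card_range]
  have hpl := d_places hx P hmon hirr hzr hint ((Finset.range n).image (fun i : ℕ => ρ * w ^ i))
    (by
      intro rho hrho
      obtain ⟨i, -, rfl⟩ := Finset.mem_image.1 hrho
      exact hroot i)
  rw [hcard] at hpl
  have h9 := ramD_of_ge n hx P hn.one_le hpl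
  omega

end Pool.Agent.Helper28.HN
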