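import Pool.Agent.Helper28.HN.Ram
import Pool.Agent.Helper28.HN.Unram

/-!
MP_143e28_ag, project HN: the genus of `y ^ n = f (x)` (the analogue of `t_gen` in `Helper54/HZ/TGen.lean`): `∑ ramD = (n - 1) #BrN`, so
`(n - 1) (#BrN - 2) = 2 g` by `genus : ∑ ramD + 2 = 2 g + 2 n`.
-/

set_option autoImplicit false

namespace Pool.Agent.Helper28.HN

open Polynomial Pool.Agent.Helper54.HY Pool.Agent.Helper54.HZ

variable {k F : Type*} [Field k] [Field F] [Algebra k F]

theorem d_gen [IsAlgClosed k] {p n g : ℕ} (hn : n.Prime) {x : F} (h : PresD k F p n g x) {y : F} {f : k[X]}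
    (hgen : IntermediateField.adjoin k {x, y} = ⊤) (hf : f ≠ 0) (hm : ∀ a : k, f.rootMultiplicity a < n)
    (hy : y ^ n = aeval x f) (hyx : y ∉ IntermediateField.adjoin k {x}) : PresN k F n g x y f := by
  classical
  have hfin := finite_BrN n hf
  have h1 : ∀ P : OnePoint k, ramD n h.trans P = if P ∈ BrN n f then n - 1 else 0 := by
    intro P
    by_cases hP : P ∈ BrN n f
    · rw [if_pos hP]
      exact d_ram hn h.char h.trans hgen hf hm hy hyx P hP
    · rw [if_neg hP]
      exact d_unram hn h.char h.trans hgen hf hm hy hyx P hP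
  have h2 : ∑ᶠ P : OnePoint k, ramD n h.trans P = (n - 1) * Nat.card (BrN n f) := by
    rw [finsum_eq_sum_of_support_subset (s := hfin.toFinset)]
    · rw [Finset.sum_congr rfl (g := fun _ => n - 1)]
      · rw [Finset.sum_const, Nat.card_coe_set_eq, Set.ncard_eq_toFinset_card _ hfin, smul_eq_mul, mul_comm]
      · intro P hP
        rw [h1, if_pos ((Set.Finite.mem_toFinset hfin).1 hP)]
    · intro P hP
      rw [Function.mem_support, h1] at hP
      rw [Set.Finite.coe_toFinset]
      by_contra h4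
      exact hP (if_neg h4)
  have h4 := h.genus
  rw [h2] at h4
  refine ⟨hn, h.char, h.trans, hgen, hf, hm, hy, ?_⟩
  have hn2 := h.two
  obtain ⟨d, hd⟩ : ∃ d, n = d + 1 := ⟨n - 1, by omega⟩
  rw [Nat.mul_sub]
  have h5 : n - 1 = d := by omega
  rw [h5] at h4 ⊢
  omega

end Pool.Agent.Helper28.HN
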