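import Pool.Agent.Helper28.HN.Defs
import Pool.Agent.Helper54.HZ.TInv
import Pool.Agent.Helper54.HZ.TGrp

/-!
MP_143e28_ag, project HN: the group on the line (the analogue of `Helper54/HZ/TInv.lean` and `Helper54/HZ/TGrp.lean`; `TInv_le` gives the equality of
`(Above hx (mact M P)).encard` and `(Above hx P).encard`, hence of `ramD n`; copy the private lemmas).
-/

set_option autoImplicit false

namespace Pool.Agent.Helper28.HN

open Polynomial Pool.Agent.Helper28.HA Pool.Agent.Helper54.HY Pool.Agent.Helper54.HZ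

variable {k F : Type*} [Field k] [Field F] [Algebra k F]

private theorem Grp_val {x : F} (hx : Transcendental k x) (s : F ≃ₐ[k] F) {R : RatFunc k}
    (hR : s x = rat hx R) (r : RatFunc k) :
    s (rat hx r) = rat hx (aeval R r.num / aeval R r.denom) := by
  conv_lhs => rw [← RatFunc.num_div_denom r]
  rw [map_div₀, map_div₀, map_div₀, rat_poly, rat_poly, ← aeval_algHom_apply s,
    ← aeval_algHom_apply s, hR, aeval_algHom_apply, aeval_algHom_apply]

private theorem Grp_maps [IsAlgClosed k] {x : F} (hx : Transcendental k x) (s : F ≃ₐ[k] F)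
    (M : GL (Fin 2) k)
    (hM : s x * (algebraMap k F (M 1 0) * x + algebraMap k F (M 1 1)) =
        algebraMap k F (M 0 0) * x + algebraMap k F (M 0 1)) (P : OnePoint k)
    (V : ValuationSubring F) (hV : V ∈ Above hx P) :
    V.comap (s : F →+* F) ∈ Above hx (mact M P) := by
  have hR := Branch_mob hx M (s x) hM
  intro r
  have h1 : rat hx r ∈ V.comap (s : F →+* F) ↔ s (rat hx r) ∈ V := Iff.rfl
  rw [h1, Grp_val hx s hR r, hV]
  by_cases hr : r = 0
  · subst hr
    simp
  · have hn : r.num ≠ 0 := RatFunc.num_ne_zero hr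
    have hd : r.denom ≠ 0 := RatFunc.denom_ne_zero r
    rw [ASAct_comp M hr P]
    have h2 : aeval (mobX M) r.num / aeval (mobX M) r.denom ≠ 0 :=
      div_ne_zero (mobX_ne M hn) (mobX_ne M hd)
    simp [hr, h2]

private theorem Grp_le [IsAlgClosed k] {x : F} (hx : Transcendental k x) (s : F ≃ₐ[k] F)
    (M : GL (Fin 2) k)
    (hM : s x * (algebraMap k F (M 1 0) * x + algebraMap k F (M 1 1)) =
        algebraMap k F (M 0 0) * x + algebraMap k F (M 0 1)) (P : OnePoint k) :
    (Above hx P).encard ≤ (Above hx (mact M P)).encard := by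
  have hinj : Function.Injective fun V : ValuationSubring F => V.comap (s : F →+* F) := by
    intro V W h
    ext z
    have h1 : s.symm z ∈ V.comap (s : F →+* F) ↔ s.symm z ∈ W.comap (s : F →+* F) := by
      have h' : V.comap (s : F →+* F) = W.comap (s : F →+* F) := h
      rw [h']
    have h2 : s (s.symm z) ∈ V ↔ s (s.symm z) ∈ W := h1
    rwa [AlgEquiv.apply_symm_apply] at h2
  rw [← hinj.encard_image]
  apply Set.encard_le_encard
  rintro _ ⟨V, hV, rfl⟩
  exact Grp_maps hx s M hM P V hV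

private theorem Grp_symm {x : F} (hx : Transcendental k x) (s : F ≃ₐ[k] F) (M : GL (Fin 2) k)
    (hM : s x * (algebraMap k F (M 1 0) * x + algebraMap k F (M 1 1)) =
        algebraMap k F (M 0 0) * x + algebraMap k F (M 0 1)) :
    s.symm x * (algebraMap k F ((M⁻¹) 1 0) * x + algebraMap k F ((M⁻¹) 1 1)) =
        algebraMap k F ((M⁻¹) 0 0) * x + algebraMap k F ((M⁻¹) 0 1) := by
  have hN : ((M⁻¹ * M : GL (Fin 2) k) : Matrix (Fin 2) (Fin 2) k) = 1 := by
    rw [inv_mul_cancel, Matrix.GeneralLinearGroup.coe_one]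
  generalize M⁻¹ = N at hN ⊢
  rw [Matrix.GeneralLinearGroup.coe_mul] at hN
  have e00 := congrFun (congrFun hN 0) 0
  have e01 := congrFun (congrFun hN 0) 1
  have e10 := congrFun (congrFun hN 1) 0
  have e11 := congrFun (congrFun hN 1) 1
  simp only [Matrix.mul_apply, Fin.sum_univ_two, Matrix.one_apply, Fin.isValue, if_true] at e00 e01 e10 e11
  rw [if_neg (by decide)] at e01 e10
  have f00 := congrArg (algebraMap k F) e00
  have f01 := congrArg (algebraMap k F) e01
  have f10 := congrArg (algebraMap k F) e10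
  have f11 := congrArg (algebraMap k F) e11
  simp only [map_add, map_mul, map_one, map_zero] at f00 f01 f10 f11
  have hx1 := congrArg s.symm hM
  simp only [map_mul, map_add, AlgEquiv.symm_apply_apply, AlgEquiv.commutes] at hx1
  have hne : algebraMap k F (M 1 0) * x + algebraMap k F (M 1 1) ≠ 0 := by
    intro h
    have h1 : aeval x (C (M 1 0) * X + C (M 1 1) : k[X]) = 0 := by simpa using h
    have h2 := (transcendental_iff.1 hx) _ h1
    have h3 : M 1 0 = 0 := by
      have := congrArg (fun p : k[X] => p.coeff 1) h2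
      simpa using this
    have h4 : M 1 1 = 0 := by
      have := congrArg (fun p : k[X] => p.coeff 0) h2
      simpa using this
    have hdet := M.det_ne_zero
    rw [Matrix.det_fin_two] at hdet
    apply hdet
    have h3' : (M : Matrix (Fin 2) (Fin 2) k) 1 0 = 0 := h3
    have h4' : (M : Matrix (Fin 2) (Fin 2) k) 1 1 = 0 := h4
    rw [h3', h4']
    ring
  have hne' : algebraMap k F (M 1 0) * s.symm x + algebraMap k F (M 1 1) ≠ 0 := by
    intro h
    apply hne
    have h1 := congrArg s h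
    simpa using h1
  apply mul_right_cancel₀ hne'
  linear_combination (s.symm x * algebraMap k F (N 1 0) - algebraMap k F (N 0 0)) * hx1 +
    (s.symm x) ^ 2 * f10 + s.symm x * f11 - s.symm x * f00 - f01

theorem d_inv [IsAlgClosed k] (n : ℕ) {x : F} (hx : Transcendental k x) (s : F ≃ₐ[k] F) (M : GL (Fin 2) k)
    (hM : s x * (algebraMap k F (M 1 0) * x + algebraMap k F (M 1 1)) =
        algebraMap k F (M 0 0) * x + algebraMap k F (M 0 1)) (P : OnePoint k) :
    ramD n hx (mact M P) = ramD n hx P := by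
  have h1 := Grp_le hx s M hM P
  have h2 := Grp_le hx s.symm M⁻¹ (Grp_symm hx s M hM) (mact M P)
  have h3 : mact M⁻¹ (mact M P) = P := by
    rw [map_inv]
    exact (mact M).symm_apply_apply P
  rw [h3] at h2
  have h4 := le_antisymm h2 h1
  unfold ramD
  rw [h4]

/-- `s x = M (x)` -/
private def Grp_rel (x : F) (s : F ≃ₐ[k] F) (M : GL (Fin 2) k) : Prop :=
  s x * (algebraMap k F (M 1 0) * x + algebraMap k F (M 1 1)) =
    algebraMap k F (M 0 0) * x + algebraMap k F (M 0 1)

private theorem Grp_lin_ne {x : F} (hx : Transcendental k x) (M : GL (Fin 2) k) :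
    algebraMap k F (M 1 0) * x + algebraMap k F (M 1 1) ≠ 0 := by
  intro h0
  have hp : (C (M 1 0) * X + C (M 1 1) : k[X]) = 0 := by
    by_contra hne
    exact hx ⟨C (M 1 0) * X + C (M 1 1), hne, by simpa using h0⟩
  have h1 : M 1 0 = 0 := by
    have := congrArg (fun q : k[X] => q.coeff 1) hp
    simpa [coeff_C] using this
  have h2 : M 1 1 = 0 := by
    have := congrArg (fun q : k[X] => q.coeff 0) hp
    simpa [coeff_C] using this
  have hd := M.det_ne_zero
  rw [Matrix.det_fin_two, h1, h2] at hd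
  simp at hd

private theorem Grp_one (x : F) : Grp_rel x (1 : F ≃ₐ[k] F) 1 := by
  simp [Grp_rel]

private theorem Grp_mul {x : F} {s t : F ≃ₐ[k] F} {M N : GL (Fin 2) k} (hx : Transcendental k x)
    (hs : Grp_rel x s M) (ht : Grp_rel x t N) : Grp_rel x (t * s) (M * N) := by
  unfold Grp_rel at *
  have h1 := congrArg t hs
  simp only [map_mul, map_add, AlgEquiv.commutes] at h1
  have hD := Grp_lin_ne hx N
  have e : (t * s) x = t (s x) := rfl
  rw [e]
  have hm : ∀ i j, (M * N) i j = M i 0 * N 0 j + M i 1 * N 1 j := by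
    intro i j
    rw [Units.val_mul, Matrix.mul_apply, Fin.sum_univ_two]
  simp only [hm, map_add, map_mul]
  linear_combination (algebraMap k F (N 1 0) * x + algebraMap k F (N 1 1)) * h1 +
    (algebraMap k F (M 0 0) - t (s x) * algebraMap k F (M 1 0)) * ht

private theorem Grp_inv {x : F} {s : F ≃ₐ[k] F} {M : GL (Fin 2) k}
    (hs : Grp_rel x s M) : Grp_rel x s⁻¹ M⁻¹ := by
  unfold Grp_rel at *
  have h1 := congrArg (s⁻¹ : F ≃ₐ[k] F) hs
  have e : (s⁻¹ : F ≃ₐ[k] F) (s x) = x := s.symm_apply_apply x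
  simp only [map_mul, map_add, AlgEquiv.commutes, e] at h1
  have hd : (M : Matrix (Fin 2) (Fin 2) k).det ≠ 0 := M.det_ne_zero
  have hi : ((M⁻¹ : GL (Fin 2) k) : Matrix (Fin 2) (Fin 2) k) =
      (M : Matrix (Fin 2) (Fin 2) k).det⁻¹ • !![M 1 1, -M 0 1; -M 1 0, M 0 0] := by
    rw [Matrix.coe_units_inv, Matrix.inv_def, Matrix.adjugate_fin_two, Ring.inverse_eq_inv']
  have i00 : (M⁻¹ : GL (Fin 2) k) 0 0 = (M : Matrix (Fin 2) (Fin 2) k).det⁻¹ * M 1 1 := by
    rw [hi]; simp
  have i01 : (M⁻¹ : GL (Fin 2) k) 0 1 = (M : Matrix (Fin 2) (Fin 2) k).det⁻¹ * (-M 0 1) := by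
    rw [hi]; simp
  have i10 : (M⁻¹ : GL (Fin 2) k) 1 0 = (M : Matrix (Fin 2) (Fin 2) k).det⁻¹ * (-M 1 0) := by
    rw [hi]; simp
  have i11 : (M⁻¹ : GL (Fin 2) k) 1 1 = (M : Matrix (Fin 2) (Fin 2) k).det⁻¹ * M 0 0 := by
    rw [hi]; simp
  rw [i00, i01, i10, i11]
  simp only [map_mul, map_neg]
  linear_combination (-algebraMap k F ((M : Matrix (Fin 2) (Fin 2) k).det⁻¹)) * h1

private theorem Grp_eq [Infinite k] {x : F} (hx : Transcendental k x) {s s' : F ≃ₐ[k] F}
    {M M' : GL (Fin 2) k} (hs : Grp_rel x s M) (hs' : Grp_rel x s' M') (hm : mact M = mact M') :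
    s x = s' x := by
  have key : ∀ a : k, (M 0 0 * a + M 0 1) * (M' 1 0 * a + M' 1 1) =
      (M' 0 0 * a + M' 0 1) * (M 1 0 * a + M 1 1) := by
    intro a
    have ha : mact M (a : OnePoint k) = mact M' (a : OnePoint k) := by rw [hm]
    by_cases h1 : M 1 0 * a + M 1 1 = 0
    · by_cases h2 : M' 1 0 * a + M' 1 1 = 0
      · rw [h1, h2]; ring
      · rw [mact_some_zero M a h1, mact_some M' a h2] at ha
        exact absurd ha (OnePoint.infty_ne_coe _)
    · by_cases h2 : M' 1 0 * a + M' 1 1 = 0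
      · rw [mact_some M a h1, mact_some_zero M' a h2] at ha
        exact absurd ha (OnePoint.coe_ne_infty _)
      · rw [mact_some M a h1, mact_some M' a h2, OnePoint.coe_eq_coe, div_eq_div_iff h1 h2] at ha
        exact ha
  have hp : ((C (M 0 0) * X + C (M 0 1)) * (C (M' 1 0) * X + C (M' 1 1)) -
      (C (M' 0 0) * X + C (M' 0 1)) * (C (M 1 0) * X + C (M 1 1)) : k[X]) = 0 := by
    apply Polynomial.funext
    intro a
    simp only [eval_sub, eval_mul, eval_add, eval_C, eval_X, eval_zero]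
    rw [key a, sub_self]
  have hq := congrArg (aeval x) hp
  simp only [map_sub, map_mul, map_add, aeval_C, aeval_X, map_zero] at hq
  have d1 := Grp_lin_ne hx M
  have d2 := Grp_lin_ne hx M'
  unfold Grp_rel at hs hs'
  have : (s x - s' x) * ((algebraMap k F (M 1 0) * x + algebraMap k F (M 1 1)) *
      (algebraMap k F (M' 1 0) * x + algebraMap k F (M' 1 1))) = 0 := by
    linear_combination (algebraMap k F (M' 1 0) * x + algebraMap k F (M' 1 1)) * hs -
      (algebraMap k F (M 1 0) * x + algebraMap k F (M 1 1)) * hs' + hq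
  rcases mul_eq_zero.mp this with h | h
  · exact sub_eq_zero.mp h
  · exact absurd h (mul_ne_zero d1 d2)

theorem d_group [IsAlgClosed k] (n : ℕ) {x : F} (hx : Transcendental k x)
    (hmem : ∀ s : F ≃ₐ[k] F, s x ∈ IntermediateField.adjoin k {x})
    (hker : ∀ s : F ≃ₐ[k] F, s x = x → s = 1) :
    ∃ G : Subgroup (Equiv.Perm (OnePoint k)), MobGroup G ∧
      (∀ s ∈ G, ∀ P, ramD n hx (s P) = ramD n hx P) ∧
      (Finite G → Finite (F ≃ₐ[k] F) ∧ Nat.card (F ≃ₐ[k] F) ≤ Nat.card G) := by
  have : Infinite k := IsAlgClosed.instInfinite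
  let G : Subgroup (Equiv.Perm (OnePoint k)) :=
    { carrier := {p | ∃ (s : F ≃ₐ[k] F) (M : GL (Fin 2) k), Grp_rel x s M ∧ p = mact M}
      mul_mem' := by
        rintro _ _ ⟨s, M, hs, rfl⟩ ⟨t, N, ht, rfl⟩
        exact ⟨t * s, M * N, Grp_mul hx hs ht, by rw [map_mul]⟩
      one_mem' := ⟨1, 1, Grp_one x, by rw [map_one]⟩
      inv_mem' := by
        rintro _ ⟨s, M, hs, rfl⟩
        exact ⟨s⁻¹, M⁻¹, Grp_inv hs, by rw [map_inv]⟩ }
  refine ⟨G, ?_, ?_, ?_⟩
  · rintro _ ⟨s, M, hs, rfl⟩
    exact ⟨M, rfl⟩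
  · rintro _ ⟨s, M, hs, rfl⟩ P
    exact d_inv n hx s M hs P
  · intro hfin
    have hM : ∀ s : F ≃ₐ[k] F, ∃ M : GL (Fin 2) k, Grp_rel x s M := by
      intro s
      obtain ⟨M, _, hM⟩ := Pool.Agent.Helper54.HZ.auto_mob hx hmem s
      exact ⟨M, hM⟩
    choose M hM using hM
    let φ : (F ≃ₐ[k] F) → G := fun s => ⟨mact (M s), s, M s, hM s, rfl⟩
    have hφ : Function.Injective φ := by
      intro s s' hss
      have h1 : s x = s' x := Grp_eq hx (hM s) (hM s') (congrArg Subtype.val hss)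
      have h2 : s⁻¹ * s' = 1 := by
        apply hker
        rw [AlgEquiv.mul_apply, ← h1]
        exact s.symm_apply_apply x
      exact inv_mul_eq_one.1 h2
    exact ⟨Finite.of_injective φ hφ, Nat.card_le_card_of_injective φ hφ⟩

end Pool.Agent.Helper28.HN
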