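import Pool.Agent.Helper28.HN.Defs
import Pool.Agent.Helper54.HZ.Fix

/-!
MP_143e28_ag, project HN: an indecomposable extension of `k(x)` with a nontrivial automorphism is a Kummer extension of prime degree (the analogue of
`Helper54/HZ/TKum.lean`).

`s ≠ 1` fixes `k(x)`, no field strictly between `k(x)` and `F`: the fixed field of `s` contains `k(x)` and is not `F`, so it is `k(x)`; the powers of `s` form a group
of order `n` (Artin: `#(powers of s) = [F : fixed field]`; `IntermediateField.finrank_fixedField_eq_card`); the same for every power of `s` other than `1`,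
so `n` is prime.  `k` has a primitive `n`-th root of unity.  The
`k(x)`-linear map `s` satisfies `s ^ n = 1`, `s ≠ 1`; `Z ^ n - 1` splits with different roots in `k`: `s` is diagonalizable with an eigenvalue `ζ ≠ 1`: `y0 ≠ 0`,
`s y0 = ζ y0` (by hand: if all Lagrange resolvents `∑ ζ ^ (- i j) s ^ i u`, `j ≠ 0`, vanish then `n u = ∑ s ^ i u` is fixed for all `u`).  Or Mathlib
`Mathlib/FieldTheory/KummerExtension.lean` (`exists_root_adjoin_eq_top_of_isCyclic`).  `y0 ^ n` is fixed by `s`: `y0 ^ n = N / D ∈ k(x)`;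
`y1 = D y0`: `y1 ^ n = N D ^ (n-1) =: h ∈ k[x]`, `h ≠ 0`.  Write `h = f e ^ n` with all roots of `f` of multiplicity `< n` (`k` algebraically closed: induction on the
degree, divide by `(X - a) ^ n` as long as possible); `y = y1 / e`.  `y ∉ k(x)` (not fixed by `s`), so `F = k(x, y)` (`n` prime).
-/

set_option autoImplicit false

namespace Pool.Agent.Helper28.HN

open Polynomial Pool.Agent.Helper54.HY Pool.Agent.Helper54.HZ

variable {k F : Type*} [Field k] [Field F] [Algebra k F]

/-- the part of a polynomial free of `n`-th powers -/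
private theorem Kum_split {n : ℕ} (hn : n ≠ 0) : ∀ (m : ℕ) (h : k[X]), h ≠ 0 → h.natDegree ≤ m →
    ∃ f e : k[X], f ≠ 0 ∧ e ≠ 0 ∧ h = f * e ^ n ∧ ∀ a : k, f.rootMultiplicity a < n := by
  intro m
  induction m using Nat.strong_induction_on with
  | _ m ih =>
    intro h h0 hm
    by_cases hall : ∀ a : k, h.rootMultiplicity a < n
    · exact ⟨h, 1, h0, one_ne_zero, by rw [one_pow, mul_one], hall⟩
    · push Not at hall
      obtain ⟨a, ha⟩ := hall
      rw [le_rootMultiplicity_iff h0] at ha
      obtain ⟨h', rfl⟩ := ha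
      have hX : (X - C a) ≠ 0 := X_sub_C_ne_zero a
      have h0' : h' ≠ 0 := by
        rintro rfl
        exact h0 (mul_zero _)
      have hdeg : ((X - C a) ^ n * h').natDegree = n + h'.natDegree := by
        rw [natDegree_mul (pow_ne_zero n hX) h0', natDegree_pow, natDegree_X_sub_C, mul_one]
      obtain ⟨f, e, hf, he, hfe, hmu⟩ := ih h'.natDegree (by omega) h' h0' le_rfl
      refine ⟨f, (X - C a) * e, hf, mul_ne_zero hX he, ?_, hmu⟩
      rw [hfe, mul_pow]
      ring

/-- the fixed field of `s` is `E`, and `s ^ n = 1` -/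
private theorem Kum_fixed {n : ℕ} (hn : n.Prime) (E : IntermediateField k F)
    (hc : Module.finrank E F = n) (s : F ≃ₐ[k] F) (hs : s ≠ 1) (hfix : ∀ e ∈ E, s e = e) :
    (∀ u, s u = u → u ∈ E) ∧ ∀ u, (s ^ n) u = u := by
  classical
  have hfin : FiniteDimensional E F := Module.finite_of_finrank_pos (by rw [hc]; exact hn.pos)
  obtain ⟨σ, hσ⟩ : ∃ σ : F ≃ₐ[E] F, ∀ u, σ u = s u :=
    ⟨AlgEquiv.ofRingEquiv (f := s.toRingEquiv) (fun e => hfix e e.2), fun u => rfl⟩
  have hσ1 : σ ≠ 1 := by
    intro h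
    apply hs
    ext u
    rw [← hσ, h]
    rfl
  obtain ⟨L, hL⟩ : ∃ L, L = IntermediateField.fixedField (Subgroup.zpowers σ) := ⟨_, rfl⟩
  have h1 : Module.finrank L F = orderOf σ := by
    rw [hL, IntermediateField.finrank_fixedField_eq_card, Nat.card_zpowers]
  have h2 : Module.finrank E L * Module.finrank L F = n := by
    rw [Module.finrank_mul_finrank, hc]
  have h3 : Module.finrank L F ≠ 1 := by
    rw [h1]
    intro h
    exact hσ1 (orderOf_eq_one_iff.1 h)
  have h4 : Module.finrank L F = n := by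
    have h5 : Module.finrank L F ∣ n := Dvd.intro_left _ h2
    rcases (Nat.dvd_prime hn).1 h5 with h6 | h6
    · exact absurd h6 h3
    · exact h6
  have h5 : Module.finrank E L = 1 := by
    rw [h4] at h2
    exact Nat.eq_of_mul_eq_mul_right hn.pos (h2.trans (one_mul n).symm)
  have h6 : L = ⊥ := IntermediateField.finrank_eq_one_iff.1 h5
  refine ⟨?_, ?_⟩
  · intro u hu
    have h7 : u ∈ L := by
      rw [hL, IntermediateField.mem_fixedField_iff]
      intro g hg
      obtain ⟨i, rfl⟩ := Subgroup.mem_zpowers_iff.1 hg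
      have h8 : σ • u = u := by
        rw [AlgEquiv.smul_def, hσ, hu]
      have h9 : (σ ^ i) • u = u := by
        have : σ ∈ MulAction.stabilizer (F ≃ₐ[E] F) u := h8
        exact (MulAction.stabilizer (F ≃ₐ[E] F) u).zpow_mem this i
      exact h9
    rw [h6, IntermediateField.mem_bot] at h7
    obtain ⟨e, rfl⟩ := h7
    exact e.2
  · intro u
    have h7 : σ ^ n = 1 := by
      rw [← h4, h1]
      exact pow_orderOf_eq_one σ
    have h8 : ∀ (i : ℕ) (u : F), (s ^ i) u = (σ ^ i) u := by
      intro i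
      induction i with
      | zero => intro u; rfl
      | succ i ih =>
        intro u
        rw [pow_succ, pow_succ, AlgEquiv.mul_apply, AlgEquiv.mul_apply, ih, hσ]
    rw [h8, h7]
    rfl

/-- if no factor has a kernel then the product has no kernel -/
private theorem Kum_prod (S : Module.End k F) : ∀ T : Finset k,
    (∀ ω ∈ T, ∀ v, S v = ω • v → v = 0) →
    ∀ u, (aeval S (∏ ω ∈ T, (X - C ω))) u = 0 → u = 0 := by
  classical
  intro T
  induction T using Finset.induction_on with
  | empty =>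
    intro _ u hu
    rw [Finset.prod_empty, map_one] at hu
    exact hu
  | insert a T ha ih =>
    intro h u hu
    rw [Finset.prod_insert ha, map_mul, Module.End.mul_apply] at hu
    rw [map_sub, aeval_X, aeval_C, LinearMap.sub_apply, Module.algebraMap_end_apply, sub_eq_zero] at hu
    have h1 := h a (Finset.mem_insert_self a T) _ hu
    exact ih (fun ω hω => h ω (Finset.mem_insert_of_mem hω)) u h1

/-- an eigenvector -/
private theorem Kum_eigen [IsAlgClosed k] {n : ℕ} (hn : n ≠ 0) (hnk : (n : k) ≠ 0) (s : F ≃ₐ[k] F)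
    (hs : s ≠ 1) (hpow : ∀ u, (s ^ n) u = u) :
    ∃ (ω : k) (y0 : F), ω ^ n = 1 ∧ ω ≠ 1 ∧ y0 ≠ 0 ∧ s y0 = algebraMap k F ω * y0 := by
  classical
  obtain ⟨ζ, hζ⟩ : ∃ ζ : k, IsPrimitiveRoot ζ n := by
    have : NeZero (n : k) := ⟨hnk⟩
    exact HasEnoughRootsOfUnity.exists_primitiveRoot k n
  by_contra hcon
  push Not at hcon
  let S : Module.End k F := s.toLinearMap
  have hS : ∀ u, S u = s u := fun u => rfl
  have hSp : ∀ (i : ℕ) (u : F), (S ^ i) u = (s ^ i) u := by
    intro i
    induction i with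
    | zero => intro u; rfl
    | succ i ih =>
      intro u
      rw [pow_succ, pow_succ, AlgEquiv.mul_apply, Module.End.mul_apply, ih, hS]
  have hprod := X_pow_sub_one_eq_prod (Nat.pos_of_ne_zero hn) hζ
  have h1mem : (1 : k) ∈ nthRootsFinset n (1 : k) :=
    (mem_nthRootsFinset (Nat.pos_of_ne_zero hn) 1).2 (one_pow n)
  rw [← Finset.prod_erase_mul _ _ h1mem] at hprod
  apply hs
  ext u
  have h2 : (aeval S (∏ ω ∈ (nthRootsFinset n (1 : k)).erase 1, (X - C ω))) (S u - u) = 0 := by
    have h3 : (aeval S (X ^ n - 1 : k[X])) u = 0 := by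
      rw [map_sub, map_pow, aeval_X, map_one, LinearMap.sub_apply, hSp, hpow, Module.End.one_apply,
        sub_self]
    rw [hprod, map_mul, Module.End.mul_apply] at h3
    have h4 : (aeval S (X - C (1 : k))) u = S u - u := by
      rw [map_sub, aeval_X, aeval_C, LinearMap.sub_apply, Module.algebraMap_end_apply, one_smul]
    rw [h4] at h3
    exact h3
  have h5 := Kum_prod S _ (fun ω hω v hv => by
    by_contra hv0
    rw [Finset.mem_erase, mem_nthRootsFinset (Nat.pos_of_ne_zero hn)] at hω
    refine hcon ω v hω.2 hω.1 hv0 ?_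
    rw [← hS, hv, Algebra.smul_def]) _ h2
  exact sub_eq_zero.1 h5

/-- an element outside `E` generates `F` over `E` -/
private theorem Kum_top {n : ℕ} (hn : n.Prime) (E : IntermediateField k F)
    (hc : Module.finrank E F = n) (y : F) (hy : y ∉ E) :
    IntermediateField.adjoin E {y} = ⊤ := by
  have hfin : FiniteDimensional E F := Module.finite_of_finrank_pos (by rw [hc]; exact hn.pos)
  have h2 : Module.finrank E (IntermediateField.adjoin E {y}) *
      Module.finrank (IntermediateField.adjoin E {y}) F = n := by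
    rw [Module.finrank_mul_finrank, hc]
  have h5 : Module.finrank E (IntermediateField.adjoin E {y}) ∣ n := Dvd.intro _ h2
  rcases (Nat.dvd_prime hn).1 h5 with h6 | h6
  · exfalso
    rw [IntermediateField.finrank_adjoin_simple_eq_one_iff, IntermediateField.mem_bot] at h6
    obtain ⟨e, rfl⟩ := h6
    exact hy e.2
  · rw [h6] at h2
    have h7 : Module.finrank (IntermediateField.adjoin E {y}) F = 1 :=
      Nat.eq_of_mul_eq_mul_left hn.pos (h2.trans (mul_one n).symm)
    exact IntermediateField.finrank_eq_one_iff_eq_top.1 h7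

/-- the case of prime degree -/
private theorem Kum_main [IsAlgClosed k] {n : ℕ} (hn : n.Prime) (hnk : (n : k) ≠ 0) {x : F} (hx : Transcendental k x)
    (hc : Module.finrank (IntermediateField.adjoin k {x}) F = n) (s : F ≃ₐ[k] F) (hs : s ≠ 1)
    (hsx : s x = x) :
    ∃ (y : F) (f : k[X]), IntermediateField.adjoin k {x, y} = ⊤ ∧ f ≠ 0 ∧ (∀ a : k, f.rootMultiplicity a < n) ∧
      y ^ n = aeval x f ∧ y ∉ IntermediateField.adjoin k {x} := by
  classical
  obtain ⟨E, hE⟩ : ∃ E, E = IntermediateField.adjoin k {x} := ⟨_, rfl⟩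
  rw [← hE] at hc
  have hxF : ∀ q : k[X], s (aeval x q) = aeval x q := by
    intro q
    rw [← rat_poly hx]
    exact tau_rat hx s hsx _
  have hinj : ∀ q : k[X], aeval x q = 0 → q = 0 := fun q h => (transcendental_iff.1 hx) q h
  have hfix : ∀ e ∈ E, s e = e := by
    intro e he
    rw [hE, mem_rat hx] at he
    obtain ⟨r, rfl⟩ := he
    exact tau_rat hx s hsx r
  obtain ⟨hinv, hpow⟩ := Kum_fixed hn E hc s hs hfix
  obtain ⟨ω, y0, hωn, hω1, hy0, hsy0⟩ := Kum_eigen hn.ne_zero hnk s hs hpow
  have hyn : y0 ^ n ∈ E := by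
    apply hinv
    rw [map_pow, hsy0, mul_pow, ← map_pow, hωn, map_one, one_mul]
  rw [hE, IntermediateField.mem_adjoin_simple_iff] at hyn
  obtain ⟨N, D, hND⟩ := hyn
  have hyn0 : y0 ^ n ≠ 0 := pow_ne_zero n hy0
  have hDx : aeval x D ≠ 0 := by
    intro h
    rw [h, div_zero] at hND
    exact hyn0 hND
  have hNx : aeval x N ≠ 0 := by
    intro h
    rw [h, zero_div] at hND
    exact hyn0 hND
  have hD0 : D ≠ 0 := by
    rintro rfl
    exact hDx (map_zero _)
  have hN0 : N ≠ 0 := by
    rintro rfl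
    exact hNx (map_zero _)
  obtain ⟨f, e, hf0, he0, hfe, hmult⟩ := Kum_split hn.ne_zero (N * D ^ (n - 1)).natDegree
    (N * D ^ (n - 1)) (mul_ne_zero hN0 (pow_ne_zero _ hD0)) le_rfl
  have hex : aeval x e ≠ 0 := fun h => he0 (hinj e h)
  have hfe' : aeval x N * aeval x D ^ (n - 1) = aeval x f * aeval x e ^ n := by
    have h := congrArg (aeval x) hfe
    rwa [map_mul, map_mul, map_pow, map_pow] at h
  have hNe : aeval x N = y0 ^ n * aeval x D := by
    rw [hND, div_mul_cancel₀ _ hDx]
  obtain ⟨y, hy⟩ : ∃ y, y = aeval x D * y0 / aeval x e := ⟨_, rfl⟩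
  have hyne : y ≠ 0 := by
    rw [hy]
    exact div_ne_zero (mul_ne_zero hDx hy0) hex
  have hsy : s y = algebraMap k F ω * y := by
    rw [hy, map_div₀, map_mul, hxF, hxF, hsy0]
    ring
  have hyE : y ∉ E := by
    intro h
    have h1 := hfix y h
    rw [hsy] at h1
    have h2 : algebraMap k F ω = 1 := mul_right_cancel₀ hyne (h1.trans (one_mul y).symm)
    rw [← map_one (algebraMap k F)] at h2
    exact hω1 ((algebraMap k F).injective h2)
  have hDn : aeval x D ^ n = aeval x D * aeval x D ^ (n - 1) := by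
    rw [← pow_succ', Nat.sub_add_cancel hn.one_le]
  refine ⟨y, f, ?_, hf0, hmult, ?_, by rw [← hE]; exact hyE⟩
  · have h1 := Kum_top hn E hc y hyE
    have h2 := IntermediateField.adjoin_simple_adjoin_simple k x y
    rw [← h2]
    subst hE
    rw [h1]
    rfl
  · rw [hy, div_pow, mul_pow, div_eq_iff (pow_ne_zero n hex), ← hfe', hNe, hDn]
    ring

/-- an indecomposable extension with an automorphism has prime degree -/
private theorem Kum_prime {n : ℕ} (hn : 2 ≤ n) (E : IntermediateField k F)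
    (hc : Module.finrank E F = n) (hsim : ∀ E' : IntermediateField E F, E' = ⊥ ∨ E' = ⊤)
    (s : F ≃ₐ[k] F) (hs : s ≠ 1) (hfix : ∀ e ∈ E, s e = e) : n.Prime := by
  classical
  have hfin : FiniteDimensional E F := Module.finite_of_finrank_pos (by rw [hc]; omega)
  obtain ⟨σ, hσ⟩ : ∃ σ : F ≃ₐ[E] F, ∀ u, σ u = s u :=
    ⟨AlgEquiv.ofRingEquiv (f := s.toRingEquiv) (fun e => hfix e e.2), fun u => rfl⟩
  have hσ1 : σ ≠ 1 := by
    intro h
    apply hs
    ext u
    rw [← hσ, h]
    rfl
  have hord : ∀ τ : F ≃ₐ[E] F, τ ≠ 1 → orderOf τ = n := by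
    intro τ hτ
    have h1 : Module.finrank (IntermediateField.fixedField (Subgroup.zpowers τ)) F = orderOf τ := by
      rw [IntermediateField.finrank_fixedField_eq_card, Nat.card_zpowers]
    rcases hsim (IntermediateField.fixedField (Subgroup.zpowers τ)) with h2 | h2
    · rw [h2, IntermediateField.finrank_bot', hc] at h1
      exact h1.symm
    · rw [h2, IntermediateField.finrank_top] at h1
      exact absurd (orderOf_eq_one_iff.1 h1.symm) hτ
  have hn' := hord σ hσ1
  by_contra hnp
  have hr : n.minFac.Prime := Nat.minFac_prime (by omega)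
  have hrn : n.minFac ∣ n := Nat.minFac_dvd n
  have hlt : n.minFac < n := by
    refine lt_of_le_of_ne (Nat.minFac_le (by omega)) ?_
    intro h
    rw [h] at hr
    exact hnp hr
  have hτ : σ ^ n.minFac ≠ 1 := by
    intro h
    have h1 := orderOf_dvd_of_pow_eq_one h
    rw [hn'] at h1
    exact absurd (Nat.le_of_dvd hr.pos h1) (not_le.2 hlt)
  have h1 := hord _ hτ
  rw [orderOf_pow_of_dvd hr.ne_zero (by rw [hn']; exact hrn), hn'] at h1
  have h2 : n / n.minFac < n := Nat.div_lt_self (by omega) hr.one_lt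
  omega

theorem d_kum [IsAlgClosed k] {n : ℕ} (hn : 2 ≤ n) (hnk : (n : k) ≠ 0) {x : F} (hx : Transcendental k x)
    (hc : Module.finrank (IntermediateField.adjoin k {x}) F = n)
    (hsim : ∀ E : IntermediateField (IntermediateField.adjoin k {x}) F, E = ⊥ ∨ E = ⊤)
    (s : F ≃ₐ[k] F) (hs : s ≠ 1) (hsx : s x = x) :
    n.Prime ∧ ∃ (y : F) (f : k[X]), IntermediateField.adjoin k {x, y} = ⊤ ∧ f ≠ 0 ∧ (∀ a : k, f.rootMultiplicity a < n) ∧
      y ^ n = aeval x f ∧ y ∉ IntermediateField.adjoin k {x} := by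
  have hfix : ∀ e ∈ IntermediateField.adjoin k {x}, s e = e := by
    intro e he
    rw [mem_rat hx] at he
    obtain ⟨r, rfl⟩ := he
    exact tau_rat hx s hsx r
  have hp := Kum_prime hn _ hc hsim s hs hfix
  exact ⟨hp, Kum_main hp hnk hx hc s hs hsx⟩

end Pool.Agent.Helper28.HN
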