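import Pool.Agent.Helper28.HN.Mem
import Pool.Agent.Helper28.HN.Grp
import Pool.Agent.Helper28.HN.Kum
import Pool.Agent.Helper28.HN.Gen
import Pool.Agent.Helper28.HN.Bound2
import Pool.Agent.Helper22.HE.Fin

/-!
MP_143e28_ag, project HN, `p = 2`: the upper bound (the analogue of `Upper.lean`, with `upperN2` of `Helper22/HE/Fin.lean` in the place of `upperN` and
`d_bound2` in the place of `d_bound`).
-/

set_option autoImplicit false

namespace Pool.Agent.Helper28.HN

open Polynomial Pool.Agent.Helper28.HA Pool.Agent.Helper54.HZ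

theorem d_upper2 {k F : Type*} [Field k] [IsAlgClosed k] [CharP k 2] [Field F] [Algebra k F]
    {l n Q : ℕ} (hl : Pool.Agent.Helper22.HE.Sp l)
    (hQ : ∀ e v : ℕ, v < n → 2 ^ e ∣ 2 * (903 * l) + 2 * n - 2 - v → 2 ^ e ≤ Q)
    (hbig : n ^ 2 * (1 + 3 * Q + 2 * Q ^ 2) < 903 * l) {x : F} (h : PresD k F 2 n (903 * l) x) :
    Finite (F ≃ₐ[k] F) ∧ Nat.card (F ≃ₐ[k] F) ≤ 4 * (903 * l) + 2 := by
  have hn2 : 2 ≤ n := h.two
  have hQ1 : 1 ≤ Q := by
    have h0 := hQ 0 0 (by omega) (by simp)
    simpa using h0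
  have hgn : (n - 1) ^ 2 < 903 * l := by
    have e1 : (n - 1) ^ 2 ≤ n ^ 2 := Nat.pow_le_pow_left (Nat.sub_le n 1) 2
    have e2 : n ^ 2 * 1 ≤ n ^ 2 * (1 + 3 * Q + 2 * Q ^ 2) := Nat.mul_le_mul_left _ (by omega)
    omega
  have hmem : ∀ s : F ≃ₐ[k] F, s x ∈ IntermediateField.adjoin k {x} := fun s => d_mem hgn h s
  by_cases hker : ∀ s : F ≃ₐ[k] F, s x = x → s = 1
  · obtain ⟨G, hG, hw, hfin⟩ := d_group n h.trans hmem hker
    -- the support of the weight
    have hsupp : (Function.support (ramD n h.trans)).Finite := by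
      by_contra hinf
      have := h.genus
      rw [finsum_of_infinite_support hinf] at this
      omega
    have hcard : 3 ≤ Nat.card (Function.support (ramD n h.trans)) := by
      have e1 := h.genus
      rw [finsum_eq_sum_of_support_subset (ramD n h.trans) (s := hsupp.toFinset) (by simp)] at e1
      have e2 : ∑ P ∈ hsupp.toFinset, ramD n h.trans P ≤ ∑ _P ∈ hsupp.toFinset, (n - 1) :=
        Finset.sum_le_sum (fun P _ => ramD_le n h.trans P)
      rw [Finset.sum_const, smul_eq_mul] at e2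
      have e3 : Nat.card (Function.support (ramD n h.trans)) = hsupp.toFinset.card := by
        rw [Nat.card_coe_set_eq, Set.ncard_eq_toFinset_card _ hsupp]
      by_contra hlt
      have e4 : hsupp.toFinset.card * (n - 1) ≤ 2 * (n - 1) := Nat.mul_le_mul_right _ (by omega)
      have e5 : 10000 < l := hl.2.2.2.2.2.2
      omega
    obtain ⟨hGf, -⟩ := mob_finite G hG (Function.support (ramD n h.trans)) hsupp hcard (by
      intro s hs P hP
      simp only [Function.mem_support] at hP ⊢
      rw [hw s hs P]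
      exact hP)
    obtain ⟨ha, hb⟩ := hfin hGf
    haveI := hGf
    refine ⟨ha, hb.trans (d_bound2 G hG (ramD n h.trans) hw n (903 * l) Q hn2 (fun P => ?_) h.genus
      hQ hbig)⟩
    have := ramD_le n h.trans P
    omega
  · push Not at hker
    obtain ⟨s, hsx, hs1⟩ := hker
    obtain ⟨hnp, y, f, hgen, hf, hm, hy, hyx⟩ := d_kum h.two h.char h.trans h.deg h.simple s hs1 hsx
    have hP := d_gen hnp h hgen hf hm hy hyx
    exact Pool.Agent.Helper22.HE.upperN2 hl hP

end Pool.Agent.Helper28.HN
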