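import Pool.Agent.Helper28.HN.Deg
import Pool.Agent.Helper54.HY.SX

/-!
MP_143e28_ag, project HN: automorphisms preserve `k(x)` if `g > (n - 1) ^ 2` (the analogue of `Helper54/HZ/TMem.lean`: `d_rel`, `d_deg` with
`m = n`: `2 g + 2 n ≤ (2 n - 2) n + 2`, that is `g ≤ (n - 1) ^ 2`).
-/

set_option autoImplicit false

namespace Pool.Agent.Helper28.HN

open Polynomial Pool.Agent.Helper54.HY Pool.Agent.Helper54.HZ

variable {k F : Type*} [Field k] [Field F] [Algebra k F]

private theorem Mem_apply (s : F ≃ₐ[k] F) (x u : F) (Q : k[X][X])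
    (h : Q.eval₂ (aeval x : k[X] →ₐ[k] F).toRingHom u = 0) :
    Q.eval₂ (aeval (s x) : k[X] →ₐ[k] F).toRingHom (s u) = 0 := by
  have h1 := hom_eval₂ Q (aeval x : k[X] →ₐ[k] F).toRingHom (s : F →+* F) u
  rw [h, map_zero] at h1
  have h2 : (s : F →+* F).comp (aeval x : k[X] →ₐ[k] F).toRingHom =
      (aeval (s x) : k[X] →ₐ[k] F).toRingHom := by
    apply RingHom.ext
    intro p
    change s (aeval x p) = aeval (s x) p
    exact (aeval_algHom_apply s x p).symm
  rw [h2] at h1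
  exact h1.symm

private theorem Mem_arith {n g : ℕ} (hn : 2 ≤ n) (hg : (n - 1) ^ 2 < g)
    (h : 2 * g + 2 * n ≤ (2 * n - 2) * n + 2) : False := by
  obtain ⟨m, rfl⟩ : ∃ m, n = m + 1 := ⟨n - 1, by omega⟩
  have h1 : 2 * (m + 1) - 2 = 2 * m := by omega
  rw [h1] at h
  rw [Nat.add_sub_cancel] at hg
  nlinarith

theorem d_mem [IsAlgClosed k] {p n g : ℕ} (hg : (n - 1) ^ 2 < g) {x : F}
    (h : PresD k F p n g x) (s : F ≃ₐ[k] F) : s x ∈ IntermediateField.adjoin k {x} := by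
  by_contra hs
  have hz : ∀ r : RatFunc k, rat h.trans r ≠ s x := fun r hr' => hs ((mem_rat h.trans).2 ⟨r, hr'⟩)
  obtain ⟨Q, hQ, hQn, hQ0⟩ := d_rel h.two h.trans h.deg (s.symm x)
  have h1 : Q.eval₂ (aeval (s x) : k[X] →ₐ[k] F).toRingHom x = 0 := by
    have := Mem_apply s x (s.symm x) Q hQ0
    rwa [AlgEquiv.apply_symm_apply] at this
  have h4 : (Bivariate.swap Q).eval₂ (aeval x : k[X] →ₐ[k] F).toRingHom (s x) = 0 := by
    rw [← aevalAeval_eq, Bivariate.aevalAeval_swap, aevalAeval_eq]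
    exact h1
  have h5 : Bivariate.swap Q ≠ 0 := by
    intro h0
    apply hQ
    have := congrArg Bivariate.swap h0
    rwa [Bivariate.swap_swap_apply, map_zero] at this
  have h6 : ∀ i, ((Bivariate.swap Q).coeff i).natDegree ≤ n := by
    rw [← natDegree_swap_le, Bivariate.swap_swap_apply]
    exact hQn
  exact Mem_arith h.two hg (d_deg h hz (Bivariate.swap Q) h5 h6 h4)

end Pool.Agent.Helper28.HN
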