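import Pool.Agent.Helper28.HN.Defs
import Pool.Agent.Helper54.HZ.Cover

/-!
MP_143e28_ag, project HN: the class of curves in the final statements.
-/

set_option autoImplicit false

namespace Pool.Agent.Helper28.HN

open Pool.Agent.Helper54.HZ

/-- `F` is the function field of a curve of genus `g` over `k` (of characteristic `p`) which is a Galois cover of the line of
prime degree `n ∈ S`, or has a tame indecomposable map of degree `n ∈ S`, `n ≤ N`, `n` not divisible by `p`, to the line -/
def IsPrm (k F : Type*) [Field k] [Field F] [Algebra k F] (p : ℕ) (S : Set ℕ) (N g : ℕ) : Prop :=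
  IsCover k F p S g ∨ ∃ n ∈ S, n ≤ N ∧ ∃ x : F, PresD k F p n g x

/-- the supremum (in `ℕ ∪ {∞}`) of the numbers of automorphisms of these curves -/
noncomputable def muPrm.{u} (k : Type u) [Field k] (p : ℕ) (S : Set ℕ) (N g : ℕ) : ℕ∞ :=
  sSup {n : ℕ∞ | ∃ (F : Type u) (_ : Field F) (_ : Algebra k F),
    IsPrm k F p S N g ∧ n = ENat.card (F ≃ₐ[k] F)}

end Pool.Agent.Helper28.HN
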