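import Pool.Agent.Helper28.HN.Arith
import Pool.Agent.Helper54.HZ.TBound

/-!
MP_143e28_ag, project HN: the bound for the group, points with weights (the analogue of `t_bound` in `Helper54/HZ/TBound.lean`: copy its
proof; `2 g + 4` becomes `2 g + 2 d - 2`; a regular orbit in the support has length `#G ≤ 2 g + 2 d - 2 ≤ 8 g`).
-/

set_option autoImplicit false

namespace Pool.Agent.Helper28.HN

open Pool.Agent.Helper28.HA Pool.Agent.Helper54.HZ

variable {k : Type*} [Field k]

private theorem Bound_sum (G : Subgroup (Equiv.Perm (OnePoint k))) [Finite G]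
    (w : OnePoint k → ℕ) (P : OnePoint k) (h : ∀ s ∈ G, w (s P) = w P) :
    ∑ Q ∈ (card_orb_mul G P).1.toFinset, w Q = w P * Nat.card (orb G P) := by
  have h1 : ∑ Q ∈ (card_orb_mul G P).1.toFinset, w Q =
      ∑ _Q ∈ (card_orb_mul G P).1.toFinset, w P := by
    refine Finset.sum_congr rfl fun Q hQ => ?_
    rw [Set.Finite.mem_toFinset] at hQ
    obtain ⟨s, hs, rfl⟩ := hQ
    rw [h s hs]
  have e1 : ∀ (S : Set (OnePoint k)) (hS : S.Finite), hS.toFinset.card = Nat.card S := by
    intro S hS
    rw [Nat.card_coe_set_eq, Set.ncard_eq_toFinset_card S hS]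
  rw [h1, Finset.sum_const, smul_eq_mul, e1, mul_comm]

theorem d_bound [IsAlgClosed k] (p : ℕ) [Fact p.Prime] (hp : p ≠ 2) [CharP k p]
    (G : Subgroup (Equiv.Perm (OnePoint k))) [Finite G] (hG : MobGroup G) (w : OnePoint k → ℕ)
    (hw : ∀ s ∈ G, ∀ P, w (s P) = w P) (d g Q : ℕ) (hd : 2 ≤ d) (hw2 : ∀ P, w P + 1 ≤ d)
    (hsum : (∑ᶠ P, w P) + 2 = 2 * g + 2 * d)
    (hQ : ∀ e v : ℕ, v < d → p ^ e ∣ 2 * g + 2 * d - 2 - v → p ^ e ≤ Q)
    (hbig : d ^ 2 * (1 + 3 * Q + 2 * Q ^ 2) < g) :
    Nat.card G ≤ 8 * g := by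
  classical
  by_contra hcon
  push Not at hcon
  have hpp : p.Prime := Fact.out
  have hdg : d ^ 2 < g := by
    refine lt_of_le_of_lt ?_ hbig
    exact Nat.le_mul_of_pos_right _ (by positivity)
  have hdd : d ≤ d ^ 2 := Nat.le_self_pow (by norm_num) d
  have hfin : (Function.support w).Finite := by
    by_contra hinf
    rw [finsum_of_infinite_support hinf] at hsum
    omega
  have hsum' : ∀ S : Finset (OnePoint k), Function.support w ⊆ (S : Set (OnePoint k)) →
      (∑ P ∈ S, w P) + 2 = 2 * g + 2 * d := by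
    intro S hS
    rw [← hsum]
    exact congrArg (fun t => t + 2) (finsum_eq_sum_of_support_subset w hS).symm
  have hle : ∀ S : Finset (OnePoint k), (∑ P ∈ S, w P) + 2 ≤ 2 * g + 2 * d := by
    intro S
    rw [← hsum' (S ∪ hfin.toFinset) (by
      rw [Finset.coe_union, Set.Finite.coe_toFinset]
      exact Set.subset_union_right)]
    exact Nat.add_le_add_right (Finset.sum_le_sum_of_subset Finset.subset_union_left) 2
  obtain ⟨R, hR1, hR2, hR3, hR4⟩ := burnside G hG
  choose m hm1 hm2 using fun P => card_stab G hG P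
  have hstab : ∀ P, w P ≠ 0 → 2 ≤ Nat.card (stab G P) := by
    intro P hP
    by_contra hlt
    push Not at hlt
    obtain ⟨hf, hmul⟩ := card_orb_mul G P
    have h5 := Bound_sum G w P fun s hs => hw s hs P
    have h6 := hle (card_orb_mul G P).1.toFinset
    rw [h5] at h6
    have h7 : Nat.card G ≤ Nat.card (orb G P) := by
      rw [← hmul]
      calc Nat.card (orb G P) * Nat.card (stab G P) ≤ Nat.card (orb G P) * 1 :=
            Nat.mul_le_mul_left _ (by omega)
        _ = _ := mul_one _
    have h8 : Nat.card (orb G P) ≤ w P * Nat.card (orb G P) :=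
      Nat.le_mul_of_pos_left _ (Nat.pos_of_ne_zero hP)
    omega
  have hN : (∑ P ∈ R, w P * Nat.card (orb G P)) + 2 = 2 * g + 2 * d := by
    rw [← hsum' (R.biUnion fun P => (card_orb_mul G P).1.toFinset) ?_, Finset.sum_biUnion]
    · exact congrArg (fun t => t + 2)
        (Finset.sum_congr rfl fun P _ => (Bound_sum G w P fun s hs => hw s hs P).symm)
    · intro P hP Q hQ hne
      have := hR2 P hP Q hQ hne
      show Disjoint _ _
      rw [Finset.disjoint_left]
      intro x hx hx'
      rw [Set.Finite.mem_toFinset] at hx hx'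
      exact Set.disjoint_left.1 this hx hx'
    · intro Q hQ
      obtain ⟨P, hP, hQP⟩ := hR3 Q (hstab Q hQ)
      rw [Finset.mem_coe, Finset.mem_biUnion]
      exact ⟨P, hP, by rw [Set.Finite.mem_toFinset]; exact hQP⟩
  have hres := orbit_arithD R p g (Nat.card G) d Q hpp hp
    (fun P => Nat.card (orb G P)) (fun P => Nat.card (uni G P)) m w ?_ ?_ ?_ ?_ ?_ ?_ hR4
    hd (fun P _ => hw2 P) hN hQ hbig
  · omega
  · intro P _
    have : Finite (orb G P) := (card_orb_mul G P).1
    have : Nonempty (orb G P) := ⟨⟨P, B6_mem_orb G P⟩⟩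
    exact Nat.card_pos
  · intro P _
    have := (card_orb_mul G P).2
    rw [hm1 P] at this
    exact this
  · intro P hP
    have := hR1 P hP
    rw [hm1 P] at this
    exact this
  · intro P _
    exact card_uni p G hG P
  · intro P _
    exact hm2 P
  · intro P _
    exact uni_dvd G hG P

end Pool.Agent.Helper28.HN
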