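import Pool.Agent.Helper54.HZ.TDefs

/-!
MP_143e28_ag, project HN (helper28; part 4 of HZ): curves with a tame indecomposable map to the line.  Definitions.
-/

set_option autoImplicit false

namespace Pool.Agent.Helper28.HN

open Polynomial Pool.Agent.Helper54.HY Pool.Agent.Helper54.HZ

variable {k F : Type*} [Field k] [Field F] [Algebra k F]

open Classical in
/-- `n` minus the number of places of `F` above the point `P` of the `x`-line (if `[F : k(x)] = n`, there are at least one and
at most `n` places above `P`): the number of `j` with `1 ≤ j < n` such that there are at most `j` places above `P` -/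
noncomputable def ramD (n : ℕ) {x : F} (hx : Transcendental k x) (P : OnePoint k) : ℕ :=
  ((Finset.Ico 1 n).filter fun j : ℕ => (Above hx P).encard ≤ (j : ℕ∞)).card

/-- a local parameter at the point `P` of the line: `X - a` at `a`, and `1 / X` at `∞` -/
noncomputable def par (P : OnePoint k) : RatFunc k :=
  P.elim (RatFunc.X)⁻¹ (fun a => RatFunc.X - RatFunc.C a)

/-- `F` is the function field of a curve with a map `x` of degree `n ≥ 2` to the line, `n` not divisible by the characteristic `p`, which
is indecomposable (there is no field strictly between `k(x)` and `F`; for instance if `n` is prime) and tame (`p` divides no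
ramification index: the local parameter at the point `P` of the line does not have the valuation of a `p`-th power at a place above
`P`); the genus is `g`, by the Riemann-Hurwitz formula: `2 g + 2 n - 2` is the sum over the points `P` of the line of `n - ` (number of
places above `P`) -/
structure PresD (k F : Type*) [Field k] [Field F] [Algebra k F] (p n g : ℕ) (x : F) : Prop where
  two : 2 ≤ n
  char : (n : k) ≠ 0
  trans : Transcendental k x
  deg : Module.finrank (IntermediateField.adjoin k {x}) F = n
  simple : ∀ E : IntermediateField (IntermediateField.adjoin k {x}) F, E = ⊥ ∨ E = ⊤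
  tame : ∀ (P : OnePoint k), ∀ V ∈ Above trans P, ∀ u : F,
    V.valuation u ^ p ≠ V.valuation (rat trans (par P))
  genus : (∑ᶠ P : OnePoint k, ramD n trans P) + 2 = 2 * g + 2 * n

/-- the norm of `F` over `k(x)` -/
noncomputable def nrm {x : F} (hx : Transcendental k x) (u : F) : RatFunc k :=
  @Algebra.norm (RatFunc k) F _ _ (rat hx).toRingHom.toAlgebra u

/-- the discriminant (up to sign) of the polynomial `P` of degree `n` with root `z` -/
noncomputable def dsc {x : F} (hx : Transcendental k x) (n : ℕ) (P : k[X][X]) (z : F) : RatFunc k :=
  algebraMap k[X] (RatFunc k) P.leadingCoeff ^ (n - 2) *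
    nrm hx ((derivative P).eval₂ (aeval x : k[X] →ₐ[k] F).toRingHom z)

theorem ramD_le (n : ℕ) {x : F} (hx : Transcendental k x) (P : OnePoint k) : ramD n hx P ≤ n - 1 := by
  classical
  unfold ramD
  refine (Finset.card_filter_le _ _).trans ?_
  rw [Nat.card_Ico]

/-- at least `r` places -/
theorem ramD_of_ge (n : ℕ) {x : F} (hx : Transcendental k x) (P : OnePoint k) {r : ℕ} (hr : 1 ≤ r)
    (h : (r : ℕ∞) ≤ (Above hx P).encard) : ramD n hx P ≤ n - r := by
  classical
  unfold ramD
  have h1 : ((Finset.Ico 1 n).filter fun j : ℕ => (Above hx P).encard ≤ (j : ℕ∞)) ⊆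
      Finset.Ico r n := by
    intro j hj
    rw [Finset.mem_filter, Finset.mem_Ico] at hj
    rw [Finset.mem_Ico]
    refine ⟨?_, hj.1.2⟩
    exact_mod_cast h.trans hj.2
  refine (Finset.card_le_card h1).trans ?_
  rw [Nat.card_Ico]

/-- at most one place -/
theorem ramD_one (n : ℕ) {x : F} (hx : Transcendental k x) (P : OnePoint k)
    (h : (Above hx P).encard ≤ 1) : ramD n hx P = n - 1 := by
  classical
  unfold ramD
  rw [Finset.filter_true_of_mem, Nat.card_Ico]
  intro j hj
  rw [Finset.mem_Ico] at hj
  refine h.trans ?_
  exact_mod_cast hj.1

end Pool.Agent.Helper28.HN
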