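import Pool.Agent.Helper28.HN.Defs
import Pool.Agent.Helper54.HZ.Fix

/-!
MP_143e28_ag, project HN: the degree of `F` over `RatFunc k` (embedded by `rat hx`).

`TMin_equiv` in `Helper54/HZ/TMin.lean` (private, copy it): `RatFunc k ≃+* k(x)`, compatible with `rat`; the two vector space structures on `F` agree
along it: `finrank` is the same (`LinearEquiv.finrank_eq` needs the same ring: use `Module.finrank_eq_of_..` / `rank_eq_of_equiv_equiv` /
`Algebra.finrank_eq_of_equiv_equiv`).
-/

set_option autoImplicit false

namespace Pool.Agent.Helper28.HN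

open Polynomial Pool.Agent.Helper54.HY Pool.Agent.Helper54.HZ

variable {k F : Type*} [Field k] [Field F] [Algebra k F]

/-- `RatFunc k` is the field generated by `x` -/
private theorem FinR_equiv {x : F} (hx : Transcendental k x) :
    ∃ e : RatFunc k ≃+* IntermediateField.adjoin k {x}, ∀ r, ((e r : _) : F) = rat hx r := by
  let ρ : RatFunc k →+* IntermediateField.adjoin k {x} :=
    (rat hx).toRingHom.codRestrict (IntermediateField.adjoin k {x}).toSubfield.toSubring
      (fun r => (mem_rat hx).2 ⟨r, rfl⟩)
  have hb : Function.Bijective ρ := by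
    refine ⟨ρ.injective, ?_⟩
    rintro ⟨u, hu⟩
    obtain ⟨r, hr⟩ := (mem_rat hx).1 hu
    exact ⟨r, Subtype.ext hr⟩
  exact ⟨RingEquiv.ofBijective ρ hb, fun r => rfl⟩

theorem finrank_rat {x : F} (hx : Transcendental k x) :
    @Module.finrank (RatFunc k) F _ _ ((rat hx).toRingHom.toAlgebra).toModule =
      Module.finrank (IntermediateField.adjoin k {x}) F := by
  obtain ⟨e, he⟩ := FinR_equiv hx
  letI : Algebra (RatFunc k) F := (rat hx).toRingHom.toAlgebra
  refine Algebra.finrank_eq_of_equiv_equiv e (RingEquiv.refl F) ?_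
  exact RingHom.ext fun r => he r

end Pool.Agent.Helper28.HN
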