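import Mathlib

/-!
MP_143e28_ag, project HN: the norm of the derivative under `z' = 1 / (z - c)` (pure algebra, Mathlib only).

`lc = P.leadingCoeff`, `b = P.eval c ≠ 0`.  `chi` is the minimal polynomial of `z'`: `b chi (Z) = Z ^ n P (c + 1 / Z)` (both sides have degree `≤ n` and the root
`z'` of degree `n` over `K`; leading coefficient `b`).  Derivative at `z'`: `b chi' (z') = n z' ^ (n-1) P (z) - z' ^ (n-2) P' (z) = - z' ^ (n-2) P' (z)`.
Norms (multiplicative, `N (a) = a ^ n` for `a ∈ K`: `Algebra.norm_algebraMap`): `b ^ n N (chi' (z')) = (-1) ^ n N (z') ^ (n-2) N (P' (z))`, and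
`N (z - c) = (-1) ^ n b / lc` (`Algebra.norm_eq_..minpoly..`: `PowerBasis.norm_gen_eq_coeff_zero_minpoly`; the minimal polynomial of `z - c` is `P (Z + c) / lc`).
So `lc ^ (n-2) N (P' (z)) = b ^ (2 n - 2) N (chi' (z'))`, the sign is `(-1) ^ (n + n (n-2)) = 1`.
A direct way for `Q = Z ^ n P (c + 1/Z)`: `(P.comp (X + C c)).reverse` if `b ≠ 0` (`Polynomial.reverse`, `reflect`), or `∑ a_i (c Z + 1) ^ i Z ^ (n - i)`.
-/

set_option autoImplicit false

namespace Pool.Agent.Helper28.HN

open Polynomial

private lemma flipN_small {K F : Type*} [Field K] [Field F] [Algebra K F] {n : ℕ} {P : K[X]}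
    (hP : P.natDegree = n) (hirr : Irreducible P) {z : F} (hz : aeval z P = 0) (g : K[X])
    (hg : aeval z g = 0) (hd : g.natDegree < n) : g = 0 := by
  by_contra h0
  have hm := minpoly.eq_of_irreducible hirr hz
  have h1 : minpoly K z ∣ g := minpoly.dvd K z hg
  have h2 := Polynomial.natDegree_le_of_dvd h1 h0
  have h3 : (minpoly K z).natDegree = n := by
    rw [← hm, natDegree_mul_C (inv_ne_zero (leadingCoeff_ne_zero.2 hirr.ne_zero)), hP]
  omega

private lemma flipN_uniq {K F : Type*} [Field K] [Field F] [Algebra K F] {n : ℕ} (hn : 0 < n)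
    {y : F} (hsmall : ∀ g : K[X], aeval y g = 0 → g.natDegree < n → g = 0) {p q : K[X]}
    (hp : p.Monic) (hq : q.Monic) (hpd : p.natDegree = n) (hqd : q.natDegree = n)
    (hpy : aeval y p = 0) (hqy : aeval y q = 0) : p = q := by
  have h1 : (p - q).natDegree < n := by
    by_cases h0 : p - q = 0
    · rw [h0, natDegree_zero]
      exact hn
    · have h2 : (p - q).degree < p.degree := by
        refine degree_sub_lt ?_ hp.ne_zero ?_
        · rw [degree_eq_natDegree hp.ne_zero, degree_eq_natDegree hq.ne_zero, hpd, hqd]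
        · rw [hp.leadingCoeff, hq.leadingCoeff]
      rw [← hpd]
      exact natDegree_lt_natDegree h0 h2
  have h2 := hsmall (p - q) (by rw [map_sub, hpy, hqy, sub_zero]) h1
  exact sub_eq_zero.1 h2

private lemma flipN_norm {K F : Type*} [Field K] [Field F] [Algebra K F] [FiniteDimensional K F]
    {n : ℕ} (hn : 0 < n) (hF : Module.finrank K F = n)
    {y : F} (hsmall : ∀ g : K[X], aeval y g = 0 → g.natDegree < n → g = 0) {p : K[X]}
    (hp : p.Monic) (hpd : p.natDegree = n) (hpy : aeval y p = 0) :
    Algebra.norm K y = (-1) ^ n * p.coeff 0 := by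
  have h1 : aeval y (LinearMap.charpoly (Algebra.lmul K F y)) = 0 := by
    have h2 := LinearMap.aeval_self_charpoly (Algebra.lmul K F y)
    rw [Polynomial.aeval_algHom_apply] at h2
    have h3 := congrArg (fun φ => φ 1) h2
    simpa using h3
  have h2 : p = LinearMap.charpoly (Algebra.lmul K F y) :=
    flipN_uniq hn hsmall hp (LinearMap.charpoly_monic _) hpd
      (by rw [LinearMap.charpoly_natDegree, hF]) hpy h1
  rw [Algebra.norm_apply, LinearMap.det_eq_sign_charpoly_coeff, hF, h2]

theorem flip_norm {K F : Type*} [Field K] [Field F] [Algebra K F] {n : ℕ} (hn : 2 ≤ n)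
    (hF : Module.finrank K F = n) {P : K[X]} (hP : P.natDegree = n) (hirr : Irreducible P) {z : F}
    (hz : aeval z P = 0) (c : K) {chi : K[X]} (hchi : chi.Monic) (hchid : chi.natDegree = n)
    (hchiz : aeval (z - algebraMap K F c)⁻¹ chi = 0) :
    P.leadingCoeff ^ (n - 2) * Algebra.norm K (aeval z (derivative P)) =
      P.eval c ^ (2 * n - 2) *
        Algebra.norm K (aeval (z - algebraMap K F c)⁻¹ (derivative chi)) := by
  classical
  haveI : FiniteDimensional K F := FiniteDimensional.of_finrank_pos (by omega)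
  have hP0 : P ≠ 0 := hirr.ne_zero
  have hlc : P.leadingCoeff ≠ 0 := leadingCoeff_ne_zero.2 hP0
  have hsz := flipN_small hP hirr hz
  set y : F := z - algebraMap K F c with hy
  -- `y ≠ 0`
  have hy0 : y ≠ 0 := by
    intro h
    have h1 : aeval z (X - C c : K[X]) = 0 := by
      simp only [map_sub, aeval_X, aeval_C]
      exact h
    have h2 := hsz (X - C c) h1 (by rw [natDegree_X_sub_C]; omega)
    exact X_sub_C_ne_zero c h2
  -- no small polynomials at `y`
  have hsy : ∀ g : K[X], aeval y g = 0 → g.natDegree < n → g = 0 := by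
    intro g hg hd
    have h1 : aeval z (g.comp (X - C c)) = 0 := by
      rw [aeval_comp]
      simp only [map_sub, aeval_X, aeval_C]
      exact hg
    have h2 := hsz (g.comp (X - C c)) h1 (by
      rw [natDegree_comp, natDegree_X_sub_C, mul_one]
      exact hd)
    have h3 : (g.comp (X - C c)).comp (X + C c) = g := by
      rw [comp_assoc]
      simp
    rw [← h3, h2, zero_comp]
  set w : F := y⁻¹ with hw
  have hw0 : w ≠ 0 := inv_ne_zero hy0
  have hyw : y * w = 1 := mul_inv_cancel₀ hy0
  have hsw : ∀ g : K[X], aeval w g = 0 → g.natDegree < n → g = 0 := by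
    intro g hg hd
    letI : Invertible w := invertibleOfNonzero hw0
    have h1 : eval₂ (algebraMap K F) (⅟w) (reverse g) = 0 := by
      rw [eval₂_reverse_eq_zero_iff]
      exact hg
    have h2 : (⅟w : F) = y := by
      rw [invOf_eq_inv, hw, inv_inv]
    rw [h2] at h1
    have h3 := hsy (reverse g) h1 ((reverse_natDegree_le g).trans_lt hd)
    exact reverse_eq_zero.1 h3
  -- the translated polynomial
  set T : K[X] := P.comp (X + C c) with hT
  have hXc : (X + C c : K[X]).natDegree = 1 := natDegree_X_add_C c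
  have hTd : T.natDegree = n := by
    rw [hT, natDegree_comp, hXc, mul_one, hP]
  have hTlc : T.leadingCoeff = P.leadingCoeff := by
    rw [hT, leadingCoeff_comp (by rw [hXc]; exact one_ne_zero), leadingCoeff_X_add_C, one_pow,
      mul_one]
  have hT0 : T.coeff 0 = P.eval c := by
    rw [coeff_zero_eq_eval_zero, hT, eval_comp]
    simp
  have hyT : aeval y T = 0 := by
    rw [hT, aeval_comp]
    simp only [map_add, aeval_X, aeval_C, hy, sub_add_cancel]
    exact hz
  have hT00 : T ≠ 0 := by
    intro h
    rw [h, natDegree_zero] at hTd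
    omega
  have hb : P.eval c ≠ 0 := by
    intro h
    -- otherwise `X` divides `T`, and `T / X` is a small polynomial at `y`
    have h1 : T = X * divX T := by
      have := divX_mul_X_add T
      rw [hT0, h, C_0, add_zero] at this
      rw [mul_comm]
      exact this.symm
    have h2 : aeval y (divX T) = 0 := by
      have h3 := hyT
      rw [h1, map_mul, aeval_X] at h3
      exact (mul_eq_zero.1 h3).resolve_left hy0
    have h3 := hsy (divX T) h2 (by
      rw [natDegree_divX_eq_natDegree_tsub_one, hTd]
      omega)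
    rw [h3, mul_zero] at h1
    exact hT00 h1
  -- the norm of `y`
  have hNy : Algebra.norm K y = (-1) ^ n * (P.leadingCoeff⁻¹ * P.eval c) := by
    have h1 : (C P.leadingCoeff⁻¹ * T).Monic := by
      rw [← hTlc]
      have := monic_mul_leadingCoeff_inv hT00
      rwa [mul_comm] at this
    have h2 := flipN_norm (by omega) hF hsy h1
      (by rw [natDegree_C_mul (inv_ne_zero hlc), hTd]) (by rw [map_mul, hyT, mul_zero])
    rw [h2, coeff_C_mul, hT0]
  -- the reversed polynomial
  set Q : K[X] := ∑ i ∈ Finset.range (n + 1), C (T.coeff i) * X ^ (n - i) with hQ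
  have hTs : T = ∑ i ∈ Finset.range (n + 1), C (T.coeff i) * X ^ i := by
    have := as_sum_range_C_mul_X_pow T
    rwa [hTd] at this
  have hsum0 : ∑ i ∈ Finset.range (n + 1), algebraMap K F (T.coeff i) * y ^ i = 0 := by
    have h1 := hyT
    rw [hTs] at h1
    simpa [map_sum] using h1
  have hQw : aeval w Q = 0 := by
    have h1 : y ^ n * aeval w Q = 0 := by
      rw [← hsum0, hQ, map_sum, Finset.mul_sum]
      refine Finset.sum_congr rfl fun i hi => ?_
      have hi' : i ≤ n := Nat.lt_succ_iff.1 (Finset.mem_range.1 hi)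
      simp only [map_mul, map_pow, aeval_C, aeval_X]
      have h2 : y ^ n = y ^ i * y ^ (n - i) := by
        rw [← pow_add]
        congr 1
        omega
      rw [h2]
      have h3 : y ^ (n - i) * w ^ (n - i) = 1 := by
        rw [← mul_pow, hyw, one_pow]
      linear_combination (algebraMap K F (T.coeff i) * y ^ i) * h3
    exact (mul_eq_zero.1 h1).resolve_left (pow_ne_zero _ hy0)
  have hQn : Q.coeff n = P.eval c := by
    rw [hQ, finset_sum_coeff, Finset.sum_eq_single 0]
    · rw [Nat.sub_zero, coeff_C_mul, coeff_X_pow_self, mul_one, hT0]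
    · intro i hi hi0
      have hi' : i ≤ n := Nat.lt_succ_iff.1 (Finset.mem_range.1 hi)
      rw [coeff_C_mul, coeff_X_pow, if_neg (by omega), mul_zero]
    · intro h
      exact absurd (Finset.mem_range.2 (by omega)) h
  have hQd : Q.natDegree ≤ n := by
    rw [hQ]
    refine natDegree_sum_le_of_forall_le _ _ fun i _ => ?_
    refine (natDegree_C_mul_X_pow_le _ _).trans (Nat.sub_le _ _)
  have hQd' : Q.natDegree = n := by
    refine le_antisymm hQd (le_natDegree_of_ne_zero ?_)
    rw [hQn]
    exact hb
  have hQlc : Q.leadingCoeff = P.eval c := by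
    rw [leadingCoeff, hQd', hQn]
  have hQ0 : Q ≠ 0 := by
    intro h
    rw [h, coeff_zero] at hQn
    exact hb hQn.symm
  have hQchi : Q = C (P.eval c) * chi := by
    have h1 : (C (P.eval c)⁻¹ * Q).Monic := by
      rw [← hQlc]
      have := monic_mul_leadingCoeff_inv hQ0
      rwa [mul_comm] at this
    have h2 : C (P.eval c)⁻¹ * Q = chi :=
      flipN_uniq (by omega) hsw h1 hchi
        (by rw [natDegree_C_mul (inv_ne_zero hb), hQd']) hchid
        (by rw [map_mul, hQw, mul_zero]) hchiz
    rw [← h2, ← mul_assoc, ← C_mul, mul_inv_cancel₀ hb, C_1, one_mul]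
  -- the derivative
  have hder : y ^ (n - 1) * aeval w (derivative Q) + y * aeval y (derivative T) = 0 := by
    have h1 : aeval w (derivative Q) = ∑ i ∈ Finset.range (n + 1),
        algebraMap K F (T.coeff i) * (((n - i : ℕ) : F) * w ^ (n - i - 1)) := by
      rw [hQ, derivative_sum, map_sum]
      refine Finset.sum_congr rfl fun i _ => ?_
      rw [derivative_C_mul_X_pow]
      simp only [map_mul, map_pow, aeval_C, aeval_X, map_natCast]
      ring
    have h2 : aeval y (derivative T) = ∑ i ∈ Finset.range (n + 1),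
        algebraMap K F (T.coeff i) * ((i : F) * y ^ (i - 1)) := by
      conv_lhs => rw [hTs]
      rw [derivative_sum, map_sum]
      refine Finset.sum_congr rfl fun i _ => ?_
      rw [derivative_C_mul_X_pow]
      simp only [map_mul, map_pow, aeval_C, aeval_X, map_natCast]
      ring
    rw [h1, h2, Finset.mul_sum, Finset.mul_sum, ← Finset.sum_add_distrib]
    have h3 : (n : F) * ∑ i ∈ Finset.range (n + 1), algebraMap K F (T.coeff i) * y ^ i = 0 := by
      rw [hsum0, mul_zero]
    rw [← h3, Finset.mul_sum]
    refine Finset.sum_congr rfl fun i hi => ?_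
    have hi' : i ≤ n := Nat.lt_succ_iff.1 (Finset.mem_range.1 hi)
    have e1 : ((n - i : ℕ) : F) * (y ^ (n - 1) * w ^ (n - i - 1)) = ((n - i : ℕ) : F) * y ^ i := by
      rcases hi'.eq_or_lt with h | h
      · rw [h]
        simp
      · congr 1
        have h4 : y ^ (n - 1) = y ^ i * y ^ (n - i - 1) := by
          rw [← pow_add]
          congr 1
          omega
        have h5 : y ^ (n - i - 1) * w ^ (n - i - 1) = 1 := by
          rw [← mul_pow, hyw, one_pow]
        rw [h4, mul_assoc, h5, mul_one]
    have e2 : (i : F) * (y * y ^ (i - 1)) = (i : F) * y ^ i := by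
      rcases Nat.eq_zero_or_pos i with h | h
      · rw [h]
        simp
      · congr 1
        rw [← pow_succ']
        congr 1
        omega
    have e3 : ((n - i : ℕ) : F) + (i : F) = (n : F) := by
      rw [← Nat.cast_add]
      congr 1
      omega
    linear_combination (algebraMap K F (T.coeff i)) * e1 + (algebraMap K F (T.coeff i)) * e2 +
      (algebraMap K F (T.coeff i) * y ^ i) * e3
  have hTz : aeval y (derivative T) = aeval z (derivative P) := by
    rw [hT, derivative_comp]
    simp only [derivative_add, derivative_X, derivative_C, add_zero, one_mul]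
    rw [aeval_comp]
    simp only [map_add, aeval_X, aeval_C, hy, sub_add_cancel]
  obtain ⟨m, rfl⟩ : ∃ m, n = m + 2 := ⟨n - 2, by omega⟩
  have hmain : algebraMap K F (P.eval c) * aeval w (derivative chi) * y ^ m =
      - aeval z (derivative P) := by
    have h1 : aeval w (derivative Q) = algebraMap K F (P.eval c) * aeval w (derivative chi) := by
      rw [hQchi, derivative_C_mul, map_mul, aeval_C]
    rw [h1, hTz] at hder
    have h2 : y * (algebraMap K F (P.eval c) * aeval w (derivative chi) * y ^ m +
        aeval z (derivative P)) = 0 := by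
      have e : m + 2 - 1 = m + 1 := by omega
      rw [e] at hder
      linear_combination hder
    have h3 := (mul_eq_zero.1 h2).resolve_left hy0
    exact eq_neg_of_add_eq_zero_left h3
  have hN := congrArg (Algebra.norm K) hmain
  have hneg : Algebra.norm K (- aeval z (derivative P)) =
      (-1) ^ (m + 2) * Algebra.norm K (aeval z (derivative P)) := by
    have h1 : - aeval z (derivative P) = algebraMap K F (-1) * aeval z (derivative P) := by
      rw [map_neg, map_one]
      ring
    rw [h1, map_mul, Algebra.norm_algebraMap, hF]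
  rw [map_mul, map_mul, map_pow, Algebra.norm_algebraMap, hF, hNy, hneg] at hN
  have hsign : ((-1 : K) ^ (m + 2)) * ((-1) ^ (m + 2)) ^ m = 1 := by
    rw [← pow_mul, ← pow_add]
    have : Even (m + 2 + (m + 2) * m) := by
      have h1 : m + 2 + (m + 2) * m = (m + 1) * (m + 1 + 1) := by ring
      rw [h1]
      exact Nat.even_mul_succ_self (m + 1)
    exact this.neg_one_pow
  have hsq : ((-1 : K) ^ (m + 2)) * ((-1) ^ (m + 2)) = 1 := by
    rw [← mul_pow]
    norm_num
  have e1 : m + 2 - 2 = m := by omega
  have e2 : 2 * (m + 2) - 2 = (m + 2) + m := by omega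
  rw [e1, e2, pow_add]
  have hl : P.leadingCoeff ^ m * (P.leadingCoeff⁻¹) ^ m = 1 := by
    rw [← mul_pow, mul_inv_cancel₀ hlc, one_pow]
  rw [mul_pow, mul_pow] at hN
  generalize Algebra.norm K (aeval z (derivative P)) = NP at hN ⊢
  generalize Algebra.norm K (aeval w (derivative chi)) = NC at hN ⊢
  generalize P.leadingCoeff = l at hN hl ⊢
  generalize P.eval c = b at hN ⊢
  generalize ((-1 : K) ^ (m + 2)) = ep at hN hsign hsq ⊢
  generalize hl2 : l⁻¹ ^ m = li at hN hl ⊢
  linear_combination (-(l ^ m) * ep) * hN - (l ^ m * NP) * hsq +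
    (b ^ (m + 2) * NC * b ^ m * (l ^ m * li)) * hsign + (b ^ (m + 2) * NC * b ^ m) * hl

/-- the polynomial `Q = Z ^ n P (c + 1 / Z)` over `A ⊇ k` -/
theorem flip_polyN {k A : Type*} [Field k] [CommRing A] [Algebra k A] {n : ℕ} (P : A[X]) (hP : P.natDegree ≤ n)
    (c : k) : ∃ Q : A[X], Q.natDegree ≤ n ∧ Q.coeff n = P.eval (algebraMap k A c) ∧
      (∀ i, Q.coeff i ∈ Submodule.span k (Set.range P.coeff)) ∧
      ∀ (F : Type*) [Field F] (φ : A →+* F) (z : F), z ≠ φ (algebraMap k A c) → P.eval₂ φ z = 0 →
        Q.eval₂ φ (z - φ (algebraMap k A c))⁻¹ = 0 := by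
  classical
  have hPs : P = ∑ i ∈ Finset.range (n + 1), C (P.coeff i) * X ^ i :=
    as_sum_range_C_mul_X_pow' P (Nat.lt_succ_of_le hP)
  refine ⟨∑ i ∈ Finset.range (n + 1), C (P.coeff i) *
    ((C c * X + 1) ^ i * X ^ (n - i) : k[X]).map (algebraMap k A), ?_, ?_, ?_, ?_⟩
  · refine natDegree_sum_le_of_forall_le _ _ fun i hi => ?_
    have hi' : i ≤ n := Nat.lt_succ_iff.1 (Finset.mem_range.1 hi)
    refine (natDegree_C_mul_le _ _).trans (natDegree_map_le.trans ?_)
    refine natDegree_mul_le.trans ?_
    have h1 : ((C c * X + 1 : k[X]) ^ i).natDegree ≤ i := by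
      refine natDegree_pow_le.trans ?_
      have h2 : (C c * X + 1 : k[X]).natDegree ≤ 1 := by
        refine (natDegree_add_le _ _).trans ?_
        rw [natDegree_one]
        exact max_le ((natDegree_C_mul_le c X).trans natDegree_X_le) (Nat.zero_le _)
      calc i * (C c * X + 1 : k[X]).natDegree ≤ i * 1 := Nat.mul_le_mul_left _ h2
        _ = i := mul_one _
    have h2 : (X ^ (n - i) : k[X]).natDegree ≤ n - i := natDegree_X_pow_le _
    omega
  · rw [finset_sum_coeff]
    conv_rhs => rw [hPs]
    rw [eval_finset_sum]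
    refine Finset.sum_congr rfl fun i hi => ?_
    have hi' : i ≤ n := Nat.lt_succ_iff.1 (Finset.mem_range.1 hi)
    rw [coeff_C_mul, coeff_map, eval_mul, eval_C, eval_pow, eval_X, ← map_pow]
    congr 2
    have h1 : ((C c * X + 1 : k[X]) ^ i * X ^ (n - i)).coeff n = ((C c * X + 1 : k[X]) ^ i).coeff i := by
      have h2 : n = i + (n - i) := by omega
      conv_lhs => rw [h2]
      rw [show i + (n - i) - i = n - i by omega]
      exact coeff_mul_X_pow _ _ _
    rw [h1]
    have h2 : (C c * X + 1 : k[X]).natDegree ≤ 1 := by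
      refine (natDegree_add_le _ _).trans ?_
      rw [natDegree_one]
      exact max_le ((natDegree_C_mul_le c X).trans natDegree_X_le) (Nat.zero_le _)
    have h3 := coeff_pow_of_natDegree_le (m := i) h2
    rw [mul_one] at h3
    rw [h3]
    simp [coeff_one]
  · intro j
    rw [finset_sum_coeff]
    refine Submodule.sum_mem _ fun i _ => ?_
    rw [coeff_C_mul, coeff_map, mul_comm, ← Algebra.smul_def]
    exact Submodule.smul_mem _ _ (Submodule.subset_span ⟨i, rfl⟩)
  · intro F _ φ z hz hPz
    set w : F := (z - φ (algebraMap k A c))⁻¹ with hw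
    have hz0 : z - φ (algebraMap k A c) ≠ 0 := sub_ne_zero.2 hz
    have hzw : (z - φ (algebraMap k A c)) * w = 1 := mul_inv_cancel₀ hz0
    have h1 : eval₂ φ z P = ∑ i ∈ Finset.range (n + 1), φ (P.coeff i) * z ^ i := by
      conv_lhs => rw [hPs]
      rw [eval₂_finset_sum]
      simp
    rw [eval₂_finset_sum]
    have h2 : ∑ i ∈ Finset.range (n + 1), eval₂ φ w (C (P.coeff i) *
        ((C c * X + 1) ^ i * X ^ (n - i) : k[X]).map (algebraMap k A)) =
        w ^ n * ∑ i ∈ Finset.range (n + 1), φ (P.coeff i) * z ^ i := by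
      rw [Finset.mul_sum]
      refine Finset.sum_congr rfl fun i hi => ?_
      have hi' : i ≤ n := Nat.lt_succ_iff.1 (Finset.mem_range.1 hi)
      simp only [Polynomial.map_mul, Polynomial.map_pow, Polynomial.map_add, Polynomial.map_one,
        map_C, map_X, eval₂_mul, eval₂_pow, eval₂_add, eval₂_one, eval₂_C, eval₂_X]
      have h3 : φ (algebraMap k A c) * w + 1 = z * w := by
        linear_combination - hzw
      rw [h3, mul_pow]
      have h4 : w ^ n = w ^ i * w ^ (n - i) := by
        rw [← pow_add]
        congr 1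
        omega
      rw [h4]
      ring
    rw [h2, ← h1, hPz, mul_zero]

end Pool.Agent.Helper28.HN
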