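import Pool.Agent.Helper28.HN.Det
import Pool.Agent.Helper28.HN.Defs
import Pool.Agent.Helper54.HZ.Ord
import Pool.Agent.Helper54.HZ.Val

/-!
MP_143e28_ag, project HN: the norm of `chi'(z)` at a point of the line.

Let `v` be the valuation of `exists_val` at `P` and `A = v.valuationSubring` (or `v.integer`), a discrete valuation ring with the uniformizer
`pi = par P` (`v pi = exp (-1)`); every `r ∈ A` is a constant plus a multiple of `pi` (residues: for `r` with `0 ≤ ordP P r` there is
`c ∈ k` with `r = c` or `1 ≤ ordP P (r - c)`: `TGen_res` in `TGen.lean`, `ASTame_res` in `ASTame.lean`).  `chi` comes from a monic polynomial over `A`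
(`hint`); let `chibar ∈ k[Z]` be its reduction, `S` = the set of its roots, `t = ∏_(ρ ∈ S) (Z - ρ)`, `h = chibar / t`: `chibar' = h * s` (each root of multiplicity `m` of
`chibar` is a root of multiplicity at least `m - 1` of `chibar'`, also in characteristic `p`: `Polynomial.rootMultiplicity_sub_one_le_derivative_rootMultiplicity`).
`norm_dvd` over `A`: `pi ^ (n - #S)` divides the norm of `chi'` in `AdjoinRoot chi` over `A`, which is the norm of `chi'(z)` of `F` over `K = RatFunc k`
(`F = K(z)` by the degree; `Algebra.norm_localization`, or both are the determinant of the same matrix in the power basis: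
`Algebra.norm_eq_matrix_det`, `AdjoinRoot.powerBasis'`, or both are resultants).
-/

set_option autoImplicit false

namespace Pool.Agent.Helper28.HN

open Polynomial Pool.Agent.Helper54.HY Pool.Agent.Helper54.HZ

variable {k : Type*} [Field k]

/-- the value of a rational function of order zero -/
private theorem LocN_res (P : OnePoint k) {r : RatFunc k} (hr : r ≠ 0) (h : ordP P r = 0) :
    ∃ l : k, r - algebraMap k[X] (RatFunc k) (C l) = 0 ∨
      0 < ordP P (r - algebraMap k[X] (RatFunc k) (C l)) := by
  have hn := RatFunc.num_ne_zero hr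
  have hd := RatFunc.denom_ne_zero r
  have hd' : algebraMap k[X] (RatFunc k) r.denom ≠ 0 := RatFunc.algebraMap_ne_zero hd
  have key : ∀ l : k, r - algebraMap k[X] (RatFunc k) (C l) =
      algebraMap k[X] (RatFunc k) (r.num - C l * r.denom) /
        algebraMap k[X] (RatFunc k) r.denom := by
    intro l
    rw [map_sub, map_mul, sub_div, mul_div_cancel_right₀ _ hd', RatFunc.num_div_denom]
  induction P using OnePoint.rec with
  | infty =>
    rw [ordP_infty] at h
    have hdeg : r.num.natDegree = r.denom.natDegree := by omega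
    have hln : r.num.leadingCoeff ≠ 0 := leadingCoeff_ne_zero.2 hn
    have hld : r.denom.leadingCoeff ≠ 0 := leadingCoeff_ne_zero.2 hd
    refine ⟨r.num.leadingCoeff / r.denom.leadingCoeff, ?_⟩
    by_cases h0 : r.num - C (r.num.leadingCoeff / r.denom.leadingCoeff) * r.denom = 0
    · left
      rw [key, h0, map_zero, zero_div]
    · right
      rw [key, Ord_div _ h0 hd, Ord_v_infty, Ord_v_infty]
      have hc : r.num.leadingCoeff / r.denom.leadingCoeff ≠ 0 := div_ne_zero hln hld
      have h1 : (r.num - C (r.num.leadingCoeff / r.denom.leadingCoeff) * r.denom).degree <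
          r.num.degree := by
        apply degree_sub_lt_left
        · rw [degree_C_mul hc, degree_eq_natDegree hn, degree_eq_natDegree hd, hdeg]
        · exact hn
        · rw [leadingCoeff_mul, leadingCoeff_C, div_mul_cancel₀ _ hld]
      have h2 := natDegree_lt_natDegree h0 h1
      omega
  | coe a =>
    rw [ordP_coe] at h
    have hda : r.denom.eval a ≠ 0 := by
      intro h0
      have h1 : 0 < r.denom.rootMultiplicity a := (rootMultiplicity_pos hd).2 h0
      have h2 : 0 < r.num.rootMultiplicity a := by omega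
      have h3 : r.num.eval a = 0 := (rootMultiplicity_pos hn).1 h2
      obtain ⟨u, v, huv⟩ := RatFunc.isCoprime_num_denom r
      have h4 := congrArg (Polynomial.eval a) huv
      rw [eval_add, eval_mul, eval_mul, h0, h3, mul_zero, mul_zero, add_zero, eval_one] at h4
      exact zero_ne_one h4
    refine ⟨r.num.eval a / r.denom.eval a, ?_⟩
    by_cases h0 : r.num - C (r.num.eval a / r.denom.eval a) * r.denom = 0
    · left
      rw [key, h0, map_zero, zero_div]
    · right
      rw [key, Ord_div _ h0 hd, Ord_v_coe, Ord_v_coe]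
      have h1 : 0 < (r.num - C (r.num.eval a / r.denom.eval a) * r.denom).rootMultiplicity a := by
        rw [rootMultiplicity_pos h0, IsRoot.def, eval_sub, eval_mul, eval_C,
          div_mul_cancel₀ _ hda, sub_self]
      have h2 : r.denom.rootMultiplicity a = 0 := rootMultiplicity_eq_zero hda
      rw [h2]
      simpa using h1

/-- the basis of `AdjoinRoot` -/
private theorem LocN_basis {R : Type*} [CommRing R] {q : R[X]} (hq : q.Monic)
    (i : Fin q.natDegree) :
    AdjoinRoot.powerBasisAux' hq i = AdjoinRoot.mk q (X ^ (i : ℕ)) := by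
  have h1 := (AdjoinRoot.powerBasis' hq).basis_eq_pow i
  rw [map_pow, AdjoinRoot.mk_X]
  exact h1

/-- the norm of `AdjoinRoot` and ring homomorphisms -/
private theorem LocN_norm {A K : Type*} [CommRing A] [Nontrivial A] [Field K] (f : A →+* K)
    {g : A[X]} (hg : g.Monic) (u : A[X]) :
    f (Algebra.norm A (AdjoinRoot.mk g u)) =
      Algebra.norm K (AdjoinRoot.mk (g.map f) (u.map f)) := by
  classical
  have hd : (g.map f).natDegree = g.natDegree := hg.natDegree_map f
  rw [Algebra.norm_eq_matrix_det (AdjoinRoot.powerBasisAux' hg),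
    Algebra.norm_eq_matrix_det ((AdjoinRoot.powerBasisAux' (hg.map f)).reindex (finCongr hd)),
    RingHom.map_det]
  congr 1
  ext i j
  rw [RingHom.mapMatrix_apply, Matrix.map_apply, Algebra.leftMulMatrix_eq_repr_mul,
    Algebra.leftMulMatrix_eq_repr_mul, Module.Basis.repr_reindex_apply, Module.Basis.reindex_apply,
    LocN_basis hg, LocN_basis (hg.map f), ← map_mul, ← map_mul,
    AdjoinRoot.powerBasisAux'_repr_apply_to_fun,
    AdjoinRoot.powerBasisAux'_repr_apply_to_fun, AdjoinRoot.modByMonicHom_mk,
    AdjoinRoot.modByMonicHom_mk]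
  have h2 : (u.map f * X ^ (((finCongr hd).symm j : Fin (g.map f).natDegree) : ℕ)) =
      (u * X ^ (j : ℕ)).map f := by
    rw [Polynomial.map_mul, Polynomial.map_pow, map_X]
    rfl
  rw [h2, ← map_modByMonic f hg, coeff_map]
  rfl

/-- the radical of a polynomial over an algebraically closed field -/
private theorem LocN_rad [IsAlgClosed k] {g : k[X]} (hg : g.Monic) :
    ∃ (S : Finset k) (h s : k[X]), g = h * ∏ ρ ∈ S, (X - C ρ) ∧ derivative g = h * s ∧
      (∀ ρ ∈ S, g.eval ρ = 0) ∧ (1 ≤ g.natDegree → S.Nonempty) ∧ S.card ≤ g.natDegree := by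
  classical
  have hsp : g = ∏ ρ ∈ g.roots.toFinset, (X - C ρ) ^ g.roots.count ρ := by
    rw [← Finset.prod_multiset_map_count]
    exact (IsAlgClosed.splits g).eq_prod_roots_of_monic hg
  have hcount : ∀ ρ ∈ g.roots.toFinset, 1 ≤ g.roots.count ρ := by
    intro ρ hρ
    exact Multiset.count_pos.2 (Multiset.mem_toFinset.1 hρ)
  have hdvd : (∏ ρ ∈ g.roots.toFinset, (X - C ρ) ^ (g.roots.count ρ - 1)) ∣ derivative g := by
    refine Finset.prod_dvd_of_coprime ?_ ?_
    · intro ρ _ ρ' _ hne
      exact (isCoprime_X_sub_C_of_isUnit_sub (sub_ne_zero.2 hne).isUnit).pow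
    · intro ρ hρ
      apply pow_sub_one_dvd_derivative_of_pow_dvd
      rw [count_roots]
      exact pow_rootMultiplicity_dvd g ρ
  obtain ⟨s, hs⟩ := hdvd
  refine ⟨g.roots.toFinset, ∏ ρ ∈ g.roots.toFinset, (X - C ρ) ^ (g.roots.count ρ - 1), s, ?_, hs,
    ?_, ?_, ?_⟩
  · rw [← Finset.prod_mul_distrib]
    refine hsp.trans (Finset.prod_congr rfl fun ρ hρ => ?_)
    rw [← pow_succ, Nat.sub_add_cancel (hcount ρ hρ)]
  · intro ρ hρ
    exact (mem_roots hg.ne_zero).1 (Multiset.mem_toFinset.1 hρ)
  · intro h1
    have h2 : g.degree ≠ 0 := by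
      intro h3
      rw [degree_eq_natDegree hg.ne_zero] at h3
      have h4 : g.natDegree = 0 := by exact_mod_cast h3
      omega
    obtain ⟨a, ha⟩ := IsAlgClosed.exists_root g h2
    exact ⟨a, Multiset.mem_toFinset.2 ((mem_roots hg.ne_zero).2 ha)⟩
  · exact (Multiset.toFinset_card_le _).trans (card_roots' g)

/-- reduction of a monic polynomial -/
private theorem LocN_red {A : Type*} [CommRing A] [Nontrivial A] (κ : k →+* A) (π : A)
    (hres : ∀ a : A, ∃ (c : k) (b : A), a = κ c + π * b) {g : A[X]} (hg : g.Monic) :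
    ∃ (gb : k[X]) (a : A[X]), gb.Monic ∧ gb.natDegree = g.natDegree ∧
      g = gb.map κ + C π * a := by
  classical
  choose c b hcb using hres
  obtain ⟨n, hn⟩ : ∃ n, n = g.natDegree := ⟨_, rfl⟩
  obtain ⟨q, hq⟩ : ∃ q : k[X], q = ∑ i ∈ Finset.range n, C (c (g.coeff i)) * X ^ i := ⟨_, rfl⟩
  have hqd : q.degree < n := by
    rw [hq]
    refine mem_degreeLT.1 (Submodule.sum_mem _ fun i hi => mem_degreeLT.2 ?_)
    refine lt_of_le_of_lt (degree_C_mul_X_pow_le i _) ?_
    exact_mod_cast Finset.mem_range.1 hi
  refine ⟨X ^ n + q, ∑ i ∈ Finset.range n, C (b (g.coeff i)) * X ^ i, monic_X_pow_add hqd, ?_, ?_⟩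
  · rw [← hn]
    have h1 : (X ^ n + q : k[X]).degree = (n : WithBot ℕ) := by
      rw [degree_add_eq_left_of_degree_lt (by rw [degree_X_pow]; exact hqd), degree_X_pow]
    exact natDegree_eq_of_degree_eq_some h1
  · rw [Polynomial.map_add, Polynomial.map_pow, map_X, hq, Polynomial.map_sum, add_assoc,
      Finset.mul_sum, ← Finset.sum_add_distrib]
    have h2 : ∀ i ∈ Finset.range n, ((C (c (g.coeff i)) * X ^ i : k[X]).map κ +
        C π * (C (b (g.coeff i)) * X ^ i)) = C (g.coeff i) * X ^ i := by
      intro i _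
      rw [Polynomial.map_mul, map_C, Polynomial.map_pow, map_X]
      conv_rhs => rw [hcb (g.coeff i)]
      rw [C_add, C_mul]
      ring
    rw [Finset.sum_congr rfl h2]
    have h3 := g.as_sum_range_C_mul_X_pow
    rw [Finset.sum_range_succ, hg.coeff_natDegree, C_1, one_mul, ← hn] at h3
    rw [add_comm]
    exact h3

theorem loc_norm [IsAlgClosed k] (P : OnePoint k) {F : Type*} [Field F] [Algebra (RatFunc k) F] {n : ℕ}
    (hn : 1 ≤ n) (hF : Module.finrank (RatFunc k) F = n) {z : F} {chi : (RatFunc k)[X]} (hmon : chi.Monic)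
    (hdeg : chi.natDegree = n) (hirr : Irreducible chi) (hz : aeval z chi = 0)
    (hint : ∀ i, chi.coeff i = 0 ∨ 0 ≤ ordP P (chi.coeff i))
    (h0 : Algebra.norm (RatFunc k) (aeval z (derivative chi)) ≠ 0) :
    ∃ S : Finset k, S.Nonempty ∧
      (∀ rho ∈ S, chi.eval (algebraMap k[X] (RatFunc k) (C rho)) = 0 ∨
        1 ≤ ordP P (chi.eval (algebraMap k[X] (RatFunc k) (C rho)))) ∧
      (n : ℤ) - S.card ≤ ordP P (Algebra.norm (RatFunc k) (aeval z (derivative chi))) := by
  classical
  obtain ⟨v, hv⟩ := exists_val P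
  have hle : ∀ r : RatFunc k, r ≠ 0 → (v r ≤ 1 ↔ 0 ≤ ordP P r) := by
    intro r hr
    rw [hv r hr, ← WithZero.exp_zero, WithZero.exp_le_exp]
    omega
  have hpar0 : par P ≠ 0 := by
    induction P using OnePoint.rec with
    | infty => exact inv_ne_zero RatFunc.X_ne_zero
    | coe a =>
      have h1 : par (a : OnePoint k) = algebraMap k[X] (RatFunc k) (X - C a) := by
        rw [map_sub, RatFunc.algebraMap_X, RatFunc.algebraMap_C]
        rfl
      rw [h1]
      exact RatFunc.algebraMap_ne_zero (X_sub_C_ne_zero a)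
  have hpar : ordP P (par P) = 1 := by
    clear hle hv v
    induction P using OnePoint.rec with
    | infty =>
      have h1 : par (OnePoint.infty : OnePoint k) = (algebraMap k[X] (RatFunc k) X)⁻¹ := by
        rw [RatFunc.algebraMap_X]
        rfl
      rw [h1, ord_inv _ (RatFunc.algebraMap_ne_zero X_ne_zero), ord_poly_infty, natDegree_X]
      simp
    | coe a =>
      have h1 : par (a : OnePoint k) = algebraMap k[X] (RatFunc k) (X - C a) := by
        rw [map_sub, RatFunc.algebraMap_X, RatFunc.algebraMap_C]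
        rfl
      rw [h1, ord_poly_coe, rootMultiplicity_X_sub_C_self]
      rfl
  have hconst : ∀ c : k, v (algebraMap k[X] (RatFunc k) (C c)) ≤ 1 := by
    intro c
    by_cases hc : algebraMap k[X] (RatFunc k) (C c) = 0
    · rw [hc, map_zero]
      exact zero_le
    · rw [hle _ hc, ord_const]
  obtain ⟨κ, hκ⟩ : ∃ κ : k →+* v.integer, ∀ c, ((κ c : v.integer) : RatFunc k) =
      algebraMap k[X] (RatFunc k) (C c) :=
    ⟨RingHom.codRestrict ((algebraMap k[X] (RatFunc k)).comp C) v.integer hconst, fun _ => rfl⟩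
  obtain ⟨π, hπ⟩ : ∃ π : v.integer, (π : RatFunc k) = par P :=
    ⟨⟨par P, (hle _ hpar0).2 (by rw [hpar]; norm_num)⟩, rfl⟩
  have hres : ∀ a : v.integer, ∃ (c : k) (b : v.integer), a = κ c + π * b := by
    intro a
    by_cases ha : (a : RatFunc k) = 0
    · refine ⟨0, 0, ?_⟩
      apply Subtype.ext
      rw [map_zero, mul_zero, add_zero]
      exact ha
    · have h1 : 0 ≤ ordP P (a : RatFunc k) := (hle _ ha).1 a.2
      obtain ⟨l, hl⟩ : ∃ l : k, (a : RatFunc k) - algebraMap k[X] (RatFunc k) (C l) = 0 ∨
          0 < ordP P ((a : RatFunc k) - algebraMap k[X] (RatFunc k) (C l)) := by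
        rcases h1.lt_or_eq with h2 | h2
        · refine ⟨0, Or.inr ?_⟩
          rw [C_0, map_zero, sub_zero]
          exact h2
        · exact LocN_res P ha h2.symm
      rcases hl with hl | hl
      · refine ⟨l, 0, ?_⟩
        apply Subtype.ext
        rw [mul_zero, add_zero, hκ]
        exact sub_eq_zero.1 hl
      · by_cases h0 : (a : RatFunc k) - algebraMap k[X] (RatFunc k) (C l) = 0
        · refine ⟨l, 0, ?_⟩
          apply Subtype.ext
          rw [mul_zero, add_zero, hκ]
          exact sub_eq_zero.1 h0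
        · have h3 : ((a : RatFunc k) - algebraMap k[X] (RatFunc k) (C l)) * (par P)⁻¹ ≠ 0 :=
            mul_ne_zero h0 (inv_ne_zero hpar0)
          have h4 : v (((a : RatFunc k) - algebraMap k[X] (RatFunc k) (C l)) * (par P)⁻¹) ≤ 1 := by
            rw [hle _ h3, ord_mul P h0 (inv_ne_zero hpar0), ord_inv P hpar0, hpar]
            omega
          refine ⟨l, ⟨_, h4⟩, ?_⟩
          apply Subtype.ext
          have h5 : ((κ l + π * ⟨_, h4⟩ : v.integer) : RatFunc k) =
              (κ l : RatFunc k) + (π : RatFunc k) *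
                (((a : RatFunc k) - algebraMap k[X] (RatFunc k) (C l)) * (par P)⁻¹) := rfl
          rw [h5, hκ, hπ]
          field_simp
          ring
  -- the polynomial over the valuation ring
  obtain ⟨g, hgm, hgd, hgmon⟩ := lifts_and_natDegree_eq_and_monic
    (f := v.integer.subtype) (p := chi) (by
      rw [lifts_iff_coeff_lifts]
      intro i
      rcases hint i with h1 | h1
      · exact ⟨0, by rw [map_zero, h1]⟩
      · by_cases h2 : chi.coeff i = 0
        · exact ⟨0, by rw [map_zero, h2]⟩
        · exact ⟨⟨chi.coeff i, (hle _ h2).2 h1⟩, rfl⟩) hmon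
  obtain ⟨gb, a, hgb, hgbd, hga⟩ := LocN_red κ π hres hgmon
  obtain ⟨S, h, s, hfac, hder, hroot, hne, hcard⟩ := LocN_rad hgb
  have hnd : gb.natDegree = n := by rw [hgbd, hgd, hdeg]
  refine ⟨S, hne (by omega), ?_, ?_⟩
  · intro ρ hρ
    have h1 : g.eval (κ ρ) = π * a.eval (κ ρ) := by
      rw [hga, eval_add, eval_mul, eval_C, eval_map, eval₂_at_apply, hroot ρ hρ, map_zero, zero_add]
    have h2 : chi.eval (algebraMap k[X] (RatFunc k) (C ρ)) =
        par P * ((a.eval (κ ρ) : v.integer) : RatFunc k) := by
      rw [← hgm, ← hκ, eval_map, ← hπ]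
      have h3 : g.eval₂ v.integer.subtype ((κ ρ : v.integer) : RatFunc k) =
          v.integer.subtype (g.eval (κ ρ)) := (eval₂_at_apply v.integer.subtype (κ ρ))
      rw [h3, h1]
      rfl
    by_cases h0' : ((a.eval (κ ρ) : v.integer) : RatFunc k) = 0
    · left
      rw [h2, h0', mul_zero]
    · right
      rw [h2, ord_mul P hpar0 h0', hpar]
      have h4 := (hle _ h0').1 (a.eval (κ ρ)).2
      omega
  · -- the norm
    have hT : (∏ ρ ∈ S, (X - C ρ) : k[X]).Monic := monic_prod_of_monic _ _ fun ρ _ => monic_X_sub_C ρ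
    have hTd : (∏ ρ ∈ S, (X - C ρ) : k[X]).natDegree = S.card := by
      rw [natDegree_prod_of_monic _ _ fun ρ _ => monic_X_sub_C ρ]
      simp
    have hdv := norm_dvd (A := v.integer) π (n := n) (r := S.card) (by omega) g (derivative g)
      (h.map κ) ((∏ ρ ∈ S, (X - C ρ) : k[X]).map κ) (s.map κ) a (derivative a) hgmon
      (by rw [hgd, hdeg]) (hT.map κ) (by rw [hT.natDegree_map, hTd])
      (by rw [← Polynomial.map_mul, ← hfac]; exact hga)
      (by
        rw [← Polynomial.map_mul, ← hder, ← derivative_map]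
        conv_lhs => rw [hga]
        rw [derivative_add, derivative_C_mul])
    obtain ⟨w, hw⟩ := hdv
    have hN := LocN_norm v.integer.subtype hgmon (derivative g)
    rw [hgm, ← derivative_map, hgm] at hN
    -- the field
    have hfact : Fact (Irreducible chi) := ⟨hirr⟩
    have hfin : Module.Finite (RatFunc k) F := Module.finite_of_finrank_pos (by omega)
    have hz' : chi.eval₂ (algebraMap (RatFunc k) F) z = 0 := hz
    obtain ⟨φ, hφ⟩ : ∃ φ : AdjoinRoot chi →ₐ[RatFunc k] F, ∀ q : (RatFunc k)[X],
        φ (AdjoinRoot.mk chi q) = aeval z q := by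
      refine ⟨AdjoinRoot.liftAlgHom chi (Algebra.ofId (RatFunc k) F) z hz', fun q => ?_⟩
      exact AdjoinRoot.lift_mk hz' q
    have hfin2 : Module.Finite (RatFunc k) (AdjoinRoot chi) :=
      (AdjoinRoot.powerBasis hirr.ne_zero).finite
    have hfr : Module.finrank (RatFunc k) (AdjoinRoot chi) = n := by
      rw [(AdjoinRoot.powerBasis hirr.ne_zero).finrank, AdjoinRoot.powerBasis_dim, hdeg]
    have hinj : Function.Injective φ := φ.toRingHom.injective
    have hbij : Function.Bijective φ := by
      refine ⟨hinj, ?_⟩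
      exact (LinearMap.injective_iff_surjective_of_finrank_eq_finrank (f := φ.toLinearMap)
        (by rw [hfr, hF])).1 hinj
    have hnorm : Algebra.norm (RatFunc k) (AdjoinRoot.mk chi (derivative chi)) =
        Algebra.norm (RatFunc k) (aeval z (derivative chi)) := by
      rw [← hφ]
      exact (Algebra.norm_eq_of_algEquiv (AlgEquiv.ofBijective φ hbij) _).symm
    rw [hnorm, hw] at hN
    have hN2 : Algebra.norm (RatFunc k) (aeval z (derivative chi)) =
        par P ^ (n - S.card) * (w : RatFunc k) := by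
      rw [← hN, map_mul, map_pow]
      have h5 : v.integer.subtype π = par P := hπ
      rw [h5]
      rfl
    have hw0 : (w : RatFunc k) ≠ 0 := by
      intro h5
      rw [hN2, h5, mul_zero] at h0
      exact h0 rfl
    rw [hN2, ord_mul P (pow_ne_zero _ hpar0) hw0, ord_pow P hpar0, hpar]
    have h6 := (hle _ hw0).1 w.2
    have h7 : ((n - S.card : ℕ) : ℤ) = (n : ℤ) - S.card := by
      have : S.card ≤ n := by omega
      omega
    rw [h7]
    omega

end Pool.Agent.Helper28.HN
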