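import Pool.Agent.Helper28.HN.Places
import Pool.Agent.Helper28.HN.LocN
import Pool.Agent.Helper28.HN.FlipN
import Pool.Agent.Helper28.HN.FinR
import Pool.Agent.Helper54.HZ.Place

/-!
MP_143e28_ag, project HN: the order of the discriminant of `z` at a point of the line (the analogue of `TDeg_local` in
`Helper54/HZ/TDeg.lean`).

`K = RatFunc k`, `F` a `K`-algebra by `rat hx` of degree `n` (`finrank_rat`).  `c` = the constant of `good_const`, `b = P (X, c)`, `o = ordP Q0 b`,
`Q` = the polynomial of `flip_polyN` over `k[X]`, `chi = Q / b` over `K`: monic of degree `n`, root `z' = 1 / (z - c)`, coefficients of order `≥ 0` at `Q0`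
(`span_val`, `exists_val`), irreducible (`TDeg_irr`, copy).  `flip_norm` over `K` for `P.map`: `dsc hx n P z = b ^ (2 n - 2) N (chi' (z'))`.
`loc_norm` and `d_places`: `ord N (chi' (z')) ≥ n - #S`, `#S ≤` number of places, so `ramD ≤ n - #S` (`ramD_of_ge`).
-/

set_option autoImplicit false

namespace Pool.Agent.Helper28.HN

open Polynomial Pool.Agent.Helper54.HY Pool.Agent.Helper54.HZ

variable {k F : Type*} [Field k] [Field F] [Algebra k F]

private theorem DegL_irr {K F : Type*} [Field K] [Field F] [Algebra K F] {n : ℕ} {z : F} {P chi : K[X]}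
    (hP : Irreducible P) (hPd : P.natDegree = n) (hPz : aeval z P = 0) (e : K)
    (hchi : chi.Monic) (hd : chi.natDegree = n)
    (h0 : aeval (z - algebraMap K F e)⁻¹ chi = 0) : Irreducible chi := by
  obtain ⟨z', hz'⟩ : ∃ z' : F, z' = (z - algebraMap K F e)⁻¹ := ⟨_, rfl⟩
  rw [← hz'] at h0
  have hint' : IsIntegral K z' := ⟨chi, hchi, by rwa [← aeval_def]⟩
  have hP0 : P ≠ 0 := hP.ne_zero
  have hint : IsIntegral K z := by
    rw [← isAlgebraic_iff_isIntegral]
    exact ⟨P, hP0, hPz⟩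
  have h1 : (minpoly K z).natDegree = n := by
    rw [← hPd]
    have h2 := minpoly.eq_of_irreducible hP hPz
    rw [← h2, natDegree_mul_C]
    exact inv_ne_zero (leadingCoeff_ne_zero.2 hP0)
  have hle : IntermediateField.adjoin K {z} ≤ IntermediateField.adjoin K {z'} := by
    rw [IntermediateField.adjoin_simple_le_iff]
    have h2 : z = z'⁻¹ + algebraMap K F e := by
      rw [hz', inv_inv, sub_add_cancel]
    rw [h2]
    exact add_mem (inv_mem (IntermediateField.mem_adjoin_simple_self K z'))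
      ((IntermediateField.adjoin K {z'}).algebraMap_mem e)
  have hf : FiniteDimensional K (IntermediateField.adjoin K {z'}) :=
    IntermediateField.adjoin.finiteDimensional hint'
  have h3 : Module.finrank K (IntermediateField.adjoin K {z}) ≤
      Module.finrank K (IntermediateField.adjoin K {z'}) :=
    LinearMap.finrank_le_finrank_of_injective
      (f := (IntermediateField.inclusion hle).toLinearMap) (IntermediateField.inclusion_injective hle)
  rw [IntermediateField.adjoin.finrank hint, IntermediateField.adjoin.finrank hint', h1] at h3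
  have h4 : minpoly K z' ∣ chi := minpoly.dvd K z' h0
  have h5 : chi = minpoly K z' := by
    refine eq_of_monic_of_dvd_of_natDegree_le (minpoly.monic hint') hchi h4 ?_
    rw [hd]
    exact h3
  rw [h5]
  exact minpoly.irreducible hint'

private theorem DegL_v_const (Q0 : OnePoint k) (v : Valuation (RatFunc k) (WithZero (Multiplicative ℤ)))
    (hv : ∀ r : RatFunc k, r ≠ 0 → v r = WithZero.exp (-ordP Q0 r)) {c : k} (hc : c ≠ 0) :
    v (algebraMap k[X] (RatFunc k) (C c)) = 1 := by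
  have h0 : algebraMap k[X] (RatFunc k) (C c) ≠ 0 := RatFunc.algebraMap_ne_zero (C_ne_zero.2 hc)
  have h1 : ordP Q0 (algebraMap k[X] (RatFunc k) (C c)) = 0 := by
    rw [Ord_ordP, RatFunc.num_algebraMap, RatFunc.denom_algebraMap, Ord_v_C, Ord_v_one, sub_zero]
  rw [hv _ h0, h1, neg_zero, WithZero.exp_zero]

/-- at most `n` constants are roots modulo the point of a monic polynomial of degree `n` (Lagrange interpolation) -/
private theorem DegL_card (Q0 : OnePoint k) {n : ℕ} {chi : (RatFunc k)[X]} (hmon : chi.Monic)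
    (hd : chi.natDegree = n) (S : Finset k)
    (hS : ∀ rho ∈ S, chi.eval (algebraMap k[X] (RatFunc k) (C rho)) = 0 ∨
      1 ≤ ordP Q0 (chi.eval (algebraMap k[X] (RatFunc k) (C rho)))) : S.card ≤ n := by
  classical
  by_contra hlt
  rw [not_le] at hlt
  obtain ⟨T, hTS, hT⟩ := Finset.exists_subset_card_eq (Nat.succ_le_of_lt hlt)
  obtain ⟨v, hv⟩ := exists_val Q0
  obtain ⟨w, hw⟩ : ∃ w : k → RatFunc k, ∀ rho, w rho = algebraMap k[X] (RatFunc k) (C rho) :=
    ⟨_, fun _ => rfl⟩
  have hwi : Function.Injective w := by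
    intro a b hab
    rw [hw, hw] at hab
    exact C_injective (RatFunc.algebraMap_injective k hab)
  have hdeg : chi.degree < (T.card : WithBot ℕ) := by
    rw [degree_eq_natDegree hmon.ne_zero, hd, hT]
    exact_mod_cast Nat.lt_succ_self n
  have h1 := Lagrange.coeff_eq_sum (s := T) (v := w) (hwi.injOn) hdeg
  have h2 : chi.coeff (T.card - 1) = 1 := by
    rw [hT, Nat.succ_eq_add_one, Nat.add_sub_cancel, ← hd]
    exact hmon
  rw [h2] at h1
  have h3 : v (∑ i ∈ T, (chi.eval (w i)) / ∏ j ∈ T.erase i, (w i - w j)) < 1 := by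
    refine Valuation.map_sum_lt v one_ne_zero fun i hi => ?_
    have h4 : v (∏ j ∈ T.erase i, (w i - w j)) = 1 := by
      rw [map_prod]
      refine Finset.prod_eq_one fun j hj => ?_
      have h5 : w i - w j = algebraMap k[X] (RatFunc k) (C (i - j)) := by
        rw [hw, hw, C_sub, map_sub]
      rw [h5]
      exact DegL_v_const Q0 v hv (sub_ne_zero.2 (Finset.ne_of_mem_erase hj).symm)
    rw [map_div₀, h4, div_one]
    by_cases h0 : chi.eval (w i) = 0
    · rw [h0, map_zero]
      exact zero_lt_one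
    · rcases hS i (hTS hi) with h6 | h6
      · rw [← hw] at h6
        exact absurd h6 h0
      · rw [← hw] at h6
        rw [hv _ h0, ← WithZero.exp_zero, WithZero.exp_lt_exp]
        omega
  rw [← h1, map_one] at h3
  exact lt_irrefl _ h3

theorem d_local [IsAlgClosed k] {n : ℕ} (hn : 2 ≤ n) {x : F} (hx : Transcendental k x)
    (hc : Module.finrank (IntermediateField.adjoin k {x}) F = n) {z : F}
    (hz : ∀ r : RatFunc k, rat hx r ≠ z) {m : ℕ} (P : k[X][X]) (hPp : P.IsPrimitive)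
    (hPn : P.natDegree = n) (hPm : ∀ i, (P.coeff i).natDegree ≤ m)
    (hPi : Irreducible (P.map (algebraMap k[X] (RatFunc k))))
    (hPz : P.eval₂ (aeval x : k[X] →ₐ[k] F).toRingHom z = 0) (hD : dsc hx n P z ≠ 0) (Q0 : OnePoint k) :
    ∃ o : ℤ, (∀ b : k, Q0 = (b : OnePoint k) → o = 0) ∧ (Q0 = OnePoint.infty → -(m : ℤ) ≤ o) ∧
      (ramD n hx Q0 : ℤ) + (2 * n - 2) * o ≤ ordP Q0 (dsc hx n P z) := by
  have hcomp : (aeval x : k[X] →ₐ[k] F).toRingHom =
      (rat hx).toRingHom.comp (algebraMap k[X] (RatFunc k)) :=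
    RingHom.ext fun q => (rat_poly hx q).symm
  obtain ⟨c, hb0, hbP, hbfin, hbinf⟩ := good_const P hPp hPm Q0
  obtain ⟨b, hb⟩ : ∃ b, b = P.eval (C c) := ⟨_, rfl⟩
  rw [← hb] at hb0 hbP hbfin hbinf
  have hbK : algebraMap k[X] (RatFunc k) b ≠ 0 := RatFunc.algebraMap_ne_zero hb0
  obtain ⟨v, hv⟩ := exists_val Q0
  obtain ⟨Q1, hQ1n, hQ1c, hQ1s, hQ1r⟩ := flip_polyN P hPn.le c
  have hQ1c' : Q1.coeff n = b := by rw [hQ1c, hb]; rfl
  obtain ⟨e, he⟩ : ∃ e : RatFunc k, e = algebraMap k[X] (RatFunc k) (C c) := ⟨_, rfl⟩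
  have he' : (aeval x : k[X] →ₐ[k] F).toRingHom (algebraMap k k[X] c) = rat hx e := by
    rw [he, rat_poly]
    rfl
  have hQ1r' : Q1.eval₂ (aeval x : k[X] →ₐ[k] F).toRingHom (z - rat hx e)⁻¹ = 0 := by
    have h2 := hQ1r F (aeval x : k[X] →ₐ[k] F).toRingHom z (by
      rw [he']
      exact (hz e).symm) hPz
    rwa [he'] at h2
  obtain ⟨Q2, hQ2⟩ : ∃ Q2 : (RatFunc k)[X], Q2 = C (algebraMap k[X] (RatFunc k) b)⁻¹ *
    Q1.map (algebraMap k[X] (RatFunc k)) := ⟨_, rfl⟩
  have hQ2c : ∀ i, Q2.coeff i = algebraMap k[X] (RatFunc k) (Q1.coeff i) /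
      algebraMap k[X] (RatFunc k) b := by
    intro i
    rw [hQ2, coeff_C_mul, coeff_map, div_eq_inv_mul]
  have hQ2n : Q2.natDegree ≤ n := by
    rw [hQ2]
    exact (natDegree_C_mul_le _ _).trans (natDegree_map_le.trans hQ1n)
  have hQ23 : Q2.coeff n = 1 := by rw [hQ2c, hQ1c', div_self hbK]
  have hQ2m : Q2.Monic := monic_of_natDegree_le_of_coeff_eq_one n hQ2n hQ23
  have hQ2d : Q2.natDegree = n :=
    le_antisymm hQ2n (le_natDegree_of_ne_zero (by rw [hQ23]; exact one_ne_zero))
  have hQ2o : ∀ i, Q2.coeff i = 0 ∨ 0 ≤ ordP Q0 (Q2.coeff i) := by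
    intro i
    by_cases h0 : Q2.coeff i = 0
    · exact Or.inl h0
    · right
      have h1 : v (Q2.coeff i) ≤ 1 := by
        rw [hQ2c]
        exact span_val Q0 v hv P b hb0 hbP (hQ1s i)
      rw [hv _ h0, ← WithZero.exp_zero, WithZero.exp_le_exp] at h1
      omega
  have hPd : (P.map (algebraMap k[X] (RatFunc k))).natDegree = n := by
    rw [natDegree_map_eq_of_injective (RatFunc.algebraMap_injective k), hPn]
  letI : Algebra (RatFunc k) F := (rat hx).toRingHom.toAlgebra
  have hcomp' : (algebraMap (RatFunc k) F).comp (algebraMap k[X] (RatFunc k)) =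
      (aeval x : k[X] →ₐ[k] F).toRingHom := hcomp.symm
  have hQ2z : aeval (z - algebraMap (RatFunc k) F e)⁻¹ Q2 = 0 := by
    rw [aeval_def, hQ2, eval₂_mul, eval₂_map]
    have h2 : algebraMap (RatFunc k) F e = rat hx e := rfl
    rw [hcomp', h2, hQ1r', mul_zero]
  have hPz' : aeval z (P.map (algebraMap k[X] (RatFunc k))) = 0 := by
    rw [aeval_def, eval₂_map, hcomp', hPz]
  have hirr : Irreducible Q2 := DegL_irr hPi hPd hPz' e hQ2m hQ2d hQ2z
  have hF : Module.finrank (RatFunc k) F = n := (finrank_rat hx).trans hc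
  have hflip := flip_norm hn hF hPd hPi hPz' e hQ2m hQ2d hQ2z
  have hL : (P.map (algebraMap k[X] (RatFunc k))).leadingCoeff ^ (n - 2) *
      Algebra.norm (RatFunc k) (aeval z (derivative (P.map (algebraMap k[X] (RatFunc k))))) =
      dsc hx n P z := by
    have h1 : aeval z (derivative (P.map (algebraMap k[X] (RatFunc k)))) =
        (derivative P).eval₂ (aeval x : k[X] →ₐ[k] F).toRingHom z := by
      rw [derivative_map, aeval_def, eval₂_map, hcomp']
    rw [h1, leadingCoeff_map_of_injective (RatFunc.algebraMap_injective k)]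
    rfl
  have hE : (P.map (algebraMap k[X] (RatFunc k))).eval e = algebraMap k[X] (RatFunc k) b := by
    rw [eval_map, he, eval₂_at_apply, hb]
  rw [hL, hE] at hflip
  obtain ⟨N, hN⟩ : ∃ N : RatFunc k, N = Algebra.norm (RatFunc k)
    (aeval (z - algebraMap (RatFunc k) F e)⁻¹ (derivative Q2)) := ⟨_, rfl⟩
  have hN0 : Algebra.norm (RatFunc k)
      (aeval (z - algebraMap (RatFunc k) F e)⁻¹ (derivative Q2)) ≠ 0 := by
    intro h0
    rw [h0, mul_zero] at hflip
    exact hD hflip
  obtain ⟨S, hSne, hS, hSo⟩ := loc_norm Q0 (one_le_two.trans hn) hF hQ2m hQ2d hirr hQ2z hQ2o hN0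
  rw [← hN] at hflip hN0 hSo
  have hpl : (S.card : ℕ∞) ≤ (Above hx Q0).encard :=
    d_places hx Q0 (z := (z - rat hx e)⁻¹) hQ2m hirr hQ2z hQ2o S hS
  have hram := ramD_of_ge n hx Q0 (Finset.card_pos.2 hSne) hpl
  have hcard := DegL_card Q0 hQ2m hQ2d S hS
  refine ⟨ordP Q0 (algebraMap k[X] (RatFunc k) b), hbfin, hbinf, ?_⟩
  rw [hflip, ord_mul Q0 (pow_ne_zero _ hbK) hN0, ord_pow Q0 hbK]
  have h5 : ((2 * n - 2 : ℕ) : ℤ) = 2 * n - 2 := by omega
  have h6 : (ramD n hx Q0 : ℤ) ≤ (n : ℤ) - S.card := by omega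
  rw [h5]
  linarith

end Pool.Agent.Helper28.HN
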