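import Pool.Agent.Helper28.HN.FinR

/-!
MP_143e28_ag, project HN: the discriminant is not zero.

`n ≠ 0` in `k`: `derivative P` has degree `n - 1 < n` and is not `0` (its coefficient of `Z ^ (n-1)` is `n * lc`), and `P.map` is (up to a constant) the minimal
polynomial of `z` over `RatFunc k`: `(derivative P)(z) ≠ 0`.  The norm of a nonzero element of a finite field extension is not zero
(`Algebra.norm_ne_zero_iff`; finite by `finrank_rat` and `n ≠ 0`: `Module.finite_of_finrank_pos`).
-/

set_option autoImplicit false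

namespace Pool.Agent.Helper28.HN

open Polynomial Pool.Agent.Helper54.HY Pool.Agent.Helper54.HZ

variable {k F : Type*} [Field k] [Field F] [Algebra k F]

private theorem DscNe_aux {K L : Type*} [Field K] [Field L] [Algebra K L] {n : ℕ} (hn : 2 ≤ n)
    (hnK : (n : K) ≠ 0) {P : K[X]} (hPn : P.natDegree = n) (hPi : Irreducible P) {z : L}
    (hz : aeval z P = 0) : aeval z (derivative P) ≠ 0 := by
  intro h
  have h1 := minpoly.eq_of_irreducible hPi hz
  have h2 : minpoly K z ∣ derivative P := minpoly.dvd K z h
  have hP0 : P ≠ 0 := hPi.ne_zero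
  have hlc : P.leadingCoeff ≠ 0 := leadingCoeff_ne_zero.2 hP0
  have h3 : derivative P ≠ 0 := by
    intro h0
    have h4 := congrArg (fun q => q.coeff (n - 1)) h0
    simp only [coeff_derivative, coeff_zero] at h4
    rw [show n - 1 + 1 = n by omega] at h4
    have h5 : ((n - 1 : ℕ) : K) + 1 = (n : K) := by
      rw [← Nat.cast_succ]
      congr 1
      omega
    rw [h5] at h4
    have h6 : P.coeff n ≠ 0 := by
      rw [← hPn]
      exact hlc
    exact mul_ne_zero h6 hnK h4
  have h4 := natDegree_le_of_dvd h2 h3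
  have h5 : (minpoly K z).natDegree = n := by
    rw [← h1, natDegree_mul_C (inv_ne_zero hlc), hPn]
  have h6 : (derivative P).natDegree < P.natDegree := natDegree_derivative_lt (by omega)
  omega

theorem dsc_ne {n : ℕ} (hn : 2 ≤ n) (hnk : (n : k) ≠ 0) {x : F} (hx : Transcendental k x)
    (hc : Module.finrank (IntermediateField.adjoin k {x}) F = n) {z : F} (P : k[X][X])
    (hPn : P.natDegree = n) (hPi : Irreducible (P.map (algebraMap k[X] (RatFunc k))))
    (hPz : P.eval₂ (aeval x : k[X] →ₐ[k] F).toRingHom z = 0) : dsc hx n P z ≠ 0 := by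
  have hcomp : (aeval x : k[X] →ₐ[k] F).toRingHom =
      (rat hx).toRingHom.comp (algebraMap k[X] (RatFunc k)) :=
    RingHom.ext fun q => (rat_poly hx q).symm
  have hinj := RatFunc.algebraMap_injective k
  have hP0 : P ≠ 0 := by
    rintro rfl
    rw [Polynomial.map_zero] at hPi
    exact hPi.ne_zero rfl
  have hlc : algebraMap k[X] (RatFunc k) P.leadingCoeff ≠ 0 :=
    RatFunc.algebraMap_ne_zero (leadingCoeff_ne_zero.2 hP0)
  letI : Algebra (RatFunc k) F := (rat hx).toRingHom.toAlgebra
  have hfr : Module.finrank (RatFunc k) F = n := (finrank_rat hx).trans hc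
  haveI : FiniteDimensional (RatFunc k) F := Module.finite_of_finrank_pos (by omega)
  have hnK : (n : RatFunc k) ≠ 0 := by
    intro h
    apply hnk
    have h1 : algebraMap k (RatFunc k) (n : k) = 0 := by rw [map_natCast, h]
    exact (map_eq_zero _).1 h1
  have hz : aeval z (P.map (algebraMap k[X] (RatFunc k))) = 0 := by
    rw [aeval_def, eval₂_map]
    have h1 : (algebraMap (RatFunc k) F).comp (algebraMap k[X] (RatFunc k)) =
        (aeval x : k[X] →ₐ[k] F).toRingHom := hcomp.symm
    rw [h1, hPz]
  have h2 := DscNe_aux hn hnK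
    (by rw [natDegree_map_eq_of_injective hinj, hPn]) hPi hz
  have h3 : (derivative P).eval₂ (aeval x : k[X] →ₐ[k] F).toRingHom z =
      aeval z (derivative (P.map (algebraMap k[X] (RatFunc k)))) := by
    rw [derivative_map, aeval_def, eval₂_map]
    have h1 : (algebraMap (RatFunc k) F).comp (algebraMap k[X] (RatFunc k)) =
        (aeval x : k[X] →ₐ[k] F).toRingHom := hcomp.symm
    rw [h1]
  unfold dsc
  rw [h3]
  exact mul_ne_zero (pow_ne_zero _ hlc) (Algebra.norm_ne_zero_iff.2 h2)

end Pool.Agent.Helper28.HN
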