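import Pool.Agent.Helper28.HN.Min
import Pool.Agent.Helper28.HN.DegL
import Pool.Agent.Helper28.HN.DscNe
import Pool.Agent.Helper54.HZ.ASCount

/-!
MP_143e28_ag, project HN: a function outside `k(x)` of degree at most `m` in `x` forces `2 g + 2 n - 2 ≤ (2 n - 2) m`
(the analogue of `t_deg` in `Helper54/HZ/TDeg.lean`: `d_prim`, `dsc_ne`, `d_local`, `countW` with `r = dsc`, `wt = ramD`, `(2 n - 2) m`).
-/

set_option autoImplicit false

namespace Pool.Agent.Helper28.HN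

open Polynomial Pool.Agent.Helper54.HY Pool.Agent.Helper54.HZ

variable {k F : Type*} [Field k] [Field F] [Algebra k F]

theorem d_deg [IsAlgClosed k] {p n g : ℕ} {x : F} (h : PresD k F p n g x) {z : F}
    (hz : ∀ r : RatFunc k, rat h.trans r ≠ z) {m : ℕ} (Q : k[X][X]) (hQ : Q ≠ 0)
    (hm : ∀ i, (Q.coeff i).natDegree ≤ m)
    (h0 : Q.eval₂ (aeval x : k[X] →ₐ[k] F).toRingHom z = 0) :
    2 * g + 2 * n ≤ (2 * n - 2) * m + 2 := by
  have hn2 : 2 ≤ n := h.two
  obtain ⟨P, hPp, hPn, hPm, hPi, hPz⟩ :=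
    d_prim hn2 h.trans h.deg h.simple hz Q hQ hm h0
  have hD : dsc h.trans n P z ≠ 0 := dsc_ne hn2 h.char h.trans h.deg P hPn hPi hPz
  have hloc := d_local hn2 h.trans h.deg hz P hPp hPn hPm hPi hPz hD
  have h5 : ((2 * n - 2 : ℕ) : ℤ) = 2 * (n : ℤ) - 2 := by omega
  have h6 : (0 : ℤ) ≤ 2 * (n : ℤ) - 2 := by omega
  obtain ⟨K, hK⟩ : ∃ K : ℕ, K = (2 * n - 2) * m := ⟨_, rfl⟩
  have hKz : (K : ℤ) = (2 * (n : ℤ) - 2) * m := by
    rw [hK, Nat.cast_mul, h5]
  have hcount := countW hD (K : ℤ)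
    (fun P => (ramD n h.trans P : ℤ)) (fun P => Int.natCast_nonneg _)
    (fun b => by
      obtain ⟨o, ho1, _, ho3⟩ := hloc (b : OnePoint k)
      rw [ho1 b rfl, mul_zero, add_zero] at ho3
      exact ho3)
    (by
      obtain ⟨o, _, ho2, ho3⟩ := hloc OnePoint.infty
      have h7 := mul_le_mul_of_nonneg_left (ho2 rfl) h6
      show (ramD n h.trans OnePoint.infty : ℤ) - (K : ℤ) ≤ _
      rw [hKz]
      linarith)
  have hgen := h.genus
  have hfin : (Function.support fun P : OnePoint k => ramD n h.trans P).Finite := by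
    by_contra hinf
    rw [finsum_of_infinite_support hinf] at hgen
    omega
  have hcast : ∑ᶠ P : OnePoint k, (ramD n h.trans P : ℤ) =
      ((∑ᶠ P : OnePoint k, ramD n h.trans P : ℕ) : ℤ) :=
    ((Nat.castAddMonoidHom ℤ).map_finsum hfin).symm
  rw [hcast] at hcount
  rw [← hK]
  omega

end Pool.Agent.Helper28.HN
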