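import Mathlib

/-!
MP_143e28_ag, project HN: the order of a norm at a place (pure algebra, Mathlib only).

`A` is a domain, `pi ∈ A`, `k` a field in `A` mapping onto `A / pi` (every element of `A` is a constant plus a multiple of `pi`).  `chi` monic of
degree `n` over `A` with `chi = h * t` modulo `pi`, `h` and `t` monic, `deg t = r`, and `u` a polynomial with `u = h * s` modulo `pi` (used with
`u = chi'`).  Then the determinant of the multiplication by `u` on `A[Z] / chi` is divisible by `pi ^ (n - r)`.
Proof: in the basis `1, Z, .., Z ^ (r - 1), t, t Z, .., t Z ^ (n - r - 1)` (`t` monic of degree `r`: unimodular change of the power basis) the last `n - r`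
basis vectors are mapped to `u t Z ^ i = s Z ^ i h t = 0` modulo `chi` and `pi`.  So `n - r` columns are divisible by `pi`
(`Algebra.norm_eq_matrix_det`; `AdjoinRoot.powerBasis'`; or: `N (t) ` is not needed).
Other way (no base change): `Algebra.norm` of the free `A`-module `AdjoinRoot chi` is the determinant of the matrix in any basis; a linear map `φ` of a free module
of rank `n` such that `φ v_i ∈ pi M` for `n - r` members of a basis has `det φ ∈ (pi ^ (n - r))`.
-/

set_option autoImplicit false

namespace Pool.Agent.Helper28.HN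

open Polynomial

/-- the new basis: `X ^ i` for `i < r` and `t X ^ (i - r)` for `r ≤ i` -/
private noncomputable def Det_w {A : Type*} [CommRing A] (r : ℕ) (t : A[X]) (i : ℕ) : A[X] :=
  if i < r then X ^ i else t * X ^ (i - r)

private theorem Det_w_monic {A : Type*} [CommRing A] (r : ℕ) {t : A[X]} (ht : t.Monic) (i : ℕ) :
    (Det_w r t i).Monic := by
  unfold Det_w
  split_ifs
  · exact monic_X_pow i
  · exact ht.mul (monic_X_pow _)

private theorem Det_w_deg {A : Type*} [CommRing A] [Nontrivial A] {r : ℕ} {t : A[X]} (ht : t.Monic)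
    (htr : t.natDegree = r) (i : ℕ) : (Det_w r t i).natDegree = i := by
  unfold Det_w
  split_ifs with h
  · exact natDegree_X_pow i
  · rw [ht.natDegree_mul (monic_X_pow _), natDegree_X_pow, htr]
    omega

theorem norm_dvd {A : Type*} [CommRing A] [IsDomain A] (pi : A) {n r : ℕ} (hrn : r ≤ n) (chi u h t s a b : A[X])
    (hchi : chi.Monic) (hn : chi.natDegree = n) (ht : t.Monic) (htr : t.natDegree = r)
    (h1 : chi = h * t + C pi * a) (h2 : u = h * s + C pi * b) :
    pi ^ (n - r) ∣ Algebra.norm A (AdjoinRoot.mk chi u) := by
  classical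
  subst hn
  set B := AdjoinRoot.powerBasisAux' hchi with hB
  -- the matrix of the new basis
  let P : Matrix (Fin chi.natDegree) (Fin chi.natDegree) A :=
    Matrix.of fun k i => B.repr (AdjoinRoot.mk chi (Det_w r t i)) k
  have hPe : ∀ k i : Fin chi.natDegree, P k i = (Det_w r t i).coeff k := by
    intro k i
    show B.repr (AdjoinRoot.mk chi (Det_w r t i)) k = _
    rw [hB, AdjoinRoot.powerBasisAux'_repr_apply_to_fun, AdjoinRoot.modByMonicHom_mk,
      (modByMonic_eq_self_iff hchi).2]
    rw [degree_eq_natDegree hchi.ne_zero, degree_eq_natDegree (Det_w_monic r ht i).ne_zero,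
      Det_w_deg ht htr]
    exact_mod_cast i.2
  have hP : P.det = 1 := by
    rw [Matrix.det_of_isUpperTriangular]
    · refine Finset.prod_eq_one fun i _ => ?_
      rw [hPe]
      have h3 := (Det_w_monic r ht i).coeff_natDegree
      rw [Det_w_deg ht htr] at h3
      exact h3
    · intro k i hik
      rw [hPe]
      apply coeff_eq_zero_of_natDegree_lt
      rw [Det_w_deg ht htr]
      exact hik
  -- the columns of the product
  let y : ℕ → AdjoinRoot chi := fun i => if i < r then AdjoinRoot.mk chi u * AdjoinRoot.mk chi (Det_w r t i)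
    else AdjoinRoot.mk chi ((b * t - s * a) * X ^ (i - r))
  let v : ℕ → A := fun i => if i < r then 1 else pi
  have hcol : ∀ i : ℕ, AdjoinRoot.mk chi u * AdjoinRoot.mk chi (Det_w r t i) = v i • y i := by
    intro i
    show _ = (if i < r then (1 : A) else pi) • (if i < r then
      AdjoinRoot.mk chi u * AdjoinRoot.mk chi (Det_w r t i)
      else AdjoinRoot.mk chi ((b * t - s * a) * X ^ (i - r)))
    by_cases hi : i < r
    · rw [if_pos hi, if_pos hi, one_smul]
    · rw [if_neg hi, if_neg hi]
      have e1 : u * Det_w r t i = chi * (s * X ^ (i - r)) + C pi * ((b * t - s * a) * X ^ (i - r)) := by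
        unfold Det_w
        rw [if_neg hi, h2]
        have e2 : h * t = chi - C pi * a := by rw [h1]; ring
        calc (h * s + C pi * b) * (t * X ^ (i - r))
            = (h * t) * (s * X ^ (i - r)) + C pi * (b * t * X ^ (i - r)) := by ring
          _ = chi * (s * X ^ (i - r)) + C pi * ((b * t - s * a) * X ^ (i - r)) := by
              rw [e2]
              ring
      rw [← map_mul, e1, map_add, map_mul, map_mul (AdjoinRoot.mk chi) (C pi), AdjoinRoot.mk_self,
        zero_mul, zero_add, AdjoinRoot.mk_C, ← AdjoinRoot.algebraMap_eq, Algebra.smul_def]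
  let Q' : Matrix (Fin chi.natDegree) (Fin chi.natDegree) A := Matrix.of fun k i => B.repr (y i) k
  have hLP : Algebra.leftMulMatrix B (AdjoinRoot.mk chi u) * P =
      Matrix.of fun k i : Fin chi.natDegree => v i * Q' k i := by
    ext k i
    have h3 := congrFun (Algebra.leftMulMatrix_mulVec_repr B (AdjoinRoot.mk chi u)
      (AdjoinRoot.mk chi (Det_w r t i))) k
    have h4 : (Algebra.leftMulMatrix B (AdjoinRoot.mk chi u) * P) k i =
        (Algebra.leftMulMatrix B (AdjoinRoot.mk chi u)).mulVec
          (B.repr (AdjoinRoot.mk chi (Det_w r t i))) k := rfl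
    rw [h4, h3, hcol, map_smul]
    rfl
  have hdet : Algebra.norm A (AdjoinRoot.mk chi u) = (∏ i : Fin chi.natDegree, v i) * Q'.det := by
    rw [Algebra.norm_eq_matrix_det B, ← Matrix.det_mul_row, ← hLP, Matrix.det_mul, hP, mul_one]
  have hprod : ∏ i : Fin chi.natDegree, v i = pi ^ (chi.natDegree - r) := by
    rw [Fin.prod_univ_eq_prod_range v chi.natDegree]
    have e : ∀ m, r ≤ m → ∏ i ∈ Finset.range m, v i = pi ^ (m - r) := by
      intro m hm
      induction m, hm using Nat.le_induction with
      | base =>
        rw [Nat.sub_self, pow_zero]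
        exact Finset.prod_eq_one fun i hi => if_pos (Finset.mem_range.1 hi)
      | succ m hm ih =>
        rw [Finset.prod_range_succ, ih, Nat.succ_sub hm, pow_succ]
        congr 1
        exact if_neg (not_lt.2 hm)
    exact e _ hrn
  rw [hdet, hprod]
  exact Dvd.intro _ rfl

end Pool.Agent.Helper28.HN
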