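import Mathlib

/-!
MP_143e28_ag, project HN: the special genera (elementary number theory, Mathlib only; the analogue of `special` in `Helper54/HZ/Dir.lean`).

`Q = 2 p + 2 N`, `K ≥ 2` with `Q < p ^ K` (`K = Q + 2`).  Let `l = 3` (`l = 5` if `p = 3`); `g = p - 1` modulo `p ^ K`, `g = (l - 1) / 2` modulo `l`, `g` prime
and larger than everything (Dirichlet, `Nat.forall_exists_prime_gt_and_eq_mod`; `Dir_aux` in `Helper54/HZ/Dir.lean` does it for `K = 2`).  Then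
`g + 1 = p` modulo `p ^ K`: `p ∣ g + 1`, not `p ^ 2`; `l ∣ 2 g + 1`.  Let `p ^ e ∣ 2 g + 2 n - 2 - v = 2 (g + 1) + (2 n - 4 - v)`, `2 ≤ n ≤ N`, `v < n`
(so `-1 ≤ 2 n - 4 - v ≤ 2 N - 4`); modulo `p ^ K` the number is `2 p + 2 n - 4 - v`, which is between `1` and `Q`; if `e ≥ K`: `p ^ K` divides it, impossible; if `e < K`: `p ^ e`
divides it, so `p ^ e ≤ Q`.
-/

set_option autoImplicit false

namespace Pool.Agent.Helper28.HN

private theorem Dir_aux (p l s K : ℕ) (hp : p.Prime) (hl : l.Prime) (hpl : p ≠ l)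
    (hs : s.Coprime l) (hls : 2 * s + 1 = l) (hK : 2 ≤ K) (N : ℕ) :
    ∃ g : ℕ, N < g ∧ g.Prime ∧ ¬ (2 * g + 1).Prime ∧ p ∣ g + 1 ∧ ¬ p ^ 2 ∣ g + 1 ∧
      g ≡ p - 1 [MOD p ^ K] := by
  have hc : (p ^ K).Coprime l := ((Nat.coprime_primes hp hl).2 hpl).pow_left K
  obtain ⟨m, hm1, hm2⟩ := Nat.chineseRemainder hc (p - 1) s
  have hp1 := hp.one_lt
  have hq : NeZero (p ^ K * l) := ⟨Nat.mul_ne_zero (pow_ne_zero _ hp.ne_zero) hl.ne_zero⟩
  have hpK : p ∣ p ^ K := dvd_pow_self p (by omega)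
  have hpK2 : p ^ 2 ∣ p ^ K := pow_dvd_pow p hK
  have hmp : m.Coprime p := by
    have h1 : m ≡ p - 1 [MOD p] := hm1.of_dvd hpK
    have h2 : (p - 1).Coprime p := by
      have : (p - 1).Coprime (p - 1 + 1) := by simp
      rwa [Nat.sub_add_cancel hp1.le] at this
    have h3 := h1.gcd_eq
    unfold Nat.Coprime at *
    rw [h3, h2]
  have hml : m.Coprime l := by
    have h3 := hm2.gcd_eq
    unfold Nat.Coprime at *
    rw [h3, hs]
  have hu : IsUnit ((m : ℕ) : ZMod (p ^ K * l)) :=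
    (ZMod.isUnit_iff_coprime m (p ^ K * l)).2 ((hmp.pow_right K).mul_right hml)
  obtain ⟨g, hg1, hg2, hg3⟩ := Nat.forall_exists_prime_gt_and_eq_mod hu (N + l)
  have h4 : g ≡ m [MOD p ^ K * l] := (ZMod.natCast_eq_natCast_iff g m _).1 hg3
  have h5 : g ≡ p - 1 [MOD p ^ K] := (h4.of_dvd (Dvd.intro _ rfl)).trans hm1
  have h6 : g ≡ s [MOD l] := (h4.of_dvd (Dvd.intro_left _ rfl)).trans hm2
  have h7 : g + 1 ≡ p [MOD p ^ 2] := by
    have := (h5.of_dvd hpK2).add_right 1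
    rwa [Nat.sub_add_cancel hp1.le] at this
  refine ⟨g, by omega, hg2, ?_, ?_, ?_, h5⟩
  · have h8 : 2 * g + 1 ≡ 0 [MOD l] := by
      have := (h6.mul_left 2).add_right 1
      rw [hls] at this
      exact this.trans ((Nat.modEq_zero_iff_dvd).2 (dvd_refl l))
    have h9 : l ∣ 2 * g + 1 := (Nat.modEq_zero_iff_dvd).1 h8
    intro h10
    rcases (Nat.dvd_prime h10).1 h9 with h | h
    · exact hl.one_lt.ne' h
    · omega
  · have h8 : g + 1 ≡ p [MOD p] := h7.of_dvd (Dvd.intro_left (p ^ 1) (by ring))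
    exact (Nat.modEq_zero_iff_dvd).1 (h8.trans ((Nat.modEq_zero_iff_dvd).2 (dvd_refl p)))
  · intro h8
    have h9 : p ≡ 0 [MOD p ^ 2] := h7.symm.trans ((Nat.modEq_zero_iff_dvd).2 h8)
    have h10 := Nat.le_of_dvd hp.pos ((Nat.modEq_zero_iff_dvd).1 h9)
    nlinarith

theorem specialD (p : ℕ) (hp : p.Prime) (hp2 : p ≠ 2) (N M : ℕ) :
    ∃ g : ℕ, M < g ∧ g.Prime ∧ ¬ (2 * g + 1).Prime ∧ p ∣ g + 1 ∧ ¬ p ^ 2 ∣ g + 1 ∧
      ∀ n : ℕ, 2 ≤ n → n ≤ N → ∀ e v : ℕ, v < n → p ^ e ∣ 2 * g + 2 * n - 2 - v →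
        p ^ e ≤ 2 * p + 2 * N := by
  obtain ⟨K, hK2, hK⟩ : ∃ K : ℕ, 2 ≤ K ∧ 2 * p + 2 * N < p ^ K := by
    refine ⟨2 * p + 2 * N + 2, by omega, ?_⟩
    exact (Nat.lt_pow_self hp.one_lt).trans_le
      (Nat.pow_le_pow_right hp.pos (Nat.le_add_right _ 2))
  have key : ∃ g : ℕ, M < g ∧ g.Prime ∧ ¬ (2 * g + 1).Prime ∧ p ∣ g + 1 ∧ ¬ p ^ 2 ∣ g + 1 ∧
      g ≡ p - 1 [MOD p ^ K] := by
    by_cases h3 : p = 3
    · exact Dir_aux p 5 2 K hp (by norm_num) (by omega) (by norm_num) (by norm_num) hK2 M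
    · exact Dir_aux p 3 1 K hp (by norm_num) h3 (by norm_num) (by norm_num) hK2 M
  obtain ⟨g, h1, h2, h3, h4, h5, h6⟩ := key
  refine ⟨g, h1, h2, h3, h4, h5, ?_⟩
  intro n hn2 hnN e v hv hdvd
  have hp1 := hp.one_lt
  obtain ⟨w, hw⟩ : ∃ w, w = 2 * n - 2 - v := ⟨_, rfl⟩
  have e1 : 2 * g + 2 * n - 2 - v = 2 * g + w := by omega
  rw [e1] at hdvd
  have h7 : 2 * g + w ≡ 2 * (p - 1) + w [MOD p ^ K] := (h6.mul_left 2).add_right w
  have h8 : ∀ i : ℕ, i ≤ K → i ≤ e → p ^ i ≤ 2 * p + 2 * N := by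
    intro i hi hie
    have h9 : 2 * g + w ≡ 2 * (p - 1) + w [MOD p ^ i] := h7.of_dvd (pow_dvd_pow p hi)
    have h10 : p ^ i ∣ 2 * g + w := (pow_dvd_pow p hie).trans hdvd
    have h11 : p ^ i ∣ 2 * (p - 1) + w :=
      (Nat.modEq_zero_iff_dvd).1 (h9.symm.trans ((Nat.modEq_zero_iff_dvd).2 h10))
    have h12 := Nat.le_of_dvd (by omega) h11
    omega
  rcases le_total e K with h | h
  · exact h8 e h le_rfl
  · exact absurd (h8 K le_rfl h) (by omega)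

end Pool.Agent.Helper28.HN
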