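import Pool.Agent.Helper28.HN.Mem
import Pool.Agent.Helper28.HN.Grp
import Pool.Agent.Helper28.HN.Kum
import Pool.Agent.Helper28.HN.Gen
import Pool.Agent.Helper28.HN.Bound
import Pool.Agent.Helper54.HZ.Final

/-!
MP_143e28_ag, project HN: the upper bound (the analogue of `Helper54/HZ/TUpper.lean`).

`1 ≤ Q` (`hQ 0 0`), so `hbig` gives `(n - 1) ^ 2 < g`: `d_mem`.  If some `s ≠ 1` fixes `x`: `d_kum` and `d_gen` give `PresN k F n g x y f`, `upperN`
(`Final.lean`) with `S = {n}`.  Otherwise `d_group`; the support `B` of `ramD n` is finite (`genus`: a finsum with infinite support is `0`),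
`ramD ≤ n - 1` (`ramD_le`), so `#B ≥ 3`, `mob_finite` (`Helper28/HA/B6.lean`): `G` is finite; `d_bound`.
-/

set_option autoImplicit false

namespace Pool.Agent.Helper28.HN

open Polynomial Pool.Agent.Helper28.HA Pool.Agent.Helper54.HZ

theorem d_upper.{u} (p : ℕ) [Fact p.Prime] (hp : p ≠ 2) {k F : Type u} [Field k] [IsAlgClosed k]
    [CharP k p] [Field F] [Algebra k F] {g n Q : ℕ} (hg : g.Prime) (hg' : ¬ (2 * g + 1).Prime)
    (h1 : p ∣ g + 1) (h2 : ¬ p ^ 2 ∣ g + 1) (h3 : 3 * p ^ 2 < g)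
    (hQ : ∀ e v : ℕ, v < n → p ^ e ∣ 2 * g + 2 * n - 2 - v → p ^ e ≤ Q)
    (hbig : n ^ 2 * (1 + 3 * Q + 2 * Q ^ 2) < g) {x : F} (h : PresD k F p n g x) :
    Finite (F ≃ₐ[k] F) ∧ Nat.card (F ≃ₐ[k] F) ≤ 8 * g := by
  have hn2 : 2 ≤ n := h.two
  have hQ1 : 1 ≤ Q := by
    have h0 := hQ 0 0 (by omega) (by simp)
    simpa using h0
  have hgn : (n - 1) ^ 2 < g := by
    have e1 : (n - 1) ^ 2 ≤ n ^ 2 := Nat.pow_le_pow_left (Nat.sub_le n 1) 2
    have e2 : n ^ 2 * 1 ≤ n ^ 2 * (1 + 3 * Q + 2 * Q ^ 2) := Nat.mul_le_mul_left _ (by omega)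
    omega
  have hmem : ∀ s : F ≃ₐ[k] F, s x ∈ IntermediateField.adjoin k {x} := fun s => d_mem hgn h s
  by_cases hker : ∀ s : F ≃ₐ[k] F, s x = x → s = 1
  · obtain ⟨G, hG, hw, hfin⟩ := d_group n h.trans hmem hker
    -- the support of the weight
    have hsupp : (Function.support (ramD n h.trans)).Finite := by
      by_contra hinf
      have := h.genus
      rw [finsum_of_infinite_support hinf] at this
      omega
    have hcard : 3 ≤ Nat.card (Function.support (ramD n h.trans)) := by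
      have e1 := h.genus
      rw [finsum_eq_sum_of_support_subset (ramD n h.trans) (s := hsupp.toFinset) (by simp)] at e1
      have e2 : ∑ P ∈ hsupp.toFinset, ramD n h.trans P ≤ ∑ _P ∈ hsupp.toFinset, (n - 1) :=
        Finset.sum_le_sum (fun P _ => ramD_le n h.trans P)
      rw [Finset.sum_const, smul_eq_mul] at e2
      have e3 : Nat.card (Function.support (ramD n h.trans)) = hsupp.toFinset.card := by
        rw [Nat.card_coe_set_eq, Set.ncard_eq_toFinset_card _ hsupp]
      by_contra hlt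
      have e4 : hsupp.toFinset.card * (n - 1) ≤ 2 * (n - 1) := Nat.mul_le_mul_right _ (by omega)
      have e5 : 0 < g := hg.pos
      omega
    obtain ⟨hGf, -⟩ := mob_finite G hG (Function.support (ramD n h.trans)) hsupp hcard (by
      intro s hs P hP
      simp only [Function.mem_support] at hP ⊢
      rw [hw s hs P]
      exact hP)
    obtain ⟨ha, hb⟩ := hfin hGf
    haveI := hGf
    refine ⟨ha, hb.trans (d_bound p hp G hG (ramD n h.trans) hw n g Q hn2 (fun P => ?_) h.genus
      hQ hbig)⟩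
    have := ramD_le n h.trans P
    omega
  · push Not at hker
    obtain ⟨s, hsx, hs1⟩ := hker
    obtain ⟨hnp, y, f, hgen, hf, hm, hy, hyx⟩ := d_kum h.two h.char h.trans h.deg h.simple s hs1 hsx
    have hP := d_gen hnp h hgen hf hm hy hyx
    exact upperN p hp hg hg' h1 h2 h3 {n} ⟨n, rfl, x, y, f, hP⟩

end Pool.Agent.Helper28.HN
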