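import Pool.Agent.Helper28.HN.Cls
import Pool.Agent.Helper28.HN.Upper
import Pool.Agent.Helper28.HN.Dir
import Pool.Agent.Helper54.HZ.Final2

/-!
MP_143e28_ag, project HN: the final step (helper28).
-/

set_option autoImplicit false

namespace Pool.Agent.Helper28.HN

open Polynomial Pool.Agent.Helper28.HA Pool.Agent.Helper54.HZ

theorem lower_prm.{u} (p : ℕ) [Fact p.Prime] (hp : p ≠ 2) (k : Type u) [Field k] [IsAlgClosed k]
    [CharP k p] {g : ℕ} (hg : 2 ≤ g) (S : Set ℕ) (hS : 2 ∈ S) (N : ℕ) :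
    ((8 * g : ℕ) : ℕ∞) ≤ muPrm k p S N g := by
  refine (lower_mu p hp k hg S hS).trans ?_
  unfold muCov muPrm
  refine sSup_le_sSup ?_
  rintro n ⟨F, i1, i2, hF, rfl⟩
  exact ⟨F, i1, i2, Or.inl hF, rfl⟩

/-- the special genera -/
def Special (p N g : ℕ) : Prop :=
  g.Prime ∧ ¬ (2 * g + 1).Prime ∧ p ∣ g + 1 ∧ ¬ p ^ 2 ∣ g + 1 ∧ 3 * p ^ 2 < g ∧
    N ^ 2 * (1 + 3 * (2 * p + 2 * N) + 2 * (2 * p + 2 * N) ^ 2) < g ∧
    ∀ n : ℕ, 2 ≤ n → n ≤ N → ∀ e v : ℕ, v < n → p ^ e ∣ 2 * g + 2 * n - 2 - v →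
      p ^ e ≤ 2 * p + 2 * N

theorem inf_specialD (p : ℕ) (hp : p.Prime) (hp2 : p ≠ 2) (N : ℕ) : {g : ℕ | Special p N g}.Infinite := by
  rw [Set.infinite_iff_exists_gt]
  intro M
  obtain ⟨g, h1, h2, h3, h4, h5, h6⟩ := specialD p hp hp2 N
    (max M (max (3 * p ^ 2) (N ^ 2 * (1 + 3 * (2 * p + 2 * N) + 2 * (2 * p + 2 * N) ^ 2))))
  refine ⟨g, ⟨h2, h3, h4, h5, ?_, ?_, h6⟩, ?_⟩
  · exact lt_of_le_of_lt ((le_max_left _ _).trans (le_max_right _ _)) h1
  · exact lt_of_le_of_lt ((le_max_right _ _).trans (le_max_right _ _)) h1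
  · exact lt_of_le_of_lt (le_max_left _ _) h1

theorem upper_prm.{u} (p : ℕ) [Fact p.Prime] (hp : p ≠ 2) (k : Type u) [Field k] [IsAlgClosed k]
    [CharP k p] {N g : ℕ} (hg : Special p N g) {S : Set ℕ} (F : Type u) [Field F] [Algebra k F]
    (hF : IsPrm k F p S N g) : Finite (F ≃ₐ[k] F) ∧ Nat.card (F ≃ₐ[k] F) ≤ 8 * g := by
  obtain ⟨h1, h2, h3, h4, h5, h6, h7⟩ := hg
  rcases hF with hF | ⟨n, -, hn, x, hF⟩
  · exact upper_all p hp k h1 h2 h3 h4 h5 S F hF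
  · refine d_upper p hp h1 h2 h3 h4 h5 (h7 n hF.two hn) ?_ hF
    refine lt_of_le_of_lt ?_ h6
    exact Nat.mul_le_mul_right _ (Nat.pow_le_pow_left hn 2)

theorem exact_prm.{u} (p : ℕ) [Fact p.Prime] (hp : p ≠ 2) (k : Type u) [Field k] [IsAlgClosed k]
    [CharP k p] {N g : ℕ} (hg : Special p N g) (S : Set ℕ) (hS : 2 ∈ S) :
    muPrm k p S N g = ((8 * g : ℕ) : ℕ∞) := by
  refine le_antisymm ?_ (lower_prm p hp k hg.1.two_le S hS N)
  unfold muPrm
  refine sSup_le ?_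
  rintro n ⟨F, _, _, hF, rfl⟩
  obtain ⟨ha, hb⟩ := upper_prm p hp k hg F hF
  rw [ENat.card_eq_coe_natCard]
  exact_mod_cast hb

theorem main_prm.{u} (p : ℕ) [Fact p.Prime] (hp : p ≠ 2) (k : Type u) [Field k] [IsAlgClosed k]
    [CharP k p] (S : Set ℕ) (hS : 2 ∈ S) (N : ℕ) (M : ℚ[X]) :
    ((∀ g : ℕ, 2 ≤ g → ∀ m : ℕ, muPrm k p S N g = m → M.eval (g : ℚ) ≤ m) ∧
      {g : ℕ | 2 ≤ g ∧ ∃ m : ℕ, muPrm k p S N g = m ∧ M.eval (g : ℚ) = m}.Infinite) ↔
    M = C 8 * X := by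
  have hsp := inf_specialD p Fact.out hp N
  constructor
  · rintro ⟨hM1, hM2⟩
    have : M - C 8 * X = 0 := by
      apply Pool.Agent.Helper54.HY.poly_zero
      · refine hM2.mono ?_
        rintro g ⟨hg, m, hm, hM⟩
        have e1 := lower_prm p hp k hg S hS N
        rw [hm] at e1
        have e2 : 8 * g ≤ m := by exact_mod_cast e1
        have e3 : ((8 * g : ℕ) : ℚ) ≤ m := by exact_mod_cast e2
        simp only [Set.mem_ofPred_eq, eval_sub, eval_mul, eval_C, eval_X, hM]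
        push_cast at e3
        linarith
      · refine hsp.mono ?_
        intro g hg
        have e1 := hM1 g hg.1.two_le (8 * g) (exact_prm p hp k hg S hS)
        simp only [Set.mem_ofPred_eq, eval_sub, eval_mul, eval_C, eval_X]
        push_cast at e1
        linarith
    exact sub_eq_zero.1 this
  · rintro rfl
    refine ⟨?_, ?_⟩
    · intro g hg m hm
      have e1 := lower_prm p hp k hg S hS N
      rw [hm] at e1
      have e2 : 8 * g ≤ m := by exact_mod_cast e1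
      have e3 : ((8 * g : ℕ) : ℚ) ≤ m := by exact_mod_cast e2
      simp only [eval_mul, eval_C, eval_X]
      push_cast at e3
      linarith
    · refine hsp.mono ?_
      intro g hg
      refine ⟨hg.1.two_le, 8 * g, exact_prm p hp k hg S hS, ?_⟩
      simp only [eval_mul, eval_C, eval_X]
      push_cast
      ring

end Pool.Agent.Helper28.HN
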