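import Pool.Agent.Helper28.HN.Upper2
import Pool.Agent.Helper28.HN.Dir2
import Pool.Agent.Helper28.HN.Final

/-!
MP_143e28_ag, project HN: the final step for `p = 2`, and all characteristics together (helper28).
-/

set_option autoImplicit false

namespace Pool.Agent.Helper28.HN

open Polynomial Pool.Agent.Helper28.HA Pool.Agent.Helper54.HZ Pool.Agent.Helper22.HE

theorem lower_prm2.{u} (k : Type u) [Field k] [IsAlgClosed k] [CharP k 2] {g : ℕ} (hg : 2 ≤ g)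
    (S : Set ℕ) (hS : 2 ∈ S) (N : ℕ) : ((4 * g + 2 : ℕ) : ℕ∞) ≤ muPrm k 2 S N g := by
  refine (lowerC k hg S hS).trans ?_
  unfold muCov muPrm
  refine sSup_le_sSup ?_
  rintro n ⟨F, i1, i2, hF, rfl⟩
  exact ⟨F, i1, i2, Or.inl hF, rfl⟩

/-- the special genera are `903 l` -/
def Special2 (N l : ℕ) : Prop :=
  Sp l ∧ N ^ 2 * (1 + 3 * (12642 + 2 * N) + 2 * (12642 + 2 * N) ^ 2) < 903 * l ∧
    ∀ n : ℕ, 2 ≤ n → n ≤ N → ∀ e v : ℕ, v < n → 2 ^ e ∣ 2 * (903 * l) + 2 * n - 2 - v →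
      2 ^ e ≤ 12642 + 2 * N

theorem inf_special2 (N : ℕ) : {l : ℕ | Special2 N l}.Infinite := by
  rw [Set.infinite_iff_exists_gt]
  intro M
  obtain ⟨l, h1, h2, h3⟩ := specialD2 N
    (max M (N ^ 2 * (1 + 3 * (12642 + 2 * N) + 2 * (12642 + 2 * N) ^ 2)))
  have h4 := lt_of_le_of_lt (le_max_right _ _) h1
  exact ⟨l, ⟨h2, by omega, h3⟩, lt_of_le_of_lt (le_max_left _ _) h1⟩

theorem upper_prm2.{u} (k : Type u) [Field k] [IsAlgClosed k] [CharP k 2] {N l : ℕ} (hl : Special2 N l)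
    {S : Set ℕ} (F : Type u) [Field F] [Algebra k F] (hF : IsPrm k F 2 S N (903 * l)) :
    Finite (F ≃ₐ[k] F) ∧ Nat.card (F ≃ₐ[k] F) ≤ 4 * (903 * l) + 2 := by
  obtain ⟨h1, h2, h3⟩ := hl
  rcases hF with hF | ⟨n, -, hn, x, hF⟩
  · rcases hF with ⟨n, -, x, y, f, hF⟩ | ⟨-, x, y, f, hF⟩
    · exact upperN2 h1 hF
    · exact upperAS2 h1 hF
  · refine d_upper2 h1 (h3 n hF.two hn) ?_ hF
    refine lt_of_le_of_lt ?_ h2
    exact Nat.mul_le_mul_right _ (Nat.pow_le_pow_left hn 2)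

theorem exact_prm2.{u} (k : Type u) [Field k] [IsAlgClosed k] [CharP k 2] {N l : ℕ}
    (hl : Special2 N l) (S : Set ℕ) (hS : 2 ∈ S) :
    muPrm k 2 S N (903 * l) = ((4 * (903 * l) + 2 : ℕ) : ℕ∞) := by
  refine le_antisymm ?_ (lower_prm2 k (by have := hl.1.2.2.2.2.2.2; omega) S hS N)
  unfold muPrm
  refine sSup_le ?_
  rintro n ⟨F, _, _, hF, rfl⟩
  obtain ⟨ha, hb⟩ := upper_prm2 k hl F hF
  rw [ENat.card_eq_coe_natCard]
  exact_mod_cast hb

theorem inf_prm2.{u} (k : Type u) [Field k] [IsAlgClosed k] [CharP k 2] (S : Set ℕ) (hS : 2 ∈ S) (N : ℕ) :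
    {g : ℕ | 2 ≤ g ∧ muPrm k 2 S N g = ((4 * g + 2 : ℕ) : ℕ∞)}.Infinite := by
  have h2 : (fun l : ℕ => 903 * l) '' {l : ℕ | Special2 N l} ⊆
      {g : ℕ | 2 ≤ g ∧ muPrm k 2 S N g = ((4 * g + 2 : ℕ) : ℕ∞)} := by
    rintro _ ⟨l, hl, rfl⟩
    refine ⟨by have := hl.1.2.2.2.2.2.2; dsimp only; omega, ?_⟩
    exact exact_prm2 k hl S hS
  refine Set.Infinite.mono h2 ((inf_special2 N).image ?_)
  intro a _ b _ hab
  dsimp only at hab
  omega

theorem main_prm2.{u} (k : Type u) [Field k] [IsAlgClosed k] [CharP k 2] (S : Set ℕ) (hS : 2 ∈ S) (N : ℕ)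
    (M : ℚ[X]) :
    ((∀ g : ℕ, 2 ≤ g → ∀ m : ℕ, muPrm k 2 S N g = m → M.eval (g : ℚ) ≤ m) ∧
      {g : ℕ | 2 ≤ g ∧ ∃ m : ℕ, muPrm k 2 S N g = m ∧ M.eval (g : ℚ) = m}.Infinite) ↔
    M = C 4 * X + C 2 := by
  have hsp := inf_prm2 k S hS N
  constructor
  · rintro ⟨hM1, hM2⟩
    have : M - (C 4 * X + C 2) = 0 := by
      apply Pool.Agent.Helper54.HY.poly_zero
      · refine hM2.mono ?_
        rintro g ⟨hg, m, hm, hM⟩
        have e1 := lower_prm2 k hg S hS N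
        rw [hm] at e1
        have e2 : 4 * g + 2 ≤ m := by exact_mod_cast e1
        have e3 : ((4 * g + 2 : ℕ) : ℚ) ≤ m := by exact_mod_cast e2
        simp only [Set.mem_ofPred_eq, eval_sub, eval_add, eval_mul, eval_C, eval_X, hM]
        push_cast at e3
        linarith
      · refine hsp.mono ?_
        rintro g ⟨hg, hg2⟩
        have e1 := hM1 g hg (4 * g + 2) hg2
        simp only [Set.mem_ofPred_eq, eval_sub, eval_add, eval_mul, eval_C, eval_X]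
        push_cast at e1
        linarith
    exact sub_eq_zero.1 this
  · rintro rfl
    refine ⟨?_, ?_⟩
    · intro g hg m hm
      have e1 := lower_prm2 k hg S hS N
      rw [hm] at e1
      have e2 : 4 * g + 2 ≤ m := by exact_mod_cast e1
      have e3 : ((4 * g + 2 : ℕ) : ℚ) ≤ m := by exact_mod_cast e2
      simp only [eval_add, eval_mul, eval_C, eval_X]
      push_cast at e3
      linarith
    · refine hsp.mono ?_
      rintro g ⟨hg, hg2⟩
      refine ⟨hg, 4 * g + 2, hg2, ?_⟩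
      simp only [eval_add, eval_mul, eval_C, eval_X]
      push_cast
      ring

end Pool.Agent.Helper28.HN
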