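import Pool.Agent.Helper28.HN.Final
import Pool.Agent.Helper54.HW.Cls
import Pool.Agent.Helper54.HZ.ASUpper

/-!
MP_143e28_ag, project HN: the final step with all curves `y ^ q - y = f (x)` added to the class (helper28, after helper54).
-/

set_option autoImplicit false

namespace Pool.Agent.Helper28.HN

open Polynomial Pool.Agent.Helper28.HA Pool.Agent.Helper54.HZ Pool.Agent.Helper54.HW

/-- `F` is the function field of a curve of genus `g` over `k` (of characteristic `p`) which is a Galois cover of the line of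
prime degree `n ∈ S`, or has a tame indecomposable map of degree `n ∈ S`, `n ≤ N`, `n` not divisible by `p`, to the line, or is a
curve `y ^ q - y = f (x)`, `q > 1` a power of `p` -/
def IsPrq (k F : Type*) [Field k] [Field F] [Algebra k F] (p : ℕ) (S : Set ℕ) (N g : ℕ) : Prop :=
  IsPrm k F p S N g ∨ ∃ (s : ℕ) (x y : F) (f : RatFunc k), PresQ k F p s g x y f

/-- the supremum (in `ℕ ∪ {∞}`) of the numbers of automorphisms of these curves -/
noncomputable def muPrq.{u} (k : Type u) [Field k] (p : ℕ) (S : Set ℕ) (N g : ℕ) : ℕ∞ :=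
  sSup {n : ℕ∞ | ∃ (F : Type u) (_ : Field F) (_ : Algebra k F),
    IsPrq k F p S N g ∧ n = ENat.card (F ≃ₐ[k] F)}

theorem sp_prq (p s g : ℕ) (hp : p.Prime) (hp2 : p ≠ 2) (hs : 1 ≤ s) (hg : g.Prime)
    (hpg : p ∣ g + 1) (h : p ^ s - 1 ∣ 2 * g) : p = 3 ∧ s = 1 := by
  obtain ⟨e, he⟩ := (hp.odd_of_ne_two hp2).pow (n := s)
  have hd : p ^ s - 1 = 2 * e := by omega
  rw [hd] at h
  have h1 : e ∣ g := Nat.dvd_of_mul_dvd_mul_left two_pos h
  have hpps : p ∣ p ^ s := dvd_pow_self p (by omega)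
  rcases (Nat.dvd_prime hg).1 h1 with h2 | h2
  · have h3 : p ^ s = 3 := by omega
    have h4 : p = 3 := by
      rw [h3] at hpps
      exact (Nat.prime_dvd_prime_iff_eq hp Nat.prime_three).1 hpps
    rw [h4] at h3
    refine ⟨h4, ?_⟩
    by_contra hne
    have h5 : 3 ^ 2 ≤ 3 ^ s := Nat.pow_le_pow_right (by norm_num) (by omega)
    omega
  · exfalso
    have h3 : p ∣ 2 * (g + 1) := hpg.mul_left 2
    have h4 : 2 * (g + 1) = p ^ s + 1 := by omega
    rw [h4] at h3
    have h5 : p ∣ 1 := (Nat.dvd_add_right hpps).1 h3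
    exact hp.one_lt.ne' (Nat.dvd_one.1 h5)

theorem lower_prq.{u} (p : ℕ) [Fact p.Prime] (hp : p ≠ 2) (k : Type u) [Field k] [IsAlgClosed k]
    [CharP k p] {g : ℕ} (hg : 2 ≤ g) (S : Set ℕ) (hS : 2 ∈ S) (N : ℕ) :
    ((8 * g : ℕ) : ℕ∞) ≤ muPrq k p S N g := by
  refine (lower_prm p hp k hg S hS N).trans ?_
  unfold muPrm muPrq
  refine sSup_le_sSup ?_
  rintro n ⟨F, i1, i2, hF, rfl⟩
  exact ⟨F, i1, i2, Or.inl hF, rfl⟩

theorem upper_prq.{u} (p : ℕ) [Fact p.Prime] (hp : p ≠ 2) (k : Type u) [Field k] [IsAlgClosed k]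
    [CharP k p] {N g : ℕ} (hg : Special p N g) {S : Set ℕ} (F : Type u) [Field F] [Algebra k F]
    (hF : IsPrq k F p S N g) : Finite (F ≃ₐ[k] F) ∧ Nat.card (F ≃ₐ[k] F) ≤ 8 * g := by
  have hpp : p.Prime := Fact.out
  rcases hF with hF | ⟨s, x, y, f, hF⟩
  · exact upper_prm p hp k hg F hF
  · obtain ⟨h1, h2, h3, h4, h5, h6, h7⟩ := hg
    have hd : p ^ s - 1 ∣ 2 * g := by
      have e1 : ((p : ℤ) ^ s - 1) ∣ 2 * g := ⟨_, hF.genus.symm⟩
      have e3 : (((p ^ s - 1 : ℕ) : ℤ)) ∣ ((2 * g : ℕ) : ℤ) := by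
        rw [Nat.cast_sub (Nat.one_le_pow _ _ hpp.pos)]
        push_cast
        exact e1
      exact Int.natCast_dvd_natCast.1 e3
    obtain ⟨rfl, rfl⟩ := sp_prq p s g hpp hp hF.pos h1 h3 hd
    refine as_upper (g := g) (x := x) (y := y) (f := f) (by omega) h3
      ⟨hF.trans, hF.gen, hF.poles, ?_, ?_⟩
    · have := hF.eqn
      rwa [pow_one] at this
    · have := hF.genus
      rwa [pow_one] at this

theorem exact_prq.{u} (p : ℕ) [Fact p.Prime] (hp : p ≠ 2) (k : Type u) [Field k] [IsAlgClosed k]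
    [CharP k p] {N g : ℕ} (hg : Special p N g) (S : Set ℕ) (hS : 2 ∈ S) :
    muPrq k p S N g = ((8 * g : ℕ) : ℕ∞) := by
  refine le_antisymm ?_ (lower_prq p hp k hg.1.two_le S hS N)
  unfold muPrq
  refine sSup_le ?_
  rintro n ⟨F, _, _, hF, rfl⟩
  obtain ⟨ha, hb⟩ := upper_prq p hp k hg F hF
  rw [ENat.card_eq_coe_natCard]
  exact_mod_cast hb

theorem main_prq.{u} (p : ℕ) [Fact p.Prime] (hp : p ≠ 2) (k : Type u) [Field k] [IsAlgClosed k]
    [CharP k p] (S : Set ℕ) (hS : 2 ∈ S) (N : ℕ) (M : ℚ[X]) :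
    ((∀ g : ℕ, 2 ≤ g → ∀ m : ℕ, muPrq k p S N g = m → M.eval (g : ℚ) ≤ m) ∧
      {g : ℕ | 2 ≤ g ∧ ∃ m : ℕ, muPrq k p S N g = m ∧ M.eval (g : ℚ) = m}.Infinite) ↔
    M = C 8 * X := by
  have hsp := inf_specialD p Fact.out hp N
  constructor
  · rintro ⟨hM1, hM2⟩
    have : M - C 8 * X = 0 := by
      apply Pool.Agent.Helper54.HY.poly_zero
      · refine hM2.mono ?_
        rintro g ⟨hg, m, hm, hM⟩
        have e1 := lower_prq p hp k hg S hS N
        rw [hm] at e1
        have e2 : 8 * g ≤ m := by exact_mod_cast e1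
        have e3 : ((8 * g : ℕ) : ℚ) ≤ m := by exact_mod_cast e2
        simp only [Set.mem_ofPred_eq, eval_sub, eval_mul, eval_C, eval_X, hM]
        push_cast at e3
        linarith
      · refine hsp.mono ?_
        intro g hg
        have e1 := hM1 g hg.1.two_le (8 * g) (exact_prq p hp k hg S hS)
        simp only [Set.mem_ofPred_eq, eval_sub, eval_mul, eval_C, eval_X]
        push_cast at e1
        linarith
    exact sub_eq_zero.1 this
  · rintro rfl
    refine ⟨?_, ?_⟩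
    · intro g hg m hm
      have e1 := lower_prq p hp k hg S hS N
      rw [hm] at e1
      have e2 : 8 * g ≤ m := by exact_mod_cast e1
      have e3 : ((8 * g : ℕ) : ℚ) ≤ m := by exact_mod_cast e2
      simp only [eval_mul, eval_C, eval_X]
      push_cast at e3
      linarith
    · refine hsp.mono ?_
      intro g hg
      refine ⟨hg.1.two_le, 8 * g, exact_prq p hp k hg S hS, ?_⟩
      simp only [eval_mul, eval_C, eval_X]
      push_cast
      ring

end Pool.Agent.Helper28.HN
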