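import Pool.Agent.Helper28.HN.Defs
import Pool.Agent.Helper54.HZ.TPlace

/-!
MP_143e28_ag, project HN: different residues give different places.

For `rho ∈ S` take the place `V` of `exists_place` with `z - rho ∈ V.nonunits`.  For `rho ≠ rho'` the places are different: otherwise
`rho' - rho = (z - rho) - (z - rho') ∈ V.nonunits`, but a nonzero constant and its inverse are in `V` (`V ∈ Above`, `rat` of a constant has
order `0` or is `0`).  (`TLoc.lean` has the same step.)
-/

set_option autoImplicit false

namespace Pool.Agent.Helper28.HN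

open Polynomial Pool.Agent.Helper54.HY Pool.Agent.Helper54.HZ

variable {k F : Type*} [Field k] [Field F] [Algebra k F]

/-- constants are in every place above a point -/
private theorem Places_const {x : F} (hx : Transcendental k x) (P : OnePoint k)
    {V : ValuationSubring F} (hV : V ∈ Above hx P) (c : k) : algebraMap k F c ∈ V := by
  have h1 : rat hx (algebraMap k[X] (RatFunc k) (C c)) = algebraMap k F c := by
    rw [rat_poly, aeval_C]
  rw [← h1]
  exact (hV _).2 (Or.inr (ord_const P c).ge)

theorem d_places [IsAlgClosed k] {x : F} (hx : Transcendental k x) (P : OnePoint k) {z : F}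
    {chi : (RatFunc k)[X]} (hmon : chi.Monic) (hirr : Irreducible chi)
    (hz : chi.eval₂ (rat hx : RatFunc k →ₐ[k] F).toRingHom z = 0)
    (hint : ∀ i, chi.coeff i = 0 ∨ 0 ≤ ordP P (chi.coeff i)) (S : Finset k)
    (hS : ∀ rho ∈ S, chi.eval (algebraMap k[X] (RatFunc k) (C rho)) = 0 ∨
      1 ≤ ordP P (chi.eval (algebraMap k[X] (RatFunc k) (C rho)))) :
    (S.card : ℕ∞) ≤ (Above hx P).encard := by
  classical
  have hex : ∀ rho : k, ∃ V : ValuationSubring F, rho ∈ S →
      V ∈ Above hx P ∧ z - algebraMap k F rho ∈ V.nonunits := by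
    intro rho
    by_cases h : rho ∈ S
    · obtain ⟨V, hV, hn⟩ := exists_place hx P hmon hirr hz hint rho (hS rho h)
      exact ⟨V, fun _ => ⟨hV, hn⟩⟩
    · exact ⟨⊤, fun h' => absurd h' h⟩
  choose V hV using hex
  have hinj : Set.InjOn V (S : Set k) := by
    intro r hr s hs hrs
    by_contra hne
    obtain ⟨h1, h2⟩ := hV r hr
    obtain ⟨h3, h4⟩ := hV s hs
    rw [← hrs] at h4
    have h5 : (V r).valuation (z - algebraMap k F r) < 1 := (ValuationSubring.mem_nonunits_iff _).1 h2
    have h6 : (V r).valuation (z - algebraMap k F s) < 1 := (ValuationSubring.mem_nonunits_iff _).1 h4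
    have h7 : (V r).valuation (algebraMap k F (s - r)) < 1 := by
      have e : algebraMap k F (s - r) = (z - algebraMap k F r) - (z - algebraMap k F s) := by
        rw [map_sub]
        ring
      rw [e]
      exact (V r).valuation.map_sub_lt h5 h6
    have h8 : (V r).valuation (algebraMap k F (s - r)⁻¹) ≤ 1 :=
      ((V r).valuation_le_one_iff _).2 (Places_const hx P h1 _)
    have hne' : s - r ≠ 0 := sub_ne_zero.2 (fun h => hne h.symm)
    have h9 : (V r).valuation (algebraMap k F (s - r)⁻¹) *
        (V r).valuation (algebraMap k F (s - r)) = 1 := by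
      rw [← map_mul, ← map_mul, inv_mul_cancel₀ hne', map_one, map_one]
    have h10 : (V r).valuation (algebraMap k F (s - r)⁻¹) *
        (V r).valuation (algebraMap k F (s - r)) < 1 :=
      lt_of_le_of_lt (mul_le_of_le_one_left' h8) h7
    exact absurd h9 h10.ne
  have h1 : (V '' (S : Set k)).encard = (S : Set k).encard := hinj.encard_image
  rw [← Set.encard_coe_eq_coe_finsetCard, ← h1]
  apply Set.encard_le_encard
  rintro _ ⟨r, hr, rfl⟩
  exact (hV r hr).1

end Pool.Agent.Helper28.HN
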